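import Pool.Agent.H97.NS.Dens

/-!
Subgradients of an arbitrary function and the conjugate function.
-/

open MeasureTheory Filter Set
open scoped Topology
open Pool.Agent.K1H38.DP

set_option linter.unusedSectionVars false
set_option autoImplicit false

namespace Pool.Agent.H97.NS

variable {d : ℕ}

/-- `v` is a subgradient of `φ` at `h` -/
def Sub (φ : (Fin d → ℝ) → ℝ) (h v : Fin d → ℝ) : Prop := ∀ h', φ h + ip (h' - h) v ≤ φ h'

/-- the pairs `(h, v)` with `‖h‖ ≤ K` and `v` a subgradient at `h` -/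
def SK (φ : (Fin d → ℝ) → ℝ) (K : ℝ) : Set ((Fin d → ℝ) × (Fin d → ℝ)) :=
  {q | ‖q.1‖ ≤ K ∧ Sub φ q.1 q.2}

lemma ip_add_right (t v v' : Fin d → ℝ) : ip t (v + v') = ip t v + ip t v' := by
  unfold ip
  rw [← Finset.sum_add_distrib]
  exact Finset.sum_congr rfl fun k _ => by simp [mul_add]

lemma ip_smul_right (t v : Fin d → ℝ) (a : ℝ) : ip t (a • v) = a * ip t v := by
  unfold ip
  rw [Finset.mul_sum]
  exact Finset.sum_congr rfl fun k _ => by simp; ring

lemma ip_sub_left (t t' v : Fin d → ℝ) : ip (t - t') v = ip t v - ip t' v := by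
  unfold ip
  rw [← Finset.sum_sub_distrib]
  exact Finset.sum_congr rfl fun k _ => by simp [sub_mul]

lemma ip_single (t : Fin d → ℝ) (k : Fin d) (a : ℝ) :
    ip t (a • (Pi.single k (1 : ℝ) : Fin d → ℝ)) = a * t k := by
  rw [ip_smul_right]
  unfold ip
  rw [Finset.sum_eq_single k]
  · simp
  · intro j _ hj; simp [Pi.single_eq_of_ne hj]
  · intro h; exact absurd (Finset.mem_univ k) h

lemma ip_le_norm {t v : Fin d → ℝ} {K : ℝ} (ht : ‖t‖ ≤ K) : ip t v ≤ d * K * ‖v‖ := by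
  have hK : 0 ≤ K := (norm_nonneg _).trans ht
  refine (ip_le (a := K) (b := ‖v‖) (fun k => ?_) (fun k => ?_) hK).trans_eq (by ring)
  · exact (norm_le_pi_norm t k).trans ht
  · exact norm_le_pi_norm v k

/-- the conjugate function -/
noncomputable def F (φ : (Fin d → ℝ) → ℝ) (K : ℝ) (v : Fin d → ℝ) : ℝ :=
  ⨆ h : Metric.closedBall (0 : Fin d → ℝ) K, (ip h.1 v - φ h.1)

section

variable {φ : (Fin d → ℝ) → ℝ} {K B : ℝ}

lemma F_bdd (hB : ∀ h, ‖h‖ ≤ K → -B ≤ φ h) (v : Fin d → ℝ) :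
    BddAbove (range fun h : Metric.closedBall (0 : Fin d → ℝ) K => ip h.1 v - φ h.1) := by
  refine ⟨d * K * ‖v‖ + B, ?_⟩
  rintro _ ⟨h, rfl⟩
  have hh : ‖h.1‖ ≤ K := mem_closedBall_zero_iff.1 h.2
  have h1 := ip_le_norm (v := v) hh
  have h2 := hB h.1 hh
  simp only
  linarith

lemma F_ge (hB : ∀ h, ‖h‖ ≤ K → -B ≤ φ h) (v : Fin d → ℝ) {h : Fin d → ℝ} (hh : ‖h‖ ≤ K) :
    ip h v - φ h ≤ F φ K v :=
  le_ciSup (F_bdd hB v) (⟨h, mem_closedBall_zero_iff.2 hh⟩ : Metric.closedBall (0 : Fin d → ℝ) K)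

lemma F_le (hK : 0 ≤ K) {v : Fin d → ℝ} {M : ℝ} (hM : ∀ h, ‖h‖ ≤ K → ip h v - φ h ≤ M) :
    F φ K v ≤ M := by
  have : Nonempty (Metric.closedBall (0 : Fin d → ℝ) K) :=
    ⟨⟨0, mem_closedBall_zero_iff.2 (by simpa using hK)⟩⟩
  exact ciSup_le fun h => hM h.1 (mem_closedBall_zero_iff.1 h.2)

lemma F_convex (hK : 0 ≤ K) (hB : ∀ h, ‖h‖ ≤ K → -B ≤ φ h) : ConvexOn ℝ univ (F φ K) := by
  refine ⟨convex_univ, fun x _ y _ a b ha hb hab => ?_⟩
  apply F_le hK
  intro h hh
  have h1 := F_ge hB x hh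
  have h2 := F_ge hB y hh
  rw [ip_add_right, ip_smul_right, ip_smul_right]
  simp only [smul_eq_mul]
  have h3 := mul_le_mul_of_nonneg_left h1 ha
  have h4 := mul_le_mul_of_nonneg_left h2 hb
  have h5 : φ h = a * φ h + b * φ h := by rw [← add_mul, hab, one_mul]
  nlinarith

lemma F_cont (hK : 0 ≤ K) (hB : ∀ h, ‖h‖ ≤ K → -B ≤ φ h) : Continuous (F φ K) := by
  have hL : LipschitzWith (Real.toNNReal (d * K)) (F φ K) := by
    apply LipschitzWith.of_le_add_mul
    intro x y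
    apply F_le hK
    intro h hh
    have h1 := F_ge hB y hh
    have h2 := ip_le_norm (v := x - y) hh
    rw [ip_sub] at h2
    rw [Real.coe_toNNReal _ (by positivity), dist_eq_norm]
    linarith
  exact hL.continuous

/-- subgradients of `φ` are subgradients of the conjugate -/
lemma F_sub (hK : 0 ≤ K) (hB : ∀ h, ‖h‖ ≤ K → -B ≤ φ h) {h v : Fin d → ℝ}
    (hS : (h, v) ∈ SK φ K) (y : Fin d → ℝ) : F φ K v + ip h (y - v) ≤ F φ K y := by
  obtain ⟨hh, hsub⟩ := hS
  have h1 : F φ K v ≤ ip h v - φ h := by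
    apply F_le hK
    intro h' _
    have := hsub h'
    rw [ip_sub_left] at this
    linarith
  have h2 := F_ge hB y hh
  rw [ip_sub]
  linarith

end

/-- a convex function with parabolic bounds in the coordinate directions -/
lemma para [NeZero d] {f : (Fin d → ℝ) → ℝ} (hf : ConvexOn ℝ univ f) {x ξ : Fin d → ℝ} {A r : ℝ}
    (hA : 0 ≤ A)
    (h : ∀ j, ∀ t : ℝ, |t| ≤ r →
      f (x + t • (Pi.single j (1 : ℝ) : Fin d → ℝ)) ≤ f x + t * ξ j + A * t ^ 2)
    (y : Fin d → ℝ) (hy : d * ‖y‖ ≤ r) :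
    f (x + y) ≤ f x + ip ξ y + A * d ^ 2 * ‖y‖ ^ 2 := by
  have hd : (0 : ℝ) < d := by exact_mod_cast Nat.pos_of_ne_zero (NeZero.ne d)
  have h1 := hf.map_sum_le (t := Finset.univ) (w := fun _ : Fin d => (1 : ℝ) / d)
    (p := fun k => x + (d * y k) • (Pi.single k (1 : ℝ) : Fin d → ℝ))
    (fun _ _ => by positivity) (by simp) (fun _ _ => mem_univ _)
  have e1 : ∑ k : Fin d, ((1 : ℝ) / d) • (x + (d * y k) • (Pi.single k (1 : ℝ) : Fin d → ℝ)) =
      x + y := by
    funext i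
    rw [Finset.sum_apply]
    simp only [Pi.smul_apply, Pi.add_apply, smul_eq_mul]
    have e2 : ∀ k : Fin d, 1 / (d : ℝ) * (x i + d * y k * (Pi.single k (1 : ℝ) : Fin d → ℝ) i) =
        1 / d * x i + y k * (Pi.single k (1 : ℝ) : Fin d → ℝ) i := by
      intro k; field_simp
    simp_rw [e2]
    rw [Finset.sum_add_distrib]
    congr 1
    · simp; field_simp
    · rw [Finset.sum_eq_single i]
      · simp
      · intro k _ hk; rw [Pi.single_eq_of_ne (Ne.symm hk), mul_zero]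
      · intro hi; exact absurd (Finset.mem_univ i) hi
  rw [e1] at h1
  refine h1.trans ?_
  have h2 : ∀ k : Fin d, ((1 : ℝ) / d) • f (x + (d * y k) • (Pi.single k (1 : ℝ) : Fin d → ℝ)) ≤
      1 / d * f x + (ξ k * y k + A * d * ‖y‖ ^ 2) := by
    intro k
    have hyk : |y k| ≤ ‖y‖ := norm_le_pi_norm y k
    have h3 := h k (d * y k) (by
      rw [abs_mul, abs_of_pos hd]
      exact (mul_le_mul_of_nonneg_left hyk hd.le).trans hy)
    have h4 : (y k) ^ 2 ≤ ‖y‖ ^ 2 := by rw [← sq_abs]; exact pow_le_pow_left₀ (abs_nonneg _) hyk 2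
    rw [smul_eq_mul]
    calc 1 / d * f (x + (d * y k) • (Pi.single k (1 : ℝ) : Fin d → ℝ)) ≤
        1 / d * (f x + d * y k * ξ k + A * (d * y k) ^ 2) :=
          mul_le_mul_of_nonneg_left h3 (by positivity)
      _ = 1 / d * f x + (ξ k * y k + A * d * (y k) ^ 2) := by field_simp; ring
      _ ≤ _ := by
          have := mul_le_mul_of_nonneg_left h4 (by positivity : 0 ≤ A * d)
          linarith
  refine (Finset.sum_le_sum fun k _ => h2 k).trans_eq ?_
  rw [Finset.sum_add_distrib, Finset.sum_add_distrib]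
  unfold ip
  simp
  field_simp
  ring

lemma lip_ae [NeZero d] (φ : (Fin d → ℝ) → ℝ) {K B : ℝ} (hK : 0 ≤ K)
    (hB : ∀ h, ‖h‖ ≤ K → -B ≤ φ h) :
    ∀ᵐ v : Fin d → ℝ, ∃ C : ℕ, 1 ≤ C ∧ LipAt (SK φ K) C v := by
  have hdn : 0 < d := Nat.pos_of_ne_zero (NeZero.ne d)
  have hd : (1 : ℝ) ≤ d := by exact_mod_cast hdn
  have hconv := F_convex hK hB
  filter_upwards [ae_slopes hconv (F_cont hK hB)] with v hv
  obtain ⟨ξ, Cq, r, hr, hq⟩ := hv
  set A : ℝ := |Cq| with hA
  have hA0 : 0 ≤ A := abs_nonneg _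
  have hq' : ∀ j, ∀ t : ℝ, |t| ≤ r →
      F φ K (v + t • (Pi.single j (1 : ℝ) : Fin d → ℝ)) ≤ F φ K v + t * ξ j + A * t ^ 2 := by
    intro j t ht
    refine (hq j t ht).trans ?_
    have := mul_le_mul_of_nonneg_right (le_abs_self Cq) (sq_nonneg t)
    linarith
  obtain ⟨C, hC⟩ := exists_nat_gt (4 * (A * d ^ 2) + 2 * d / r + 1)
  have hC0 : (0 : ℝ) < C := lt_of_le_of_lt (by positivity) hC
  have hC1 : 1 ≤ C := by exact_mod_cast hC0
  have hC1' : (1 : ℝ) ≤ C := by exact_mod_cast hC1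
  have hAC : 4 * (A * d ^ 2) ≤ C := by
    have : 0 ≤ 2 * d / r := by positivity
    linarith
  have hrC : 2 * d * (1 / C) ≤ r := by
    have h1 : 2 * d / r ≤ C := by
      have : 0 ≤ 4 * (A * d ^ 2) := by positivity
      linarith
    rw [div_le_iff₀ hr] at h1
    rw [mul_one_div, div_le_iff₀ hC0]
    linarith
  refine ⟨C, hC1, ?_⟩
  intro h h' v' hS hS' hvv k
  -- `h = ξ`
  have hξ : ∀ k, h k = ξ k := by
    intro k
    have h1 : ∀ t : ℝ, |t| ≤ r → t * (h k - ξ k) ≤ A * t ^ 2 := by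
      intro t ht
      have h2 := F_sub hK hB hS (v + t • (Pi.single k (1 : ℝ) : Fin d → ℝ))
      have h3 := hq' k t ht
      rw [add_sub_cancel_left, ip_single] at h2
      linarith
    have key : ∀ a : ℝ, (∀ t : ℝ, 0 < t → t ≤ r → t * a ≤ A * t ^ 2) → a ≤ 0 := by
      intro a ha
      by_contra hcon
      push Not at hcon
      set t := min r (a / (2 * (A + 1))) with ht
      have ht0 : 0 < t := lt_min hr (by positivity)
      have h4 := ha t ht0 (min_le_left _ _)
      have h5 : a ≤ A * t := by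
        have : t * a ≤ t * (A * t) := by linarith [h4, (by ring : t * (A * t) = A * t ^ 2)]
        exact le_of_mul_le_mul_left this ht0
      have h6 : t ≤ a / (2 * (A + 1)) := min_le_right _ _
      rw [le_div_iff₀ (by positivity)] at h6
      nlinarith
    have h7 := key (h k - ξ k) (fun t ht htr => h1 t (by rwa [abs_of_pos ht]))
    have h8 := key (-(h k - ξ k)) (fun t ht htr => by
      have := h1 (-t) (by rwa [abs_neg, abs_of_pos ht])
      nlinarith)
    linarith
  have hipξ : ∀ z, ip ξ z = ip h z := by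
    intro z; unfold ip; exact Finset.sum_congr rfl fun k _ => by rw [hξ k]
  set ρ : ℝ := ‖v' - v‖ with hρ
  have hρ0 : 0 ≤ ρ := norm_nonneg _
  -- comparison in the direction `σ e_k`
  have hcmp : ∀ τ : ℝ, ρ + |τ| ≤ r / d → τ * (h' k - h k) ≤ A * d ^ 2 * (ρ + |τ|) ^ 2 := by
    intro τ hτ
    set z : Fin d → ℝ := τ • (Pi.single k (1 : ℝ) : Fin d → ℝ) with hz
    have hnz : ‖z‖ ≤ |τ| := by
      rw [hz, norm_smul, Real.norm_eq_abs]
      have : ‖(Pi.single k (1 : ℝ) : Fin d → ℝ)‖ ≤ 1 := by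
        rw [pi_norm_le_iff_of_nonneg zero_le_one]
        intro i
        by_cases hik : i = k
        · subst hik; simp
        · rw [Pi.single_eq_of_ne hik]; simp
      calc |τ| * ‖(Pi.single k (1 : ℝ) : Fin d → ℝ)‖ ≤ |τ| * 1 :=
            mul_le_mul_of_nonneg_left this (abs_nonneg _)
        _ = |τ| := mul_one _
    have hny : ‖v' - v + z‖ ≤ ρ + |τ| := (norm_add_le _ _).trans (by linarith)
    have h1 := para hconv hA0 hq' (v' - v + z) (by
      have := mul_le_mul_of_nonneg_left (hny.trans hτ) (by positivity : (0 : ℝ) ≤ d)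
      rwa [mul_div_cancel₀ _ (by positivity : (d : ℝ) ≠ 0)] at this)
    have e1 : v + (v' - v + z) = v' + z := by abel
    rw [e1, hipξ, ip_add_right] at h1
    have h2 := F_sub hK hB hS' (v' + z)
    rw [add_sub_cancel_left] at h2
    have h3 := F_sub hK hB hS v'
    have h4 : ip h' z = τ * h' k := by rw [hz, ip_single]
    have h5 : ip h z = τ * h k := by rw [hz, ip_single]
    have h6 : ‖v' - v + z‖ ^ 2 ≤ (ρ + |τ|) ^ 2 := pow_le_pow_left₀ (norm_nonneg _) hny 2
    have h7 := mul_le_mul_of_nonneg_left h6 (by positivity : 0 ≤ A * (d : ℝ) ^ 2)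
    nlinarith
  have hrd : 2 * ρ ≤ r / d := by
    rw [le_div_iff₀ (by positivity)]
    calc 2 * ρ * d ≤ 2 * (1 / C) * d := by
          apply mul_le_mul_of_nonneg_right _ (by positivity)
          linarith
      _ = 2 * d * (1 / C) := by ring
      _ ≤ r := hrC
  rcases hρ0.eq_or_lt with h0 | h0
  · -- `v' = v`
    rw [← h0, mul_zero]
    apply le_of_eq
    rw [abs_eq_zero]
    have hrd0 : 0 < r / d := by positivity
    have key : ∀ a : ℝ, (∀ t : ℝ, 0 < t → t ≤ r / d → t * a ≤ A * d ^ 2 * t ^ 2) → a ≤ 0 := by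
      intro a ha
      by_contra hcon
      push Not at hcon
      set t := min (r / d) (a / (2 * (A * d ^ 2 + 1))) with ht
      have ht0 : 0 < t := lt_min hrd0 (by positivity)
      have h4 := ha t ht0 (min_le_left _ _)
      have h5 : a ≤ A * d ^ 2 * t := by
        have : t * a ≤ t * (A * d ^ 2 * t) := by
          linarith [h4, (by ring : t * (A * d ^ 2 * t) = A * d ^ 2 * t ^ 2)]
        exact le_of_mul_le_mul_left this ht0
      have h6 : t ≤ a / (2 * (A * d ^ 2 + 1)) := min_le_right _ _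
      rw [le_div_iff₀ (by positivity)] at h6
      nlinarith
    have h7 := key (h' k - h k) (fun t ht htr => by
      have := hcmp t (by rw [← h0, zero_add, abs_of_pos ht]; exact htr)
      rwa [← h0, zero_add, sq_abs] at this)
    have h8 := key (-(h' k - h k)) (fun t ht htr => by
      have := hcmp (-t) (by rw [← h0, zero_add, abs_neg, abs_of_pos ht]; exact htr)
      rw [← h0, zero_add, sq_abs, neg_sq] at this
      linarith)
    linarith
  · have h1 := hcmp ρ (by rw [abs_of_pos h0]; linarith)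
    have h2 := hcmp (-ρ) (by rw [abs_neg, abs_of_pos h0]; linarith)
    rw [abs_of_pos h0] at h1
    rw [abs_neg, abs_of_pos h0] at h2
    have h3 : A * d ^ 2 * (ρ + ρ) ^ 2 ≤ ρ * (C * ρ) := by
      have : A * d ^ 2 * (ρ + ρ) ^ 2 = 4 * (A * d ^ 2) * (ρ * ρ) := by ring
      rw [this]
      nlinarith [mul_pos h0 h0]
    rw [abs_le]
    constructor
    · have : ρ * (-(h' k - h k)) ≤ ρ * (C * ρ) := by linarith
      have := le_of_mul_le_mul_left this h0
      linarith
    · exact le_of_mul_le_mul_left (h1.trans h3) h0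

end Pool.Agent.H97.NS
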