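import Pool.Agent.H97.NS.Drift

/-!
Lebesgue density and confined drifts.
-/

open MeasureTheory ProbabilityTheory TH967.DP Filter Set Matrix
open scoped Topology
open Pool.Agent.K1H38.DP

set_option linter.unusedSectionVars false
set_option autoImplicit false

namespace Pool.Agent.H97.NS

variable {d : ℕ} {Ω : Type*} [MeasurableSpace Ω] {P : Measure Ω} [IsProbabilityMeasure P]
  {ω : ℕ → (Fin d → ℤ) → Ω → ℝ}

/-- the drifts with a nonzero Hessian of a convex function whose polymer has a substantial mass near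
the point given by the gradient form a null set -/
lemma null_drift [NeZero d] (hmeas : ∀ i y, Measurable (ω i y)) (β : ℝ)
    {p : (Fin d → ℝ) → ℝ} (hp : ConvexOn ℝ univ p) {C : ℝ} (hC : 1 ≤ C) {δ : ℝ} (hδ : 0 < δ)
    (k l : Fin d) :
    ∃ ε : ℝ, 0 < ε ∧ ∀ N : ℕ, volume {h : Fin d → ℝ | ∃ (v : Fin d → ℝ)
      (Q : Matrix (Fin d) (Fin d) ℝ), Exp2 p h v Q ∧ Q.IsSymm ∧ 1 / C ≤ |Q k l| ∧
      (∀ i j, |Q i j| ≤ C) ∧ ∀ n : ℕ, N ≤ n → δ ≤ ∫ x, frProb β h (fun i y => ω i y x)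
        (win n v (ε * Real.sqrt n)) ∂P} = 0 := by
  obtain ⟨m, hm⟩ := exists_nat_gt (2 / δ ^ 2)
  have hδ2 : 0 < δ ^ 2 := by positivity
  have hm' : 2 < δ ^ 2 * m := by rwa [div_lt_iff₀' hδ2] at hm
  have hm0 : (0 : ℝ) < m := lt_trans (by positivity) hm
  have hm1 : (1 : ℝ) ≤ m := by
    have : 0 < m := by exact_mod_cast hm0
    exact_mod_cast this
  have hdn : 0 < d := Nat.pos_of_ne_zero (NeZero.ne d)
  have hd : (1 : ℝ) ≤ d := by exact_mod_cast hdn
  have hC0 : 0 < C := by linarith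
  set X : ℝ := 80 * d ^ 2 * C ^ 3 * m ^ 2 with hX
  have hX1 : 1 ≤ X := by
    rw [hX]
    have h1 : (1 : ℝ) ≤ (m : ℝ) ^ 2 := one_le_pow₀ hm1
    have h2 : (1 : ℝ) ≤ (d : ℝ) ^ 2 := one_le_pow₀ hd
    have h3 : (1 : ℝ) ≤ C ^ 3 := one_le_pow₀ hC
    have h4 : (1 : ℝ) ≤ (d : ℝ) ^ 2 * C ^ 3 := by nlinarith
    have h5 : (1 : ℝ) ≤ (d : ℝ) ^ 2 * C ^ 3 * (m : ℝ) ^ 2 := by nlinarith
    linarith
  refine ⟨1 / X, by positivity, fun N => ?_⟩
  set ε : ℝ := 1 / X with hε
  have hε0 : 0 < ε := by rw [hε]; positivity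
  have hXε : X * ε ^ 2 ≤ 1 := by
    have : X * ε ^ 2 = 1 / X := by rw [hε]; field_simp
    rw [this, div_le_one (by linarith)]
    exact hX1
  set G : Set (Fin d → ℝ) := {h : Fin d → ℝ | ∃ (v : Fin d → ℝ)
      (Q : Matrix (Fin d) (Fin d) ℝ), Exp2 p h v Q ∧ Q.IsSymm ∧ 1 / C ≤ |Q k l| ∧
      (∀ i j, |Q i j| ≤ C) ∧ ∀ n : ℕ, N ≤ n → δ ≤ ∫ x, frProb β h (fun i y => ω i y x)
        (win n v (ε * Real.sqrt n)) ∂P} with hG
  by_contra hne
  set ρ : ℝ := 1 / (8 * d * C) with hρ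
  have hρ0 : 0 < ρ := by rw [hρ]; positivity
  have hρ1 : ρ ≤ 1 / 8 := by
    rw [hρ]
    apply one_div_le_one_div_of_le (by norm_num)
    nlinarith
  obtain ⟨x0, hx0, hdens⟩ := dens G hne (4 * C * m / ρ)
  obtain ⟨v0, Q0, hE0, hQs0, hQkl0, hQC0, -⟩ := hx0
  set η : ℝ := 1 / (8 * (4 * C * m + 1)) with hη
  have hη0 : 0 < η := by rw [hη]; positivity
  have hη1 : η ≤ 1 := by
    rw [hη, div_le_one (by positivity)]
    nlinarith [mul_pos hC0 hm0]
  obtain ⟨r0, hr0, hgrad⟩ := grad_exp hE0 hQs0 hC hQC0 hη0 hη1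
  -- points
  let e : Fin d → ℝ := Pi.single l (1 : ℝ)
  have hen : ‖e‖ ≤ 1 := by
    rw [pi_norm_le_iff_of_nonneg zero_le_one]
    intro i
    by_cases hi : i = l
    · subst hi; simp [e]
    · simp [e, Pi.single_eq_of_ne hi]
  let cen : Fin m → ℕ → (Fin d → ℝ) := fun j n =>
    x0 + (4 * C * (j.val + 1) * (ε / Real.sqrt n)) • e
  have hev : ∀ j : Fin m, ∀ᶠ n : ℕ in atTop,
      (G ∩ Metric.closedBall (cen j n) (ρ * (ε / Real.sqrt n))).Nonempty := by
    intro j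
    refine hdens (cen j) (fun n => ρ * (ε / Real.sqrt n)) (tendsto_scale hε0 hρ0) ?_
    filter_upwards [eventually_ge_atTop 1] with n hn
    have hs : (0 : ℝ) < Real.sqrt n := Real.sqrt_pos.2 (by exact_mod_cast hn)
    have hs' : 0 < ε / Real.sqrt n := by positivity
    rw [Metric.mem_closedBall, dist_eq_norm]
    have e1 : x0 - cen j n = -((4 * C * (j.val + 1) * (ε / Real.sqrt n)) • e) := by
      simp only [cen]; abel
    rw [e1, norm_neg, norm_smul, Real.norm_eq_abs, abs_of_nonneg (by positivity)]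
    have hj : ((j.val : ℝ) + 1) ≤ m := by exact_mod_cast j.isLt
    have e2 : 4 * C * m / ρ * (ρ * (ε / Real.sqrt n)) = 4 * C * m * (ε / Real.sqrt n) := by
      field_simp
    rw [e2]
    calc 4 * C * (j.val + 1) * (ε / Real.sqrt n) * ‖e‖ ≤
        4 * C * (j.val + 1) * (ε / Real.sqrt n) * 1 :=
          mul_le_mul_of_nonneg_left hen (by positivity)
      _ ≤ 4 * C * m * (ε / Real.sqrt n) := by
          rw [mul_one]
          apply mul_le_mul_of_nonneg_right _ hs'.le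
          nlinarith
  have hsm : ∀ᶠ n : ℕ in atTop, (4 * C * m + 1) * (ε / Real.sqrt n) ≤ r0 := by
    have h1 := tendsto_scale hε0 (c := 4 * C * m + 1) (by positivity)
    have h2 := (tendsto_nhdsWithin_iff.1 h1).1
    exact (h2.eventually (gt_mem_nhds hr0)).mono fun n hn => le_of_lt hn
  obtain ⟨n, ⟨⟨hn1, hn2⟩, hn3⟩, hn4⟩ := (((eventually_all.2 hev).and (eventually_ge_atTop N)).and
    (eventually_ge_atTop 1) |>.and hsm).exists
  have hs : (0 : ℝ) < Real.sqrt n := Real.sqrt_pos.2 (by exact_mod_cast hn3)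
  have hnn : (n : ℝ) = Real.sqrt n * Real.sqrt n := (Real.mul_self_sqrt (Nat.cast_nonneg n)).symm
  set s : ℝ := ε / Real.sqrt n with hsdef
  have hs0 : 0 < s := by positivity
  have hsε : s * Real.sqrt n = ε := by rw [hsdef]; field_simp
  choose H hH using hn1
  have hHG : ∀ j, H j ∈ G := fun j => (hH j).1
  have hHc : ∀ j, ‖H j - cen j n‖ ≤ ρ * s := by
    intro j
    have h1 := (hH j).2
    rwa [Metric.mem_closedBall, dist_eq_norm] at h1
  choose V Q hEx hQs hQkl hQC hmass using fun j => (show ∃ (v : Fin d → ℝ)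
      (Q : Matrix (Fin d) (Fin d) ℝ), Exp2 p (H j) v Q ∧ Q.IsSymm ∧ 1 / C ≤ |Q k l| ∧
      (∀ i j, |Q i j| ≤ C) ∧ ∀ n : ℕ, N ≤ n → δ ≤ ∫ x, frProb β (H j) (fun i y => ω i y x)
        (win n v (ε * Real.sqrt n)) ∂P from hHG j)
  have hHx : ∀ j, ‖H j - x0‖ ≤ (4 * C * m + 1) * s := by
    intro j
    have e1 : H j - x0 = (H j - cen j n) + (4 * C * (j.val + 1) * s) • e := by
      simp only [cen]; rw [← hsdef]; abel
    rw [e1]
    refine (norm_add_le _ _).trans ?_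
    have h1 := hHc j
    have hj : ((j.val : ℝ) + 1) ≤ m := by exact_mod_cast j.isLt
    have h2 : ‖(4 * C * (j.val + 1) * s) • e‖ ≤ 4 * C * m * s := by
      rw [norm_smul, Real.norm_eq_abs, abs_of_nonneg (by positivity)]
      calc 4 * C * (j.val + 1) * s * ‖e‖ ≤ 4 * C * (j.val + 1) * s * 1 :=
            mul_le_mul_of_nonneg_left hen (by positivity)
        _ ≤ 4 * C * m * s := by
            rw [mul_one]
            apply mul_le_mul_of_nonneg_right _ hs0.le
            nlinarith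
    nlinarith
  have hG2 : ∀ j a, |V j a - v0 a - Q0.mulVec (H j - x0) a| ≤ s / 8 := by
    intro j a
    refine (hgrad (H j) (V j) (exp2_sub hp (hEx j)) ((hHx j).trans hn4) a).trans ?_
    calc η * ‖H j - x0‖ ≤ η * ((4 * C * m + 1) * s) := mul_le_mul_of_nonneg_left (hHx j) hη0.le
      _ = s / 8 := by rw [hη]; field_simp
  have hHH : ∀ i j, ‖H j - H i‖ ≤ 5 * C * m * s := by
    intro i j
    have e1 : H j - H i = (H j - cen j n) - (H i - cen i n) +
        (4 * C * ((j.val : ℝ) - i.val) * s) • e := by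
      simp only [cen]; rw [← hsdef]; module
    rw [e1]
    refine (norm_add_le _ _).trans ?_
    have h0 := norm_sub_le (H j - cen j n) (H i - cen i n)
    have h1 := hHc j
    have h2 := hHc i
    have hj : ((j.val : ℝ) + 1) ≤ m := by exact_mod_cast j.isLt
    have hi : ((i.val : ℝ) + 1) ≤ m := by exact_mod_cast i.isLt
    have hj0 : (0 : ℝ) ≤ j.val := Nat.cast_nonneg _
    have hi0 : (0 : ℝ) ≤ i.val := Nat.cast_nonneg _
    have h4 : |((j.val : ℝ) - i.val)| ≤ m := by rw [abs_le]; constructor <;> linarith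
    have h3 : ‖(4 * C * ((j.val : ℝ) - i.val) * s) • e‖ ≤ 4 * C * m * s := by
      rw [norm_smul, Real.norm_eq_abs, abs_mul, abs_mul, abs_of_pos (by positivity : 0 < 4 * C),
        abs_of_pos hs0]
      calc 4 * C * |((j.val : ℝ) - i.val)| * s * ‖e‖ ≤ 4 * C * |((j.val : ℝ) - i.val)| * s * 1 :=
            mul_le_mul_of_nonneg_left hen (by positivity)
        _ ≤ 4 * C * m * s := by
            rw [mul_one]
            apply mul_le_mul_of_nonneg_right _ hs0.le
            nlinarith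
    have hCm : 1 ≤ C * m := by nlinarith
    nlinarith
  have hHHk : ∀ i j a, |(H j - H i) a| ≤ 5 * C * m * s := fun i j a =>
    (norm_le_pi_norm (H j - H i) a).trans (hHH i j)
  have hVV : ∀ i j a, |(V j - V i) a| ≤ 6 * d * C ^ 2 * m * s := by
    intro i j a
    have h1 := abs_le.1 (hG2 j a)
    have h2 := abs_le.1 (hG2 i a)
    have h3 := abs_le.1 (mulVec_le hQC0 hC0.le (H j - H i) a)
    have e1 : Q0.mulVec (H j - H i) a = Q0.mulVec (H j - x0) a - Q0.mulVec (H i - x0) a := by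
      have e2 : (H j - x0) - (H i - x0) = H j - H i := by abel
      rw [← Pi.sub_apply, ← Matrix.mulVec_sub, e2]
    have h4 : d * C * ‖H j - H i‖ ≤ d * C * (5 * C * m * s) :=
      mul_le_mul_of_nonneg_left (hHH i j) (by positivity)
    have h5 : s / 8 + s / 8 ≤ d * C ^ 2 * m * s := by
      have h6 : (1 : ℝ) ≤ C ^ 2 := one_le_pow₀ hC
      have h7 : (1 : ℝ) ≤ d * C ^ 2 := by nlinarith
      have h8 : (1 : ℝ) ≤ d * C ^ 2 * m := by nlinarith
      nlinarith
    rw [Pi.sub_apply, abs_le]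
    constructor <;> nlinarith
  have hpig := pigeon (P := P) hmeas (n := n) β H V (ε * Real.sqrt n) δ hδ ?_ ?_
    (fun j => hmass j n hn2)
  · linarith
  · intro i j hij
    apply win_disjoint k
    have h1 := abs_le.1 (hG2 j k)
    have h2 := abs_le.1 (hG2 i k)
    have e1 : ∀ j : Fin m, Q0.mulVec (H j - x0) k =
        Q0.mulVec (H j - cen j n) k + 4 * C * (j.val + 1) * s * Q0 k l := by
      intro j
      have e2 : H j - x0 = (H j - cen j n) + (4 * C * (j.val + 1) * s) • e := by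
        simp only [cen]; rw [← hsdef]; abel
      have e3 : Q0.mulVec e k = Q0 k l := by simp [e]
      rw [e2, Matrix.mulVec_add, Matrix.mulVec_smul, Pi.add_apply, Pi.smul_apply, e3, smul_eq_mul]
    have h3 : ∀ j, |Q0.mulVec (H j - cen j n) k| ≤ s / 8 := by
      intro j
      refine (mulVec_le hQC0 hC0.le (H j - cen j n) k).trans ?_
      calc d * C * ‖H j - cen j n‖ ≤ d * C * (ρ * s) :=
            mul_le_mul_of_nonneg_left (hHc j) (by positivity)
        _ = s / 8 := by rw [hρ]; field_simp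
    have h3j := abs_le.1 (h3 j)
    have h3i := abs_le.1 (h3 i)
    have ej := e1 j
    have ei := e1 i
    -- the main term
    have hmain : 4 * s ≤ |4 * C * ((j.val : ℝ) - i.val) * s * Q0 k l| := by
      rw [abs_mul, abs_mul, abs_mul, abs_of_pos (by positivity : 0 < 4 * C), abs_of_pos hs0]
      have hne' : j.val ≠ i.val := fun h => hij (Fin.ext h.symm)
      have h4 : 1 ≤ |((j.val : ℝ) - i.val)| := by
        rcases lt_or_gt_of_ne hne' with hlt | hlt
        · have : (j.val : ℝ) + 1 ≤ i.val := by exact_mod_cast hlt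
          rw [abs_of_nonpos (by linarith)]; linarith
        · have : (i.val : ℝ) + 1 ≤ j.val := by exact_mod_cast hlt
          rw [abs_of_nonneg (by linarith)]; linarith
      have h5 : 1 ≤ C * |Q0 k l| := by
        rw [div_le_iff₀ hC0] at hQkl0; linarith
      calc 4 * s = 4 * (1 * 1) * s := by ring
        _ ≤ 4 * (|((j.val : ℝ) - i.val)| * (C * |Q0 k l|)) * s := by
            apply mul_le_mul_of_nonneg_right _ hs0.le
            apply mul_le_mul_of_nonneg_left _ (by norm_num)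
            exact mul_le_mul h4 h5 zero_le_one (by positivity)
        _ = _ := by ring
    have hdiff : |V j k - V i k - 4 * C * ((j.val : ℝ) - i.val) * s * Q0 k l| ≤ s / 2 := by
      rw [abs_le]; constructor <;> nlinarith
    have h6 : 3 * s ≤ |V j k - V i k| := by
      have := abs_sub_abs_le_abs_sub (4 * C * ((j.val : ℝ) - i.val) * s * Q0 k l) (V j k - V i k)
      rw [abs_sub_comm (4 * C * ((j.val : ℝ) - i.val) * s * Q0 k l) (V j k - V i k)] at this
      linarith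
    have h8 : (n : ℝ) * (3 * s) = 3 * (ε * Real.sqrt n) := by
      calc (n : ℝ) * (3 * s) = 3 * (s * Real.sqrt n) * Real.sqrt n := by
            nth_rewrite 1 [hnn]; ring
        _ = 3 * (ε * Real.sqrt n) := by rw [hsε]; ring
    have h9 : (n : ℝ) * (3 * s) ≤ n * |V j k - V i k| :=
      mul_le_mul_of_nonneg_left h6 (Nat.cast_nonneg n)
    have h10 : 0 < ε * Real.sqrt n := by positivity
    linarith
  · intro i j
    have h1 : ip (H j - H i) (V j - V i) ≤ d * ((5 * C * m * s) * (6 * d * C ^ 2 * m * s)) :=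
      ip_le (hHHk i j) (hVV i j) (by positivity)
    have h2 : l1 (H j - H i) ≤ d * (5 * C * m * s) := l1_le (hHHk i j)
    have h3 : (n : ℝ) * ip (H j - H i) (V j - V i) ≤ 30 * d ^ 2 * C ^ 3 * m ^ 2 * ε ^ 2 := by
      calc (n : ℝ) * ip (H j - H i) (V j - V i) ≤
          n * (d * ((5 * C * m * s) * (6 * d * C ^ 2 * m * s))) :=
            mul_le_mul_of_nonneg_left h1 (Nat.cast_nonneg n)
        _ = 30 * d ^ 2 * C ^ 3 * m ^ 2 * (s * Real.sqrt n) ^ 2 := by
            nth_rewrite 1 [hnn]; ring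
        _ = _ := by rw [hsε]
    have h4 : 2 * l1 (H j - H i) * (ε * Real.sqrt n) ≤ 10 * C * d * m * ε ^ 2 := by
      calc 2 * l1 (H j - H i) * (ε * Real.sqrt n) ≤
          2 * (d * (5 * C * m * s)) * (ε * Real.sqrt n) := by
            apply mul_le_mul_of_nonneg_right _ (by positivity)
            linarith
        _ = 10 * C * d * m * ε * (s * Real.sqrt n) := by ring
        _ = _ := by rw [hsε]; ring
    have h5 : 10 * C * d * m * ε ^ 2 ≤ 10 * d ^ 2 * C ^ 3 * m ^ 2 * ε ^ 2 := by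
      have a1 : (m : ℝ) ≤ m ^ 2 := by nlinarith
      have a2 : (d : ℝ) ≤ d ^ 2 := by nlinarith
      have a3 : C ≤ C ^ 3 := by nlinarith [sq_nonneg (C - 1), mul_nonneg (by linarith : 0 ≤ C - 1) (by nlinarith : 0 ≤ C ^ 2 + C)]
      have a4 : C * d * m ≤ C ^ 3 * d ^ 2 * m ^ 2 :=
        mul_le_mul (mul_le_mul a3 a2 (by linarith) (by positivity)) a1 hm0.le (by positivity)
      have a5 : 0 ≤ 10 * ε ^ 2 := by positivity
      nlinarith [mul_le_mul_of_nonneg_left a4 a5]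
    have h8 : 30 * d ^ 2 * C ^ 3 * m ^ 2 * ε ^ 2 + 10 * d ^ 2 * C ^ 3 * m ^ 2 * ε ^ 2 =
        X * ε ^ 2 / 2 := by
      rw [hX]; ring
    linarith

/-- almost every drift with a nonzero Hessian -/
theorem drift_ae [NeZero d] (hmeas : ∀ i y, Measurable (ω i y)) (β : ℝ)
    {p : (Fin d → ℝ) → ℝ} (hp : ConvexOn ℝ univ p) :
    ∀ᵐ h : Fin d → ℝ, ∀ (v : Fin d → ℝ) (Q : Matrix (Fin d) (Fin d) ℝ), Exp2 p h v Q →
      Q.IsSymm → Q ≠ 0 → ∀ δ : ℝ, 0 < δ → ∃ ε : ℝ, 0 < ε ∧ ∃ᶠ n : ℕ in atTop,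
        ∫ x, frProb β h (fun i y => ω i y x) (win n v (ε * Real.sqrt n)) ∂P < δ := by
  have hnull : ∀ (C q : ℕ) (k l : Fin d), 1 ≤ C → ∃ ε : ℝ, 0 < ε ∧ ∀ N : ℕ,
      volume {h : Fin d → ℝ | ∃ (v : Fin d → ℝ)
      (Q : Matrix (Fin d) (Fin d) ℝ), Exp2 p h v Q ∧ Q.IsSymm ∧ 1 / (C : ℝ) ≤ |Q k l| ∧
      (∀ i j, |Q i j| ≤ C) ∧ ∀ n : ℕ, N ≤ n → 1 / ((q : ℝ) + 1) ≤
        ∫ x, frProb β h (fun i y => ω i y x) (win n v (ε * Real.sqrt n)) ∂P} = 0 := by
    intro C q k l hC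
    exact null_drift hmeas β hp (by exact_mod_cast hC) (by positivity) k l
  choose! ε hε hnull using hnull
  rw [ae_iff]
  refine measure_mono_null (t := ⋃ C : ℕ, ⋃ q : ℕ, ⋃ k : Fin d, ⋃ l : Fin d, ⋃ (_ : 1 ≤ C),
    ⋃ N : ℕ, {h : Fin d → ℝ | ∃ (v : Fin d → ℝ)
      (Q : Matrix (Fin d) (Fin d) ℝ), Exp2 p h v Q ∧ Q.IsSymm ∧ 1 / (C : ℝ) ≤ |Q k l| ∧
      (∀ i j, |Q i j| ≤ C) ∧ ∀ n : ℕ, N ≤ n → 1 / ((q : ℝ) + 1) ≤
        ∫ x, frProb β h (fun i y => ω i y x) (win n v (ε C q k l * Real.sqrt n)) ∂P}) ?_ ?_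
  · intro h hh
    have hh' : ¬ ∀ (v : Fin d → ℝ) (Q : Matrix (Fin d) (Fin d) ℝ), Exp2 p h v Q →
      Q.IsSymm → Q ≠ 0 → ∀ δ : ℝ, 0 < δ → ∃ ε : ℝ, 0 < ε ∧ ∃ᶠ n : ℕ in atTop,
        ∫ x, frProb β h (fun i y => ω i y x) (win n v (ε * Real.sqrt n)) ∂P < δ := hh
    push Not at hh'
    obtain ⟨v, Q, hE, hQs, hQ0, δ, hδ, hcon⟩ := hh'
    obtain ⟨k, l, hkl⟩ : ∃ k l, Q k l ≠ 0 := by
      by_contra hc
      push Not at hc
      apply hQ0
      ext i j
      exact hc i j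
    obtain ⟨C, hC⟩ := exists_nat_gt (1 / |Q k l| + ∑ i, ∑ j, |Q i j| + 1)
    have hkl' : 0 < |Q k l| := abs_pos.2 hkl
    have hsum0 : 0 ≤ ∑ i, ∑ j, |Q i j| :=
      Finset.sum_nonneg fun i _ => Finset.sum_nonneg fun j _ => abs_nonneg _
    have hinv : 0 < 1 / |Q k l| := by positivity
    have hC0 : (0 : ℝ) < C := by linarith
    have hC1 : 1 ≤ C := by exact_mod_cast hC0
    obtain ⟨q, hq⟩ := exists_nat_one_div_lt hδ
    have hev := hcon (ε C q k l) (hε C q k l hC1)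
    obtain ⟨N, hN⟩ := eventually_atTop.1 hev
    simp only [mem_iUnion]
    refine ⟨C, q, k, l, hC1, N, v, Q, hE, hQs, ?_, ?_, fun n hn => hq.le.trans (hN n hn)⟩
    · rw [div_le_iff₀ hC0]
      have h1 : 1 / |Q k l| ≤ C := by linarith
      rw [div_le_iff₀ hkl'] at h1
      linarith
    · intro i j
      have h1 : |Q i j| ≤ ∑ j, |Q i j| :=
        Finset.single_le_sum (f := fun j => |Q i j|) (fun _ _ => abs_nonneg _) (Finset.mem_univ j)
      have h2 : ∑ j, |Q i j| ≤ ∑ i, ∑ j, |Q i j| :=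
        Finset.single_le_sum (f := fun i => ∑ j, |Q i j|)
          (fun i _ => Finset.sum_nonneg fun j _ => abs_nonneg _) (Finset.mem_univ i)
      linarith
  · rw [measure_iUnion_null_iff]; intro C
    rw [measure_iUnion_null_iff]; intro q
    rw [measure_iUnion_null_iff]; intro k
    rw [measure_iUnion_null_iff]; intro l
    rw [measure_iUnion_null_iff]; intro hC
    rw [measure_iUnion_null_iff]; intro N
    exact hnull C q k l hC N

end Pool.Agent.H97.NS
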