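import Pool.Agent.H97.NS.Det

/-!
Lebesgue density and confined slopes.
-/

open MeasureTheory ProbabilityTheory TH967.DP Filter Set
open scoped Topology
open Pool.Agent.K1H38.DP

set_option linter.unusedSectionVars false
set_option autoImplicit false

namespace Pool.Agent.H97.NS

variable {d : ℕ}

/-- density points of an arbitrary set -/
lemma dens (S : Set (Fin d → ℝ)) (hS : volume S ≠ 0) (K : ℝ) : ∃ x ∈ S,
    ∀ (w : ℕ → (Fin d → ℝ)) (r : ℕ → ℝ), Tendsto r atTop (𝓝[>] 0) →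
      (∀ᶠ j in atTop, x ∈ Metric.closedBall (w j) (K * r j)) →
      ∀ᶠ j in atTop, (S ∩ Metric.closedBall (w j) (r j)).Nonempty := by
  have h := IsUnifLocDoublingMeasure.ae_tendsto_measure_inter_div
    (μ := (volume : Measure (Fin d → ℝ))) S K
  by_contra hcon
  push Not at hcon
  apply hS
  rw [← Measure.restrict_apply_self volume S]
  rw [ae_iff] at h
  refine measure_mono_null ?_ h
  intro x hx
  obtain ⟨w, r, hr, hw, hne⟩ := hcon x hx
  show ¬ _
  intro hprop
  have h1 := hprop w r hr hw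
  apply hne
  have h2 : ∀ᶠ j in atTop, (1 / 2 : ENNReal) < volume (S ∩ Metric.closedBall (w j) (r j)) /
      volume (Metric.closedBall (w j) (r j)) := by
    apply h1.eventually
    apply lt_mem_nhds
    exact ENNReal.half_lt_self one_ne_zero ENNReal.one_ne_top
  filter_upwards [h2] with j hj
  intro hemp
  rw [hemp] at hj
  simp at hj

/-- `v ↦ h` is Lipschitz at `v` on the set `S` of pairs `(h, v)`. -/
def LipAt (S : Set ((Fin d → ℝ) × (Fin d → ℝ))) (C : ℝ) (v : Fin d → ℝ) : Prop :=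
  ∀ h h' v' : Fin d → ℝ, (h, v) ∈ S → (h', v') ∈ S → ‖v' - v‖ ≤ 1 / C →
    ∀ k, |h' k - h k| ≤ C * ‖v' - v‖

lemma ip_le {t v : Fin d → ℝ} {a b : ℝ} (ha : ∀ k, |t k| ≤ a) (hb : ∀ k, |v k| ≤ b) (ha0 : 0 ≤ a) :
    ip t v ≤ d * (a * b) := by
  unfold ip
  calc ∑ k, t k * v k ≤ ∑ _k : Fin d, a * b := Finset.sum_le_sum fun k _ => by
        refine (le_abs_self _).trans ?_
        rw [abs_mul]
        exact mul_le_mul (ha k) (hb k) (abs_nonneg _) ha0
    _ = d * (a * b) := by simp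

lemma l1_le {t : Fin d → ℝ} {a : ℝ} (ha : ∀ k, |t k| ≤ a) : l1 t ≤ d * a := by
  unfold l1
  calc ∑ k, |t k| ≤ ∑ _k : Fin d, a := Finset.sum_le_sum fun k _ => ha k
    _ = d * a := by simp

variable {Ω : Type*} [MeasurableSpace Ω] {P : Measure Ω} [IsProbabilityMeasure P]
  {ω : ℕ → (Fin d → ℤ) → Ω → ℝ}

lemma tendsto_scale {ε : ℝ} (hε : 0 < ε) {c : ℝ} (hc : 0 < c) :
    Tendsto (fun n : ℕ => c * (ε / Real.sqrt n)) atTop (𝓝[>] 0) := by
  have h1 : Tendsto (fun n : ℕ => Real.sqrt n) atTop atTop :=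
    Real.tendsto_sqrt_atTop.comp tendsto_natCast_atTop_atTop
  have h2 : Tendsto (fun n : ℕ => ε / Real.sqrt n) atTop (𝓝 0) := h1.const_div_atTop ε
  have h3 := h2.const_mul c
  rw [mul_zero] at h3
  rw [tendsto_nhdsWithin_iff]
  refine ⟨h3, ?_⟩
  filter_upwards [eventually_ge_atTop 1] with n hn
  have : (0 : ℝ) < Real.sqrt n := Real.sqrt_pos.2 (by exact_mod_cast hn)
  simp only [Set.mem_Ioi]
  positivity

/-- the slopes with confined drifts, at which the drift is Lipschitz, form a null set -/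
lemma null_core [NeZero d] (hmeas : ∀ i y, Measurable (ω i y)) (β : ℝ)
    (S : Set ((Fin d → ℝ) × (Fin d → ℝ))) {C : ℝ} (hC : 1 ≤ C) {δ : ℝ} (hδ : 0 < δ) :
    ∃ ε : ℝ, 0 < ε ∧ ∀ N : ℕ, volume {v : Fin d → ℝ | LipAt S C v ∧ ∃ h, (h, v) ∈ S ∧
      ∀ n : ℕ, N ≤ n → δ ≤ ∫ x, frProb β h (fun i y => ω i y x)
        (win n v (ε * Real.sqrt n)) ∂P} = 0 := by
  obtain ⟨m, hm⟩ := exists_nat_gt (2 / δ ^ 2)
  have hδ2 : 0 < δ ^ 2 := by positivity
  have hm' : 2 < δ ^ 2 * m := by rwa [div_lt_iff₀' hδ2] at hm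
  have hm0 : (0 : ℝ) < m := lt_trans (by positivity) hm
  have hm1 : (1 : ℝ) ≤ m := by
    have : 0 < m := by exact_mod_cast hm0
    exact_mod_cast this
  have hdn : 0 < d := Nat.pos_of_ne_zero (NeZero.ne d)
  have hd : (1 : ℝ) ≤ d := by exact_mod_cast hdn
  set X : ℝ := 70 * C * d * m ^ 2 with hX
  have hX1 : 1 ≤ X := by
    rw [hX]
    have h1 : (1 : ℝ) ≤ (m : ℝ) ^ 2 := one_le_pow₀ hm1
    have h2 : (1 : ℝ) ≤ C * d := by nlinarith
    nlinarith [mul_nonneg (by linarith : (0 : ℝ) ≤ C * d - 1) (by linarith : (0 : ℝ) ≤ (m : ℝ) ^ 2 - 1)]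
  refine ⟨1 / X, by positivity, fun N => ?_⟩
  set ε : ℝ := 1 / X with hε
  have hε0 : 0 < ε := by rw [hε]; positivity
  have hXε : X * ε ^ 2 ≤ 1 := by
    have : X * ε ^ 2 = 1 / X := by rw [hε]; field_simp
    rw [this, div_le_one (by linarith)]
    exact hX1
  set G : Set (Fin d → ℝ) := {v : Fin d → ℝ | LipAt S C v ∧ ∃ h, (h, v) ∈ S ∧
      ∀ n : ℕ, N ≤ n → δ ≤ ∫ x, frProb β h (fun i y => ω i y x)
        (win n v (ε * Real.sqrt n)) ∂P} with hG
  by_contra hne
  obtain ⟨x0, hx0, hdens⟩ := dens G hne (8 * m)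
  -- points
  let cen : Fin m → ℕ → (Fin d → ℝ) := fun j n k => x0 k + 4 * (j.val + 1) * (ε / Real.sqrt n)
  have hev : ∀ j : Fin m, ∀ᶠ n : ℕ in atTop,
      (G ∩ Metric.closedBall (cen j n) (1 / 2 * (ε / Real.sqrt n))).Nonempty := by
    intro j
    refine hdens (cen j) (fun n => 1 / 2 * (ε / Real.sqrt n)) (tendsto_scale hε0 (by norm_num)) ?_
    filter_upwards [eventually_ge_atTop 1] with n hn
    have hs : (0 : ℝ) < Real.sqrt n := Real.sqrt_pos.2 (by exact_mod_cast hn)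
    have hs' : 0 < ε / Real.sqrt n := by positivity
    rw [Metric.mem_closedBall, dist_pi_le_iff (by positivity)]
    intro k
    rw [Real.dist_eq]
    have e : x0 k - cen j n k = -(4 * (j.val + 1) * (ε / Real.sqrt n)) := by simp [cen]
    rw [e, abs_neg, abs_of_nonneg (by positivity)]
    have hj : ((j.val : ℝ) + 1) ≤ m := by exact_mod_cast j.isLt
    nlinarith [mul_nonneg (by linarith : (0 : ℝ) ≤ m - (j.val + 1)) hs'.le]
  have hsm : ∀ᶠ n : ℕ in atTop, 5 * m * (ε / Real.sqrt n) ≤ 1 / C := by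
    have h1 := tendsto_scale hε0 (c := 5 * m) (by positivity)
    have h2 := (tendsto_nhdsWithin_iff.1 h1).1
    exact (h2.eventually (gt_mem_nhds (by positivity : (0 : ℝ) < 1 / C))).mono fun n hn => le_of_lt hn
  obtain ⟨n, ⟨⟨hn1, hn2⟩, hn3⟩, hn4⟩ := (((eventually_all.2 hev).and (eventually_ge_atTop N)).and
    (eventually_ge_atTop 1) |>.and hsm).exists
  have hs : (0 : ℝ) < Real.sqrt n := Real.sqrt_pos.2 (by exact_mod_cast hn3)
  have hnn : (n : ℝ) = Real.sqrt n * Real.sqrt n := (Real.mul_self_sqrt (Nat.cast_nonneg n)).symm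
  set s : ℝ := ε / Real.sqrt n with hsdef
  have hs0 : 0 < s := by positivity
  have hsε : s * Real.sqrt n = ε := by rw [hsdef]; field_simp
  choose V hV using hn1
  have hVG : ∀ j, V j ∈ G := fun j => (hV j).1
  have hVc : ∀ j k, |V j k - cen j n k| ≤ 1 / 2 * s := by
    intro j k
    have h1 := (hV j).2
    rw [Metric.mem_closedBall, dist_pi_le_iff (by positivity)] at h1
    exact h1 k
  choose hL H hH using fun j => (show LipAt S C (V j) ∧ ∃ h, (h, V j) ∈ S ∧
      ∀ n : ℕ, N ≤ n → δ ≤ ∫ x, frProb β h (fun i y => ω i y x)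
        (win n (V j) (ε * Real.sqrt n)) ∂P from hVG j)
  have hcen : ∀ i j k, cen j n k - cen i n k = 4 * ((j.val : ℝ) - i.val) * s := by
    intro i j k; simp only [cen]; rw [← hsdef]; ring
  have hVV : ∀ i j k, |V j k - V i k| ≤ 5 * m * s := by
    intro i j k
    have h1 := abs_le.1 (hVc j k)
    have h2 := abs_le.1 (hVc i k)
    have h3 := hcen i j k
    have hj : ((j.val : ℝ) + 1) ≤ m := by exact_mod_cast j.isLt
    have hi : ((i.val : ℝ) + 1) ≤ m := by exact_mod_cast i.isLt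
    have hj0 : (0 : ℝ) ≤ j.val := Nat.cast_nonneg _
    have hi0 : (0 : ℝ) ≤ i.val := Nat.cast_nonneg _
    have h4 : |((j.val : ℝ) - i.val)| ≤ m - 1 := by rw [abs_le]; constructor <;> linarith
    have h5 := abs_le.1 h4
    rw [abs_le]
    constructor <;> nlinarith
  have hnorm : ∀ i j, ‖V j - V i‖ ≤ 5 * m * s := by
    intro i j
    rw [pi_norm_le_iff_of_nonneg (by positivity)]
    intro k
    rw [Real.norm_eq_abs]
    exact hVV i j k
  have hHH : ∀ i j k, |(H j - H i) k| ≤ C * (5 * m * s) := by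
    intro i j k
    refine (hL i (H i) (H j) (V j) (hH i).1 (hH j).1 ((hnorm i j).trans hn4) k).trans ?_
    exact mul_le_mul_of_nonneg_left (hnorm i j) (by linarith)
  have hpig := pigeon (P := P) hmeas (n := n) β H V (ε * Real.sqrt n) δ hδ ?_ ?_
    (fun j => (hH j).2 n hn2)
  · linarith
  · intro i j hij
    apply win_disjoint (0 : Fin d)
    have h1 := abs_le.1 (hVc j 0)
    have h2 := abs_le.1 (hVc i 0)
    have h3 := hcen i j 0
    have h6 : 3 * s ≤ |V j 0 - V i 0| := by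
      have hne' : j.val ≠ i.val := fun h => hij (Fin.ext h.symm)
      rcases lt_or_gt_of_ne hne' with hlt | hlt
      · have : (j.val : ℝ) + 1 ≤ i.val := by exact_mod_cast hlt
        have h7 : V j 0 - V i 0 ≤ -(3 * s) := by nlinarith
        rw [abs_of_nonpos (by linarith)]; linarith
      · have : (i.val : ℝ) + 1 ≤ j.val := by exact_mod_cast hlt
        have h7 : 3 * s ≤ V j 0 - V i 0 := by nlinarith
        rw [abs_of_nonneg (by linarith)]; exact h7
    have h8 : (n : ℝ) * (3 * s) = 3 * (ε * Real.sqrt n) := by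
      calc (n : ℝ) * (3 * s) = 3 * (s * Real.sqrt n) * Real.sqrt n := by
            nth_rewrite 1 [hnn]; ring
        _ = 3 * (ε * Real.sqrt n) := by rw [hsε]; ring
    have h9 : (n : ℝ) * (3 * s) ≤ n * |V j 0 - V i 0| :=
      mul_le_mul_of_nonneg_left h6 (Nat.cast_nonneg n)
    have h10 : 0 < ε * Real.sqrt n := by positivity
    linarith
  · intro i j
    have h1 : ip (H j - H i) (V j - V i) ≤ d * ((C * (5 * m * s)) * (5 * m * s)) :=
      ip_le (hHH i j) (fun k => hVV i j k) (by positivity)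
    have h2 : l1 (H j - H i) ≤ d * (C * (5 * m * s)) := l1_le (hHH i j)
    have h3 : (n : ℝ) * ip (H j - H i) (V j - V i) ≤ 25 * C * d * m ^ 2 * ε ^ 2 := by
      calc (n : ℝ) * ip (H j - H i) (V j - V i) ≤
          n * (d * ((C * (5 * m * s)) * (5 * m * s))) :=
            mul_le_mul_of_nonneg_left h1 (Nat.cast_nonneg n)
        _ = 25 * C * d * m ^ 2 * (s * Real.sqrt n) ^ 2 := by
            nth_rewrite 1 [hnn]; ring
        _ = _ := by rw [hsε]
    have h4 : 2 * l1 (H j - H i) * (ε * Real.sqrt n) ≤ 10 * C * d * m * ε ^ 2 := by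
      calc 2 * l1 (H j - H i) * (ε * Real.sqrt n) ≤
          2 * (d * (C * (5 * m * s))) * (ε * Real.sqrt n) := by
            apply mul_le_mul_of_nonneg_right _ (by positivity)
            linarith
        _ = 10 * C * d * m * ε * (s * Real.sqrt n) := by ring
        _ = _ := by rw [hsε]; ring
    have h5 : 10 * C * d * m * ε ^ 2 ≤ 10 * C * d * m ^ 2 * ε ^ 2 := by
      have h6 : (m : ℝ) ≤ m ^ 2 := by nlinarith
      have h7 : 0 ≤ 10 * C * d * ε ^ 2 := by positivity
      nlinarith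
    have h8 : 25 * C * d * m ^ 2 * ε ^ 2 + 10 * C * d * m ^ 2 * ε ^ 2 = X * ε ^ 2 / 2 := by
      rw [hX]; ring
    linarith

end Pool.Agent.H97.NS
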