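import Pool.Graph.R_pool_sql_team_seeded_efc1946e.K1H38.DP.Main

/-!
Directed polymers: comparison of the polymer measures of several drifts, for one environment.
-/

open MeasureTheory ProbabilityTheory TH967.DP Filter Set
open scoped Topology
open Pool.Agent.K1H38.DP

set_option linter.unusedSectionVars false
set_option autoImplicit false

namespace Pool.Agent.H97.NS

variable {d : ℕ}

/-- scalar product -/
noncomputable def ip (t v : Fin d → ℝ) : ℝ := ∑ k, t k * v k

/-- the `ℓ^1` norm -/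
noncomputable def l1 (t : Fin d → ℝ) : ℝ := ∑ k, |t k|

/-- the walks of `n` steps with all coordinates of `S_n - n v` at most `R` -/
def win (n : ℕ) (v : Fin d → ℝ) (R : ℝ) : Set (Fin n → Step d) :=
  {w | ∀ k, |(pos w n k : ℝ) - n * v k| ≤ R}

lemma l1_nonneg (t : Fin d → ℝ) : 0 ≤ l1 t := Finset.sum_nonneg fun _ _ => abs_nonneg _

lemma dot_win {n : ℕ} {v : Fin d → ℝ} {R : ℝ} {w : Fin n → Step d} (hw : w ∈ win n v R)
    (t : Fin d → ℝ) : |dot t (pos w n) - n * ip t v| ≤ l1 t * R := by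
  unfold dot ip l1
  rw [Finset.mul_sum, ← Finset.sum_sub_distrib, Finset.sum_mul]
  refine (Finset.abs_sum_le_sum_abs _ _).trans (Finset.sum_le_sum fun k _ => ?_)
  have e : t k * (pos w n k : ℝ) - n * (t k * v k) = t k * ((pos w n k : ℝ) - n * v k) := by ring
  rw [e, abs_mul]
  exact mul_le_mul_of_nonneg_left (hw k) (abs_nonneg _)

/-- the mass of a set of walks -/
noncomputable def mass {n : ℕ} (β : ℝ) (h : Fin d → ℝ) (η : ℕ → (Fin d → ℤ) → ℝ)
    (A : Set (Fin n → Step d)) : ℝ := ∑ w : Fin n → Step d, A.indicator (wgt β h η) w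

lemma frProb_eq {n : ℕ} (β : ℝ) (h : Fin d → ℝ) (η : ℕ → (Fin d → ℤ) → ℝ)
    (A : Set (Fin n → Step d)) : frProb β h η A = mass β h η A / Zd β h η n := rfl

lemma mass_nonneg {n : ℕ} (β : ℝ) (h : Fin d → ℝ) (η : ℕ → (Fin d → ℤ) → ℝ)
    (A : Set (Fin n → Step d)) : 0 ≤ mass β h η A :=
  Finset.sum_nonneg fun _ _ => indicator_nonneg (fun _ _ => (wgt_pos _ _ _ _).le) _

lemma mass_le {n : ℕ} (β : ℝ) (h : Fin d → ℝ) (η : ℕ → (Fin d → ℤ) → ℝ)
    (A : Set (Fin n → Step d)) : mass β h η A ≤ Zd β h η n :=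
  Finset.sum_le_sum fun w _ => indicator_le_self' (fun _ _ => (wgt_pos _ _ _ _).le) w

lemma frProb_nonneg' [NeZero d] {n : ℕ} (β : ℝ) (h : Fin d → ℝ) (η : ℕ → (Fin d → ℤ) → ℝ)
    (A : Set (Fin n → Step d)) : 0 ≤ frProb β h η A :=
  div_nonneg (mass_nonneg _ _ _ _) (Zd_pos _ _ _ _).le

lemma frProb_le_one' [NeZero d] {n : ℕ} (β : ℝ) (h : Fin d → ℝ) (η : ℕ → (Fin d → ℤ) → ℝ)
    (A : Set (Fin n → Step d)) : frProb β h η A ≤ 1 :=
  (div_le_one (Zd_pos _ _ _ _)).2 (mass_le _ _ _ _)

lemma wgt_tilt {n : ℕ} (β : ℝ) (h t : Fin d → ℝ) (η : ℕ → (Fin d → ℤ) → ℝ)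
    (w : Fin n → Step d) : wgt β (h + t) η w = Real.exp (dot t (pos w n)) * wgt β h η w := by
  unfold wgt
  rw [← Real.exp_add, dot_add_left]
  congr 1; ring

lemma mass_tilt_ge {n : ℕ} (β : ℝ) (h t v : Fin d → ℝ) (η : ℕ → (Fin d → ℤ) → ℝ) (R : ℝ) :
    Real.exp (n * ip t v - l1 t * R) * mass β h η (win n v R) ≤
      mass β (h + t) η (win n v R) := by
  unfold mass
  rw [Finset.mul_sum]
  refine Finset.sum_le_sum fun w _ => ?_
  by_cases hw : w ∈ win n v R
  · rw [indicator_of_mem hw, indicator_of_mem hw, wgt_tilt]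
    refine mul_le_mul_of_nonneg_right (Real.exp_le_exp.2 ?_) (wgt_pos _ _ _ _).le
    have := (abs_le.1 (dot_win hw t)).1
    linarith
  · rw [indicator_of_notMem hw, indicator_of_notMem hw, mul_zero]

lemma mass_tilt_le {n : ℕ} (β : ℝ) (h t v : Fin d → ℝ) (η : ℕ → (Fin d → ℤ) → ℝ) (R : ℝ) :
    mass β (h + t) η (win n v R) ≤
      Real.exp (n * ip t v + l1 t * R) * mass β h η (win n v R) := by
  unfold mass
  rw [Finset.mul_sum]
  refine Finset.sum_le_sum fun w _ => ?_
  by_cases hw : w ∈ win n v R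
  · rw [indicator_of_mem hw, indicator_of_mem hw, wgt_tilt]
    refine mul_le_mul_of_nonneg_right (Real.exp_le_exp.2 ?_) (wgt_pos _ _ _ _).le
    have := (abs_le.1 (dot_win hw t)).2
    linarith
  · rw [indicator_of_notMem hw, indicator_of_notMem hw, mul_zero]

lemma ip_sub (t v v' : Fin d → ℝ) : ip t (v - v') = ip t v - ip t v' := by
  unfold ip
  rw [← Finset.sum_sub_distrib]
  exact Finset.sum_congr rfl fun k _ => by simp [mul_sub]

/-- two drifts, one environment -/
lemma two_drifts [NeZero d] {n : ℕ} (β : ℝ) (η : ℕ → (Fin d → ℤ) → ℝ) (h h' v v' : Fin d → ℝ)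
    (R c : ℝ) (hc : n * ip (h' - h) (v' - v) + 2 * l1 (h' - h) * R ≤ c) :
    frProb β h η (win n v R) * frProb β h' η (win n v' R) ≤
      Real.exp c * frProb β h η (win n v' R) := by
  have hZ := Zd_pos β h η n
  have hZ' := Zd_pos β h' η n
  have e : h' = h + (h' - h) := by abel
  set t := h' - h with ht
  have h1 : mass β h' η (win n v' R) ≤
      Real.exp (n * ip t v' + l1 t * R) * mass β h η (win n v' R) := by
    rw [e]; exact mass_tilt_le β h t v' η R
  have h2 : Real.exp (n * ip t v - l1 t * R) * mass β h η (win n v R) ≤ Zd β h' η n := by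
    refine le_trans ?_ (mass_le β h' η (win n v R))
    rw [e]; exact mass_tilt_ge β h t v η R
  rw [frProb_eq, frProb_eq, frProb_eq, div_mul_div_comm, div_le_iff₀ (mul_pos hZ hZ')]
  have h3 : mass β h η (win n v R) ≤ Real.exp (-(n * ip t v - l1 t * R)) * Zd β h' η n := by
    rw [Real.exp_neg, ← div_eq_inv_mul, le_div_iff₀' (Real.exp_pos _)]
    exact h2
  calc mass β h η (win n v R) * mass β h' η (win n v' R)
      ≤ (Real.exp (-(n * ip t v - l1 t * R)) * Zd β h' η n) *
        (Real.exp (n * ip t v' + l1 t * R) * mass β h η (win n v' R)) :=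
        mul_le_mul h3 h1 (mass_nonneg _ _ _ _) (by positivity)
    _ = Real.exp (n * ip t (v' - v) + 2 * l1 t * R) * (mass β h η (win n v' R) * Zd β h' η n) := by
        have e2 : Real.exp ((n : ℝ) * ip t (v' - v) + 2 * l1 t * R) =
            Real.exp (-(n * ip t v - l1 t * R)) * Real.exp (n * ip t v' + l1 t * R) := by
          rw [← Real.exp_add, ip_sub]; congr 1; ring
        rw [e2]
        ring
    _ ≤ Real.exp c * (mass β h η (win n v' R) * Zd β h' η n) :=
        mul_le_mul_of_nonneg_right (Real.exp_le_exp.2 hc)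
          (mul_nonneg (mass_nonneg _ _ _ _) hZ'.le)
    _ = Real.exp c * (mass β h η (win n v' R) / Zd β h η n) * (Zd β h η n * Zd β h' η n) := by
        field_simp

lemma sum_disjoint [NeZero d] {n m : ℕ} (β : ℝ) (h : Fin d → ℝ) (η : ℕ → (Fin d → ℤ) → ℝ)
    (A : Fin m → Set (Fin n → Step d)) (hA : ∀ i j, i ≠ j → Disjoint (A i) (A j)) :
    ∑ j, frProb β h η (A j) ≤ 1 := by
  have hZ := Zd_pos β h η n
  simp_rw [frProb_eq]
  rw [← Finset.sum_div, div_le_one hZ]
  unfold mass Zd
  rw [Finset.sum_comm]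
  refine Finset.sum_le_sum fun w _ => ?_
  by_cases hw : ∃ j, w ∈ A j
  · obtain ⟨j, hj⟩ := hw
    rw [Finset.sum_eq_single j]
    · rw [indicator_of_mem hj]
    · intro i _ hij
      apply indicator_of_notMem
      intro hi
      exact Set.disjoint_left.1 (hA i j hij) hi hj
    · intro hj'; exact absurd (Finset.mem_univ j) hj'
  · push Not at hw
    rw [Finset.sum_eq_zero (fun j _ => indicator_of_notMem (hw j) _)]
    exact (wgt_pos _ _ _ _).le

/-- many drifts, one environment -/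
lemma det_sum [NeZero d] {n m : ℕ} (β : ℝ) (η : ℕ → (Fin d → ℤ) → ℝ)
    (H V : Fin m → (Fin d → ℝ)) (R c : ℝ) (i : Fin m)
    (hdisj : ∀ j j', j ≠ j' → Disjoint (win n (V j) R) (win n (V j') R))
    (hc : ∀ j, n * ip (H j - H i) (V j - V i) + 2 * l1 (H j - H i) * R ≤ c) :
    frProb β (H i) η (win n (V i) R) * ∑ j, frProb β (H j) η (win n (V j) R) ≤ Real.exp c := by
  rw [Finset.mul_sum]
  calc ∑ j, frProb β (H i) η (win n (V i) R) * frProb β (H j) η (win n (V j) R)
      ≤ ∑ j, Real.exp c * frProb β (H i) η (win n (V j) R) :=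
        Finset.sum_le_sum fun j _ => two_drifts β η (H i) (H j) (V i) (V j) R c (hc j)
    _ = Real.exp c * ∑ j, frProb β (H i) η (win n (V j) R) := by rw [Finset.mul_sum]
    _ ≤ Real.exp c * 1 := mul_le_mul_of_nonneg_left
        (sum_disjoint β (H i) η _ hdisj) (Real.exp_pos _).le
    _ = Real.exp c := mul_one _

lemma win_disjoint {n : ℕ} {v v' : Fin d → ℝ} {R : ℝ} (k : Fin d)
    (h : 2 * R < n * |v' k - v k|) : Disjoint (win n v R) (win n v' R) := by
  rw [Set.disjoint_left]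
  intro w hw hw'
  have h1 := hw k
  have h2 := hw' k
  have h3 : (n : ℝ) * |v' k - v k| = |((pos w n k : ℝ) - n * v k) - ((pos w n k : ℝ) - n * v' k)| := by
    rw [← abs_of_nonneg (Nat.cast_nonneg n : (0 : ℝ) ≤ n), ← abs_mul]
    congr 1
    rw [abs_of_nonneg (Nat.cast_nonneg n : (0 : ℝ) ≤ n)]
    ring
  have h4 := abs_sub ((pos w n k : ℝ) - n * v k) ((pos w n k : ℝ) - n * v' k)
  linarith

section env

variable {Ω : Type*} [MeasurableSpace Ω] {P : Measure Ω} [IsProbabilityMeasure P]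
  {ω : ℕ → (Fin d → ℤ) → Ω → ℝ}

lemma measurable_wgt (hmeas : ∀ i y, Measurable (ω i y)) (β : ℝ) (h : Fin d → ℝ) {n : ℕ}
    (w : Fin n → Step d) : Measurable fun x => wgt β h (fun i y => ω i y x) w := by
  unfold wgt energy
  apply Real.measurable_exp.comp
  apply Measurable.const_add
  apply Measurable.const_mul
  apply Finset.measurable_sum
  intro i _
  exact hmeas _ _

lemma measurable_mass (hmeas : ∀ i y, Measurable (ω i y)) (β : ℝ) (h : Fin d → ℝ) {n : ℕ}
    (A : Set (Fin n → Step d)) : Measurable fun x => mass β h (fun i y => ω i y x) A := by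
  unfold mass
  apply Finset.measurable_sum
  intro w _
  by_cases hw : w ∈ A
  · simp only [indicator_of_mem hw]
    exact measurable_wgt hmeas β h w
  · simp only [indicator_of_notMem hw]
    exact measurable_const

lemma measurable_Zd' (hmeas : ∀ i y, Measurable (ω i y)) (β : ℝ) (h : Fin d → ℝ) (n : ℕ) :
    Measurable fun x => Zd β h (fun i y => ω i y x) n := by
  unfold Zd
  apply Finset.measurable_sum
  intro w _
  exact measurable_wgt hmeas β h w

lemma measurable_frProb (hmeas : ∀ i y, Measurable (ω i y)) (β : ℝ) (h : Fin d → ℝ) {n : ℕ}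
    (A : Set (Fin n → Step d)) : Measurable fun x => frProb β h (fun i y => ω i y x) A :=
  (measurable_mass hmeas β h A).div (measurable_Zd' hmeas β h n)

lemma integrable_frProb [NeZero d] (hmeas : ∀ i y, Measurable (ω i y)) (β : ℝ) (h : Fin d → ℝ)
    {n : ℕ} (A : Set (Fin n → Step d)) :
    Integrable (fun x => frProb β h (fun i y => ω i y x) A) P := by
  refine Integrable.of_bound (measurable_frProb hmeas β h A).aestronglyMeasurable 1 ?_
  refine Eventually.of_forall fun x => ?_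
  rw [Real.norm_eq_abs, abs_of_nonneg (frProb_nonneg' _ _ _ _)]
  exact frProb_le_one' _ _ _ _

/-- few drifts with disjoint windows and substantial annealed mass -/
lemma pigeon [NeZero d] (hmeas : ∀ i y, Measurable (ω i y)) {n m : ℕ} (β : ℝ)
    (H V : Fin m → (Fin d → ℝ)) (R δ : ℝ) (hδ : 0 < δ)
    (hdisj : ∀ j j', j ≠ j' → Disjoint (win n (V j) R) (win n (V j') R))
    (hc : ∀ i j, n * ip (H j - H i) (V j - V i) + 2 * l1 (H j - H i) * R ≤ 1 / 2)
    (hE : ∀ j, δ ≤ ∫ x, frProb β (H j) (fun i y => ω i y x) (win n (V j) R) ∂P) :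
    δ ^ 2 * m ≤ 2 := by
  rcases Nat.eq_zero_or_pos m with hm | hm
  · subst hm; simp
  have : NeZero m := ⟨by omega⟩
  set g : Fin m → Ω → ℝ := fun j x => frProb β (H j) (fun i y => ω i y x) (win n (V j) R) with hg
  have hgi : ∀ j, Integrable (g j) P := fun j => integrable_frProb hmeas β (H j) _
  have hI : Integrable (fun x => ∑ j, g j x) P := integrable_finsetSum _ fun j _ => hgi j
  obtain ⟨x, hx⟩ := exists_integral_le hI
  have h1 : m * δ ≤ ∑ j, g j x := by
    refine le_trans ?_ hx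
    rw [integral_finsetSum _ fun j _ => hgi j]
    calc (m : ℝ) * δ = ∑ _j : Fin m, δ := by simp
      _ ≤ _ := Finset.sum_le_sum fun j _ => hE j
  obtain ⟨i, hi⟩ : ∃ i, δ ≤ g i x := by
    by_contra hcon
    push Not at hcon
    have h2 : ∑ j, g j x < ∑ _j : Fin m, δ :=
      Finset.sum_lt_sum_of_nonempty Finset.univ_nonempty fun j _ => hcon j
    simp at h2
    linarith
  have h3 := det_sum β (fun i y => ω i y x) H V R (1 / 2) i hdisj (hc i)
  have h4 : Real.exp (1 / 2) ≤ 2 := by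
    have h5 : Real.exp (1 / 2) * Real.exp (1 / 2) = Real.exp 1 := by
      rw [← Real.exp_add]; norm_num
    have h6 := Real.exp_one_lt_d9
    nlinarith [Real.exp_pos (1 / 2)]
  have h7 : δ * (m * δ) ≤ g i x * ∑ j, g j x :=
    mul_le_mul hi h1 (by positivity) (hδ.le.trans hi)
  calc δ ^ 2 * m = δ * (m * δ) := by ring
    _ ≤ g i x * ∑ j, g j x := h7
    _ ≤ Real.exp (1 / 2) := h3
    _ ≤ 2 := h4

end env

end Pool.Agent.H97.NS
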