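import Pool.Agent.H97.NS.DimIid

/-!
Independent environments: dimension of the slopes with a small wandering exponent, assembly.
-/

open MeasureTheory ProbabilityTheory TH967.DP Filter Set
open scoped Topology NNReal ENNReal
open Pool.Agent.N662.SD (pow_dom gap inter_ge ev_large)
open Pool.Agent.K1H38.DP (frProb tube frProb_mono)

set_option linter.unusedSectionVars false
set_option autoImplicit false

namespace Pool.Agent.H97.NS

variable {d : ℕ} {Ω : Type} [MeasurableSpace Ω] {P : Measure Ω} [IsProbabilityMeasure P]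
  {ω : ℕ → (Fin d → ℤ) → Ω → ℝ}

lemma fr_eq_prob {n : ℕ} (β : ℝ) (h : Fin d → ℝ) (η : ℕ → (Fin d → ℤ) → ℝ)
    (A : Set (Fin n → Step d)) : frProb β h η A = Pool.Agent.N662.SE.prob β h η n A := by
  have h1 : ∀ w : Fin n → Step d, Pool.Agent.K1H38.DP.wgt β h η w =
      Real.exp (β * energy η w + ∑ k, h k * (pos w n k : ℝ)) := by
    intro w
    unfold Pool.Agent.K1H38.DP.wgt Pool.Agent.K1H38.DP.dot
    rw [add_comm]
  unfold frProb Pool.Agent.N662.SE.prob Pool.Agent.N662.SE.part Pool.Agent.K1H38.DP.Zd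
  rw [Set.indicator_univ]
  have h2 : Pool.Agent.K1H38.DP.wgt β h η =
      fun w : Fin n → Step d => Real.exp (β * energy η w + ∑ k, h k * (pos w n k : ℝ)) :=
    funext h1
  rw [h2]

lemma tube_sub (θ : ℝ) (v : Fin d → ℝ) (r : ℝ) (n : ℕ) :
    tube n v r ⊆ Pool.Agent.N662.SE.tube θ v r n := by
  intro w hw i _ hi k
  refine le_trans ?_ (hw i hi)
  apply Real.le_sqrt_of_sq_le
  rw [sq_abs]
  exact Finset.single_le_sum (f := fun k => ((pos w i k : ℝ) - i * v k) ^ 2)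
    (fun _ _ => sq_nonneg _) (Finset.mem_univ k)

/-- a small wandering exponent makes the slope exceptional -/
lemma bad_of_wander (hd : 1 ≤ d) (hmeas : ∀ i y, Measurable (ω i y)) {β θ a c : ℝ} (hc : 0 < c)
    {h v : Fin d → ℝ} (hw : Pool.Agent.K1H38.DP.wanderingExp P ω β h v < a) :
    v ∈ Pool.Agent.N662.SE.bad P ω β θ a c := by
  have : NeZero d := ⟨by omega⟩
  refine ⟨h, ?_⟩
  have h1 := conf_rpow (P := P) hmeas hw
  filter_upwards [h1.eventually (lt_mem_nhds (by norm_num : (7 / 8 : ℝ) < 1)),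
    eventually_ge_atTop 1] with n hn hn1
  set g : Ω → ℝ := fun x => frProb β h (fun i y => ω i y x) (tube n v ((n : ℝ) ^ a)) with hg
  have hgi : Integrable g P := integrable_frProb hmeas β h _
  have hg1 : ∀ x, g x ≤ 1 := fun x => frProb_le_one' _ _ _ _
  have h2 : (1 / 2 : ℝ) * P.real {x | 1 / 2 ≤ 1 - g x} ≤ ∫ x, (1 - g x) ∂P :=
    mul_meas_ge_le_integral_of_nonneg (f := fun x => 1 - g x)
      (Eventually.of_forall fun x => by simp only [Pi.zero_apply]; linarith [hg1 x])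
      ((integrable_const 1).sub hgi) (1 / 2)
  have h3 : ∫ x, (1 - g x) ∂P = 1 - ∫ x, g x ∂P := by
    rw [integral_sub (integrable_const 1) hgi]
    simp
  rw [h3] at h2
  have hgm : Measurable g := measurable_frProb hmeas β h _
  have h4 : P.real {x | 1 / 2 ≤ 1 - g x}ᶜ = 1 - P.real {x | 1 / 2 ≤ 1 - g x} := by
    have hms : MeasurableSet {x | 1 / 2 ≤ 1 - g x} :=
      measurableSet_le measurable_const (measurable_const.sub hgm)
    rw [measureReal_compl hms]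
    simp
  have h5 : 3 / 4 ≤ P.real {x | 1 / 2 ≤ 1 - g x}ᶜ := by rw [h4]; linarith
  refine h5.trans (measureReal_mono ?_ (measure_ne_top _ _))
  intro x hx
  simp only [mem_compl_iff, Set.mem_ofPred_eq, not_le] at hx
  show Real.exp (-(n : ℝ) ^ c) < _
  have h6 : Real.exp (-(n : ℝ) ^ c) ≤ 1 / 2 := by
    have h7 : (1 : ℝ) ≤ (n : ℝ) ^ c := Real.one_le_rpow (by exact_mod_cast hn1) hc.le
    have h8 : Real.exp (-(n : ℝ) ^ c) ≤ Real.exp (-1) := Real.exp_le_exp.2 (by linarith)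
    have h9 := Real.exp_neg_one_lt_d9
    linarith
  have h7 : g x ≤ Pool.Agent.N662.SE.prob β h (fun i y => ω i y x) n
      (Pool.Agent.N662.SE.tube θ v ((n : ℝ) ^ a) n) := by
    rw [← fr_eq_prob]
    exact frProb_mono _ _ _ (tube_sub θ v _ n)
  linarith

/-- dimension of the slopes with wandering exponent less than `a`, independent environments -/
lemma iid_dim_lt (hd : 1 ≤ d) (he : Pool.Agent.N662.SE.IsEnv P ω)
    (hnc : ¬ ∃ c : ℝ, ∀ᵐ x ∂P, ω 1 0 x = c) {β : ℝ} (hβ : 0 < β) {a : ℝ}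
    (hγ : 1 / ((d : ℝ) + 2) < a) (ha : a < 1 / d) :
    dimH {v : Fin d → ℝ | ∃ h, Pool.Agent.K1H38.DP.wanderingExp P ω β h v < a} ≤
      ENNReal.ofReal (d * (((d + 2) * a - 1) / 2 / (1 - a))) := by
  have hd0 : (0 : ℝ) < d := by exact_mod_cast hd
  have hda : 0 < (1 - d * a) / 2 := by
    rw [lt_div_iff₀ hd0] at ha
    linarith
  refine le_trans (dimH_mono ?_) (bad_dim hd he hnc hβ (θ := 1 / 2) (c := (1 - d * a) / 4)
    (by norm_num) (by norm_num) (by linarith) (by linarith) hγ)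
  rintro v ⟨h, hv⟩
  exact bad_of_wander hd he.meas (by linarith) hv

lemma iid_dim (hd : 1 ≤ d) (he : Pool.Agent.N662.SE.IsEnv P ω)
    (hnc : ¬ ∃ c : ℝ, ∀ᵐ x ∂P, ω 1 0 x = c) {β : ℝ} (hβ : 0 < β) {κ : ℝ}
    (hκ : κ < 1 / d) :
    dimH {v : Fin d → ℝ | ∃ h, Pool.Agent.K1H38.DP.wanderingExp P ω β h v ≤ κ} ≤
      ENNReal.ofReal (d * max 0 (((d + 2) * κ - 1) / (2 * (1 - κ)))) := by
  have hd0 : (0 : ℝ) < d := by exact_mod_cast hd
  have hd1 : (1 : ℝ) ≤ d := by exact_mod_cast hd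
  -- the critical exponent
  set κ' : ℝ := max κ (1 / ((d : ℝ) + 2)) with hκ'
  have h12 : 1 / ((d : ℝ) + 2) < 1 / d := by
    apply one_div_lt_one_div_of_lt hd0; linarith
  have hκ'1 : κ' < 1 / d := max_lt hκ h12
  have h1d : 1 / (d : ℝ) ≤ 1 := by rw [div_le_one hd0]; exact hd1
  have hκ'2 : κ' < 1 := hκ'1.trans_le h1d
  have hlim : Tendsto (fun a : ℝ => ENNReal.ofReal (d * (((d + 2) * a - 1) / 2 / (1 - a))))
      (𝓝[>] κ') (𝓝 (ENNReal.ofReal (d * (((d + 2) * κ' - 1) / 2 / (1 - κ'))))) := by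
    apply ENNReal.tendsto_ofReal
    have h2 : ContinuousAt (fun a : ℝ => (d : ℝ) * (((d + 2) * a - 1) / 2 / (1 - a))) κ' := by
      apply ContinuousAt.mul continuousAt_const
      apply ContinuousAt.div (by fun_prop) (by fun_prop)
      have : 0 < 1 - κ' := by linarith
      exact this.ne'
    exact h2.tendsto.mono_left nhdsWithin_le_nhds
  have hle : dimH {v : Fin d → ℝ | ∃ h, Pool.Agent.K1H38.DP.wanderingExp P ω β h v ≤ κ} ≤
      ENNReal.ofReal (d * (((d + 2) * κ' - 1) / 2 / (1 - κ'))) := by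
    apply ge_of_tendsto hlim
    have h3 : Ioo κ' (1 / (d : ℝ)) ∈ 𝓝[>] κ' := Ioo_mem_nhdsGT hκ'1
    filter_upwards [h3] with a ha
    refine le_trans (dimH_mono ?_) (iid_dim_lt hd he hnc hβ
      ((le_max_right _ _).trans_lt ha.1) ha.2)
    rintro v ⟨h, hv⟩
    exact ⟨h, hv.trans_lt ((le_max_left _ _).trans_lt ha.1)⟩
  refine hle.trans (ENNReal.ofReal_le_ofReal ?_)
  apply mul_le_mul_of_nonneg_left _ hd0.le
  have h1κ : 0 < 1 - κ' := by linarith
  rcases le_total κ (1 / ((d : ℝ) + 2)) with h | h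
  · have e : κ' = 1 / ((d : ℝ) + 2) := max_eq_right h
    have e2 : ((d : ℝ) + 2) * κ' - 1 = 0 := by rw [e]; field_simp; ring
    rw [e2]; simp
  · have e : κ' = κ := max_eq_left h
    rw [e]
    refine le_trans (le_of_eq ?_) (le_max_right _ _)
    rw [div_div]

/-- both bounds -/
theorem iid_both (hd : 1 ≤ d) (he : Pool.Agent.N662.SE.IsEnv P ω)
    (hnc : ¬ ∃ c : ℝ, ∀ᵐ x ∂P, ω 1 0 x = c) {β : ℝ} (hβ : 0 < β) {κ : ℝ}
    (hκ0 : 0 ≤ κ) (hκ : κ < 1) :
    dimH {v : Fin d → ℝ | ∃ h, Pool.Agent.K1H38.DP.wanderingExp P ω β h v ≤ κ} ≤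
      ENNReal.ofReal (d * min (κ / (1 - κ)) (max 0 (((d + 2) * κ - 1) / (2 * (1 - κ))))) := by
  have : NeZero d := ⟨by omega⟩
  have hd0 : (0 : ℝ) < d := by exact_mod_cast hd
  have h1 := wander_dim (P := P) he.meas β hκ0 hκ
  rcases lt_or_ge κ (1 / d) with h | h
  · have h2 := iid_dim hd he hnc hβ h
    rcases min_choice (κ / (1 - κ)) (max 0 (((d + 2) * κ - 1) / (2 * (1 - κ)))) with e | e
    · rw [e]; exact h1
    · rw [e]; exact h2
  · have h2 : κ / (1 - κ) ≤ max 0 (((d + 2) * κ - 1) / (2 * (1 - κ))) := by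
      refine le_trans ?_ (le_max_right _ _)
      have h3 : 0 < 1 - κ := by linarith
      rw [div_le_div_iff₀ h3 (by linarith)]
      rw [div_le_iff₀ hd0] at h
      nlinarith
    rw [min_eq_left h2]
    exact h1

/-- almost every slope -/
lemma null_of_dim {S : ℝ → Set (Fin d → ℝ)} {a₀ : ℝ} (ha₀ : a₀ ≤ 1 / 2) (hd : 1 ≤ d)
    (hS : ∀ κ, 0 ≤ κ → κ < 1 → dimH (S κ) ≤ ENNReal.ofReal (d * (κ / (1 - κ)))) :
    ∀ κ, 0 ≤ κ → κ < a₀ → volume (S κ) = 0 := by
  intro κ h0 h1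
  have hd0 : (0 : ℝ) < d := by exact_mod_cast hd
  have h2 := hS κ h0 (by linarith)
  have h3 : dimH (S κ) < d := by
    refine h2.trans_lt ?_
    rw [← ENNReal.ofReal_natCast, ENNReal.ofReal_lt_ofReal_iff hd0]
    have h4 : κ / (1 - κ) < 1 := by rw [div_lt_one (by linarith)]; linarith
    nlinarith
  have h4 : μH[((d : ℝ≥0) : ℝ)] (S κ) = 0 := by
    apply hausdorffMeasure_of_dimH_lt
    exact_mod_cast h3
  have h5 : (μH[Fintype.card (Fin d)] : Measure (Fin d → ℝ)) = volume := hausdorffMeasure_pi_real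
  rw [← h5, Fintype.card_fin]
  simpa using h4

end Pool.Agent.H97.NS
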