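import Pool.Agent.H97.NS.DimRel

/-!
Arbitrary environments: Hausdorff dimension of the slopes with a small wandering exponent.
-/

open MeasureTheory ProbabilityTheory TH967.DP Filter Set
open scoped Topology NNReal ENNReal
open Pool.Agent.K1H38.DP

set_option linter.unusedSectionVars false
set_option autoImplicit false

namespace Pool.Agent.H97.NS

variable {d : ℕ} {Ω : Type*} [MeasurableSpace Ω] {P : Measure Ω} [IsProbabilityMeasure P]
  {ω : ℕ → (Fin d → ℤ) → Ω → ℝ}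

/-- pairs of a drift and a slope confined at scale `n ^ a` from time `N` on -/
def CS (P : Measure Ω) (ω : ℕ → (Fin d → ℤ) → Ω → ℝ) (β a : ℝ) (N : ℕ) :
    Set ((Fin d → ℝ) × (Fin d → ℝ)) :=
  {z | ∀ n : ℕ, N ≤ n → 7 / 8 ≤ ∫ x, frProb β z.1 (fun i y => ω i y x)
    (win n z.2 ((n : ℝ) ^ a)) ∂P}

lemma two_points {g g' : Ω → ℝ} (hg : Integrable g P) (hg' : Integrable g' P)
    (h1 : ∀ x, g x ≤ 1) (h1' : ∀ x, g' x ≤ 1) (hI : 7 / 8 ≤ ∫ x, g x ∂P)
    (hI' : 7 / 8 ≤ ∫ x, g' x ∂P) : ∃ x, 3 / 4 ≤ g x ∧ 3 / 4 ≤ g' x := by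
  obtain ⟨x, hx⟩ := exists_integral_le (hg.add hg')
  have h2 : ∫ x, (g + g') x ∂P = ∫ x, g x ∂P + ∫ x, g' x ∂P := integral_add hg hg'
  rw [h2] at hx
  simp only [Pi.add_apply] at hx
  exact ⟨x, by linarith [h1 x, h1' x], by linarith [h1 x, h1' x]⟩

/-- disjoint windows cost energy -/
lemma pair_cost [NeZero d] (hmeas : ∀ i y, Measurable (ω i y)) {β a : ℝ} {N : ℕ}
    {z z' : (Fin d → ℝ) × (Fin d → ℝ)} (hz : z ∈ CS P ω β a N) (hz' : z' ∈ CS P ω β a N)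
    {n : ℕ} (hn : N ≤ n) (hdisj : Disjoint (win n z.2 ((n : ℝ) ^ a)) (win n z'.2 ((n : ℝ) ^ a))) :
    1 / 2 ≤ n * ip (z'.1 - z.1) (z'.2 - z.2) + 2 * l1 (z'.1 - z.1) * (n : ℝ) ^ a := by
  obtain ⟨x, hx, hx'⟩ := two_points (integrable_frProb hmeas β z.1 _)
    (integrable_frProb hmeas β z'.1 _) (fun _ => frProb_le_one' _ _ _ _)
    (fun _ => frProb_le_one' _ _ _ _) (hz n hn) (hz' n hn)
  have h1 := two_drifts β (fun i y => ω i y x) z.1 z'.1 z.2 z'.2 ((n : ℝ) ^ a)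
    (n * ip (z'.1 - z.1) (z'.2 - z.2) + 2 * l1 (z'.1 - z.1) * (n : ℝ) ^ a) le_rfl
  set A : Fin 2 → Set (Fin n → Step d) := ![win n z.2 ((n : ℝ) ^ a), win n z'.2 ((n : ℝ) ^ a)]
    with hA
  have h2 := sum_disjoint β z.1 (fun i y => ω i y x) A (by
    intro i j hij
    fin_cases i <;> fin_cases j
    · exact absurd rfl hij
    · exact hdisj
    · exact hdisj.symm
    · exact absurd rfl hij)
  rw [Fin.sum_univ_two] at h2
  simp only [hA, Matrix.cons_val_zero, Matrix.cons_val_one] at h2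
  have h3 : frProb β z.1 (fun i y => ω i y x) (win n z'.2 ((n : ℝ) ^ a)) ≤ 1 / 4 := by linarith
  set c : ℝ := n * ip (z'.1 - z.1) (z'.2 - z.2) + 2 * l1 (z'.1 - z.1) * (n : ℝ) ^ a with hc
  by_contra hcon
  push Not at hcon
  have h4 : Real.exp c < 2 := by
    have h5 : Real.exp (1 / 2) * Real.exp (1 / 2) = Real.exp 1 := by
      rw [← Real.exp_add]; norm_num
    have h6 := Real.exp_one_lt_d9
    have h7 := Real.exp_lt_exp.2 hcon
    nlinarith [Real.exp_pos (1 / 2), Real.exp_pos c]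
  have h5 : (3 / 4 : ℝ) * (3 / 4) ≤ Real.exp c * (1 / 4) :=
    le_trans (mul_le_mul hx hx' (by norm_num) (by linarith))
      (h1.trans (mul_le_mul_of_nonneg_left h3 (Real.exp_pos _).le))
  linarith

lemma exists_coord [NeZero d] {v v' : Fin d → ℝ} : ∃ k, |v' k - v k| = ‖v' - v‖ := by
  obtain ⟨k, -, hk⟩ := Finset.exists_mem_eq_sup' (s := (Finset.univ : Finset (Fin d)))
    Finset.univ_nonempty (fun k => ‖(v' - v) k‖₊)
  refine ⟨k, ?_⟩
  have h1 : ‖v' - v‖₊ = ‖(v' - v) k‖₊ := by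
    rw [Pi.nnnorm_def, ← Finset.sup'_eq_sup Finset.univ_nonempty, hk]
  have h2 : ‖v' - v‖ = ‖(v' - v) k‖ := congrArg NNReal.toReal h1
  rw [h2, Real.norm_eq_abs]; rfl

lemma ip_le_l1 (t v : Fin d → ℝ) : ip t v ≤ l1 t * ‖v‖ := by
  unfold ip l1
  rw [Finset.sum_mul]
  refine Finset.sum_le_sum fun k _ => ?_
  refine (le_abs_self _).trans ?_
  rw [abs_mul]
  exact mul_le_mul_of_nonneg_left (norm_le_pi_norm v k) (abs_nonneg _)

lemma l1_le_norm (t : Fin d → ℝ) : l1 t ≤ d * ‖t‖ := l1_le fun k => norm_le_pi_norm t k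

/-- confined pairs form a monotone relation -/
lemma cs_mono [NeZero d] (hmeas : ∀ i y, Measurable (ω i y)) {β a : ℝ} (ha1 : a < 1)
    {N : ℕ} {z z' : (Fin d → ℝ) × (Fin d → ℝ)} (hz : z ∈ CS P ω β a N) (hz' : z' ∈ CS P ω β a N) :
    0 ≤ ip (z'.1 - z.1) (z'.2 - z.2) := by
  by_contra hcon
  push Not at hcon
  have hne : 0 < ‖z'.2 - z.2‖ := by
    rw [norm_pos_iff]
    intro h0
    rw [h0] at hcon
    simp [ip] at hcon
  obtain ⟨k, hk⟩ := exists_coord (v := z.2) (v' := z'.2)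
  set p : ℝ := -ip (z'.1 - z.1) (z'.2 - z.2) with hp
  have hp0 : 0 < p := by rw [hp]; linarith
  set L : ℝ := 2 * l1 (z'.1 - z.1) with hL
  have hL0 : 0 ≤ L := by rw [hL]; have := l1_nonneg (z'.1 - z.1); linarith
  have h3 : Tendsto (fun n : ℕ => (n : ℝ) ^ (1 - a)) atTop atTop :=
    (tendsto_rpow_atTop (by linarith)).comp tendsto_natCast_atTop_atTop
  obtain ⟨n, h4, h5, h6, h7⟩ := ((h3.eventually_gt_atTop (2 / ‖z'.2 - z.2‖)).and
    ((h3.eventually_ge_atTop (L / p)).and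
      ((eventually_ge_atTop N).and (eventually_ge_atTop 1)))).exists
  have hn0 : (0 : ℝ) < n := by exact_mod_cast h7
  have hna : 0 < (n : ℝ) ^ a := by positivity
  have e : (n : ℝ) = (n : ℝ) ^ (1 - a) * (n : ℝ) ^ a := by
    rw [← Real.rpow_add hn0]; simp
  have hdisj : Disjoint (win n z.2 ((n : ℝ) ^ a)) (win n z'.2 ((n : ℝ) ^ a)) := by
    apply win_disjoint k
    rw [hk]
    rw [div_lt_iff₀ hne] at h4
    calc 2 * (n : ℝ) ^ a < (n : ℝ) ^ (1 - a) * ‖z'.2 - z.2‖ * (n : ℝ) ^ a :=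
          mul_lt_mul_of_pos_right h4 hna
      _ = ((n : ℝ) ^ (1 - a) * (n : ℝ) ^ a) * ‖z'.2 - z.2‖ := by ring
      _ = n * ‖z'.2 - z.2‖ := by rw [← e]
  have h8 := pair_cost hmeas hz hz' h6 hdisj
  have h9 : L * (n : ℝ) ^ a ≤ n * p := by
    rw [div_le_iff₀ hp0] at h5
    calc L * (n : ℝ) ^ a ≤ (n : ℝ) ^ (1 - a) * p * (n : ℝ) ^ a :=
          mul_le_mul_of_nonneg_right h5 hna.le
      _ = ((n : ℝ) ^ (1 - a) * (n : ℝ) ^ a) * p := by ring
      _ = n * p := by rw [← e]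
  have h10 : n * ip (z'.1 - z.1) (z'.2 - z.2) = -(n * p) := by rw [hp]; ring
  rw [h10] at h8
  linarith

/-- the time at which two slopes separate -/
lemma sep_time {a δ : ℝ} (ha : 0 < a) (ha1 : a < 1) (hδ : 0 < δ) {N : ℕ} (hN : 1 ≤ N)
    (hδN : δ ≤ 2 / N) : ∃ n : ℕ, N ≤ n ∧ 2 * (n : ℝ) ^ a < n * δ ∧ n * δ ≤ 4 * (n : ℝ) ^ a ∧
      (n : ℝ) ^ a ≤ 2 * (2 / δ) ^ (a / (1 - a)) ∧ (2 / δ) ^ (a / (1 - a)) ≤ (n : ℝ) ^ a := by
  have h1a : 0 < 1 - a := by linarith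
  have hN0 : (0 : ℝ) < N := by exact_mod_cast hN
  have hN1 : (1 : ℝ) ≤ N := by exact_mod_cast hN
  have h2δ : (N : ℝ) ≤ 2 / δ := by
    rw [le_div_iff₀ hδ]
    rw [le_div_iff₀ hN0] at hδN
    linarith
  have h2δ1 : 1 ≤ 2 / δ := hN1.trans h2δ
  set X : ℝ := (2 / δ) ^ (1 / (1 - a)) with hX
  have hXN : (N : ℝ) ≤ X := by
    refine h2δ.trans ?_
    calc 2 / δ = (2 / δ) ^ (1 : ℝ) := (Real.rpow_one _).symm
      _ ≤ X := Real.rpow_le_rpow_of_exponent_le h2δ1 (by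
        rw [le_div_iff₀ h1a]; linarith)
  have hX1 : 1 ≤ X := hN1.trans hXN
  have hX0 : 0 < X := by linarith
  have hXa : X ^ (1 - a) = 2 / δ := by
    rw [hX, ← Real.rpow_mul (by positivity)]
    have : 1 / (1 - a) * (1 - a) = 1 := by field_simp
    rw [this, Real.rpow_one]
  have hXaa : X ^ a = (2 / δ) ^ (a / (1 - a)) := by
    rw [hX, ← Real.rpow_mul (by positivity)]
    congr 1; field_simp
  set n : ℕ := ⌊X⌋₊ + 1 with hn
  have hn1 : X < n := by rw [hn]; push_cast; exact Nat.lt_floor_add_one X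
  have hn2 : (n : ℝ) ≤ 2 * X := by
    rw [hn]; push_cast
    have := Nat.floor_le hX0.le
    linarith
  have hn0 : (0 : ℝ) < n := hX0.trans hn1
  have hna : 0 < (n : ℝ) ^ a := by positivity
  have e : (n : ℝ) = (n : ℝ) ^ (1 - a) * (n : ℝ) ^ a := by
    rw [← Real.rpow_add hn0]; simp
  refine ⟨n, ?_, ?_, ?_, ?_, ?_⟩
  · have : (N : ℝ) ≤ n := hXN.trans hn1.le
    exact_mod_cast this
  · have h3 : 2 / δ < (n : ℝ) ^ (1 - a) := by
      rw [← hXa]; exact Real.rpow_lt_rpow hX0.le hn1 h1a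
    rw [div_lt_iff₀ hδ] at h3
    calc 2 * (n : ℝ) ^ a < (n : ℝ) ^ (1 - a) * δ * (n : ℝ) ^ a := mul_lt_mul_of_pos_right h3 hna
      _ = ((n : ℝ) ^ (1 - a) * (n : ℝ) ^ a) * δ := by ring
      _ = n * δ := by rw [← e]
  · have h3 : (n : ℝ) ^ (1 - a) ≤ 2 * (2 / δ) := by
      calc (n : ℝ) ^ (1 - a) ≤ (2 * X) ^ (1 - a) := Real.rpow_le_rpow hn0.le hn2 h1a.le
        _ = 2 ^ (1 - a) * X ^ (1 - a) := Real.mul_rpow (by norm_num) hX0.le
        _ ≤ 2 ^ (1 : ℝ) * X ^ (1 - a) := by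
            apply mul_le_mul_of_nonneg_right _ (by positivity)
            exact Real.rpow_le_rpow_of_exponent_le (by norm_num) (by linarith)
        _ = 2 * (2 / δ) := by rw [hXa, Real.rpow_one]
    calc (n : ℝ) * δ = ((n : ℝ) ^ (1 - a) * (n : ℝ) ^ a) * δ := by rw [← e]
      _ ≤ (2 * (2 / δ) * (n : ℝ) ^ a) * δ := by
          apply mul_le_mul_of_nonneg_right _ hδ.le
          exact mul_le_mul_of_nonneg_right h3 hna.le
      _ = 4 * (n : ℝ) ^ a := by field_simp; ring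
  · rw [← hXaa]
    calc (n : ℝ) ^ a ≤ (2 * X) ^ a := Real.rpow_le_rpow hn0.le hn2 ha.le
      _ = 2 ^ a * X ^ a := Real.mul_rpow (by norm_num) hX0.le
      _ ≤ 2 ^ (1 : ℝ) * X ^ a := by
          apply mul_le_mul_of_nonneg_right _ (by positivity)
          exact Real.rpow_le_rpow_of_exponent_le (by norm_num) (by linarith)
      _ = 2 * X ^ a := by rw [Real.rpow_one]
  · rw [← hXaa]
    exact Real.rpow_le_rpow hX0.le hn1.le ha.le

/-- confined pairs: the drift varies at least like a power of the slope -/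
lemma cs_lower [NeZero d] (hmeas : ∀ i y, Measurable (ω i y)) {β a : ℝ} (ha : 0 < a) (ha1 : a < 1)
    {N : ℕ} (hN : 1 ≤ N) {z z' : (Fin d → ℝ) × (Fin d → ℝ)} (hz : z ∈ CS P ω β a N)
    (hz' : z' ∈ CS P ω β a N) (hne : z.2 ≠ z'.2) (hρ : ‖z'.2 - z.2‖ ≤ 2 / N) :
    (1 / (24 * d * 2 ^ (a / (1 - a)))) * ‖z'.2 - z.2‖ ^ (a / (1 - a)) ≤ ‖z'.1 - z.1‖ := by
  have hdn : 0 < d := Nat.pos_of_ne_zero (NeZero.ne d)
  have hd : (0 : ℝ) < d := by exact_mod_cast hdn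
  have h1a : 0 < 1 - a := by linarith
  set δ : ℝ := ‖z'.2 - z.2‖ with hδdef
  have hδ : 0 < δ := by
    rw [hδdef, norm_pos_iff, sub_ne_zero]; exact hne.symm
  obtain ⟨k, hk⟩ := exists_coord (v := z.2) (v' := z'.2)
  obtain ⟨n, hn, hn1, hn2, hn3, -⟩ := sep_time ha ha1 hδ hN hρ
  have hdisj : Disjoint (win n z.2 ((n : ℝ) ^ a)) (win n z'.2 ((n : ℝ) ^ a)) := by
    apply win_disjoint k
    rw [hk]; exact hn1
  have h1 := pair_cost hmeas hz hz' hn hdisj
  have h2 := ip_le_l1 (z'.1 - z.1) (z'.2 - z.2)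
  have h3 := l1_le_norm (z'.1 - z.1)
  have hl := l1_nonneg (z'.1 - z.1)
  set l := l1 (z'.1 - z.1) with hldef
  have hna : 0 ≤ (n : ℝ) ^ a := by positivity
  have h4 : n * ip (z'.1 - z.1) (z'.2 - z.2) ≤ l * (4 * (n : ℝ) ^ a) := by
    calc n * ip (z'.1 - z.1) (z'.2 - z.2) ≤ n * (l * δ) :=
          mul_le_mul_of_nonneg_left h2 (Nat.cast_nonneg n)
      _ = l * (n * δ) := by ring
      _ ≤ l * (4 * (n : ℝ) ^ a) := mul_le_mul_of_nonneg_left hn2 hl
  have h5 : 1 / 2 ≤ 6 * l * (n : ℝ) ^ a := by linarith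
  have h6 : 1 / 2 ≤ 12 * (d * ‖z'.1 - z.1‖) * (2 / δ) ^ (a / (1 - a)) := by
    calc (1 / 2 : ℝ) ≤ 6 * l * (n : ℝ) ^ a := h5
      _ ≤ 6 * l * (2 * (2 / δ) ^ (a / (1 - a))) := mul_le_mul_of_nonneg_left hn3 (by positivity)
      _ = 12 * l * (2 / δ) ^ (a / (1 - a)) := by ring
      _ ≤ 12 * (d * ‖z'.1 - z.1‖) * (2 / δ) ^ (a / (1 - a)) := by
          apply mul_le_mul_of_nonneg_right _ (by positivity)
          linarith
  rw [Real.div_rpow (by norm_num) hδ.le] at h6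
  have h7 : 0 < δ ^ (a / (1 - a)) := by positivity
  have h8 : (0 : ℝ) < 2 ^ (a / (1 - a)) := by positivity
  rw [one_div, inv_mul_le_iff₀ (by positivity)]
  rw [mul_div_assoc', le_div_iff₀ h7] at h6
  calc δ ^ (a / (1 - a)) = 2 * (1 / 2 * δ ^ (a / (1 - a))) := by ring
    _ ≤ 2 * (12 * (d * ‖z'.1 - z.1‖) * 2 ^ (a / (1 - a))) := by linarith
    _ = 24 * d * 2 ^ (a / (1 - a)) * ‖z'.1 - z.1‖ := by ring

lemma cs_dim [NeZero d] (hmeas : ∀ i y, Measurable (ω i y)) (β : ℝ) {a : ℝ} (ha : 0 < a)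
    (ha1 : a < 1) (N : ℕ) :
    dimH (Prod.snd '' CS P ω β a N) ≤ ENNReal.ofReal (d * (a / (1 - a))) := by
  have hdn : 0 < d := Nat.pos_of_ne_zero (NeZero.ne d)
  have hd : (0 : ℝ) < d := by exact_mod_cast hdn
  have h1a : 0 < 1 - a := by linarith
  have hsub : CS P ω β a N ⊆ CS P ω β a (N + 1) := fun z hz n hn => hz n (by omega)
  refine (dimH_mono (image_mono hsub)).trans ?_
  have hN1 : (0 : ℝ) < ((N + 1 : ℕ) : ℝ) := by exact_mod_cast Nat.succ_pos N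
  exact dim_mono (CS P ω β a (N + 1)) hdn (c := 1 / (24 * d * 2 ^ (a / (1 - a))))
    (α := a / (1 - a)) (ρ := 2 / ((N + 1 : ℕ) : ℝ))
    (by positivity) (by positivity) (by positivity)
    (fun z hz z' hz' => cs_mono hmeas ha1 hz hz')
    (fun z hz z' hz' hne hρ => cs_lower hmeas ha ha1 (by omega) hz hz' hne hρ)

/-- confinement at every larger scale -/
lemma conf_rpow [NeZero d] (hmeas : ∀ i y, Measurable (ω i y)) {β : ℝ} {h v : Fin d → ℝ}
    {a : ℝ} (hw : Pool.Agent.K1H38.DP.wanderingExp P ω β h v < a) :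
    Tendsto (fun n : ℕ => ∫ x, frProb β h (fun i y => ω i y x)
      (tube n v ((n : ℝ) ^ a)) ∂P) atTop (𝓝 1) := by
  obtain ⟨b, ⟨hb0, hb⟩, hba⟩ : ∃ b ∈ {ν' : ℝ | 0 < ν' ∧ ∫⁻ x, liminf (fun n : ℕ =>
      ENNReal.ofReal (frProb β h (fun i y => ω i y x) (tube n v ((n : ℝ) ^ ν')))) atTop ∂P = 1},
      b < a := by
    apply exists_lt_of_csInf_lt _ hw
    refine ⟨2, by norm_num, ?_⟩
    have h2 : ∀ x : Ω, liminf (fun n : ℕ => ENNReal.ofReal (frProb β h (fun i y => ω i y x)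
        (tube n v ((n : ℝ) ^ (2 : ℝ))))) atTop = 1 := by
      intro x
      have h3 : Tendsto (fun n : ℕ => ENNReal.ofReal (frProb β h (fun i y => ω i y x)
        (tube n v ((n : ℝ) ^ (2 : ℝ))))) atTop (𝓝 1) := by
        apply tendsto_const_nhds.congr'
        filter_upwards [tube_univ v] with n hn
        rw [hn]
        have : frProb β h (fun i y => ω i y x) (univ : Set (Fin n → Step d)) = 1 := by
          unfold frProb
          rw [div_eq_one_iff_eq (Zd_pos _ _ _ _).ne']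
          unfold Zd
          simp
        rw [this, ENNReal.ofReal_one]
      exact h3.liminf_eq
    simp_rw [h2]
    simp
  have hle1 : ∀ (A : (n : ℕ) → Set (Fin n → Step d)) (n : ℕ),
      ∫⁻ x, ENNReal.ofReal (frProb β h (fun i y => ω i y x) (A n)) ∂P ≤ 1 := by
    intro A n
    calc ∫⁻ x, ENNReal.ofReal (frProb β h (fun i y => ω i y x) (A n)) ∂P ≤ ∫⁻ _x, 1 ∂P := by
          refine lintegral_mono fun x => ?_
          rw [← ENNReal.ofReal_one]
          exact ENNReal.ofReal_le_ofReal (frProb_le_one' _ _ _ _)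
      _ = 1 := by simp
  have h1 : (1 : ENNReal) ≤ liminf (fun n : ℕ => ∫⁻ x, ENNReal.ofReal (frProb β h
      (fun i y => ω i y x) (tube n v ((n : ℝ) ^ b))) ∂P) atTop := by
    rw [← hb]
    exact lintegral_liminf_le fun n => (measurable_frProb hmeas β h _).ennreal_ofReal
  have h2 : Tendsto (fun n : ℕ => ∫⁻ x, ENNReal.ofReal (frProb β h
      (fun i y => ω i y x) (tube n v ((n : ℝ) ^ b))) ∂P) atTop (𝓝 1) := by
    apply tendsto_of_le_liminf_of_limsup_le h1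
    · exact limsup_le_of_le (h := Eventually.of_forall fun n =>
        hle1 (fun n => tube n v ((n : ℝ) ^ b)) n)
  have h4 : Tendsto (fun n : ℕ => ∫⁻ x, ENNReal.ofReal (frProb β h
      (fun i y => ω i y x) (tube n v ((n : ℝ) ^ a))) ∂P) atTop (𝓝 1) := by
    refine tendsto_of_tendsto_of_tendsto_of_le_of_le' h2 tendsto_const_nhds ?_
      (Eventually.of_forall fun n => hle1 (fun n => tube n v ((n : ℝ) ^ a)) n)
    filter_upwards [eventually_ge_atTop 1] with n hn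
    refine lintegral_mono fun x => ENNReal.ofReal_le_ofReal (frProb_mono _ _ _ ?_)
    intro w hw' i hi
    exact (hw' i hi).trans (Real.rpow_le_rpow_of_exponent_le (by exact_mod_cast hn) hba.le)
  have h5 : ∀ n : ℕ, ∫ x, frProb β h (fun i y => ω i y x) (tube n v ((n : ℝ) ^ a)) ∂P =
      (∫⁻ x, ENNReal.ofReal (frProb β h (fun i y => ω i y x)
        (tube n v ((n : ℝ) ^ a))) ∂P).toReal := by
    intro n
    rw [integral_eq_lintegral_of_nonneg_ae (Eventually.of_forall fun x => frProb_nonneg' _ _ _ _)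
      (measurable_frProb hmeas β h _).aestronglyMeasurable]
  simp_rw [h5]
  have h6 := (ENNReal.tendsto_toReal ENNReal.one_ne_top).comp h4
  rw [ENNReal.toReal_one] at h6
  exact h6

lemma tube_win (n : ℕ) (v : Fin d → ℝ) (R : ℝ) : tube n v R ⊆ win n v R := by
  intro w hw k
  refine le_trans ?_ (hw n le_rfl)
  apply Real.le_sqrt_of_sq_le
  rw [sq_abs]
  exact Finset.single_le_sum (f := fun k => ((pos w n k : ℝ) - n * v k) ^ 2)
    (fun _ _ => sq_nonneg _) (Finset.mem_univ k)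

/-- dimension of the slopes with wandering exponent less than `a` -/
lemma wander_dim_lt [NeZero d] (hmeas : ∀ i y, Measurable (ω i y)) (β : ℝ) {a : ℝ} (ha : 0 < a)
    (ha1 : a < 1) :
    dimH {v : Fin d → ℝ | ∃ h, Pool.Agent.K1H38.DP.wanderingExp P ω β h v < a} ≤
      ENNReal.ofReal (d * (a / (1 - a))) := by
  have hsub : {v : Fin d → ℝ | ∃ h, Pool.Agent.K1H38.DP.wanderingExp P ω β h v < a} ⊆
      ⋃ N : ℕ, Prod.snd '' CS P ω β a N := by
    rintro v ⟨h, hv⟩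
    have h1 := conf_rpow (P := P) hmeas hv
    have h2 := h1.eventually (lt_mem_nhds (by norm_num : (7 / 8 : ℝ) < 1))
    obtain ⟨N, hN⟩ := eventually_atTop.1 h2
    refine mem_iUnion.2 ⟨N, (h, v), fun n hn => ?_, rfl⟩
    refine (hN n hn).le.trans ?_
    exact integral_mono (integrable_frProb (P := P) hmeas β h _)
      (integrable_frProb (P := P) hmeas β h _) fun _ => frProb_mono _ _ _ (tube_win n v _)
  refine (dimH_mono hsub).trans ?_
  rw [dimH_iUnion]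
  exact iSup_le fun N => cs_dim (P := P) hmeas β ha ha1 N

/-- dimension of the slopes with wandering exponent at most `κ` -/
theorem wander_dim [NeZero d] (hmeas : ∀ i y, Measurable (ω i y)) (β : ℝ) {κ : ℝ} (hκ : 0 ≤ κ)
    (hκ1 : κ < 1) :
    dimH {v : Fin d → ℝ | ∃ h, Pool.Agent.K1H38.DP.wanderingExp P ω β h v ≤ κ} ≤
      ENNReal.ofReal (d * (κ / (1 - κ))) := by
  have h1 : Tendsto (fun a : ℝ => ENNReal.ofReal (d * (a / (1 - a)))) (𝓝[>] κ)
      (𝓝 (ENNReal.ofReal (d * (κ / (1 - κ))))) := by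
    apply ENNReal.tendsto_ofReal
    have h2 : ContinuousAt (fun a : ℝ => (d : ℝ) * (a / (1 - a))) κ := by
      apply ContinuousAt.mul continuousAt_const
      apply ContinuousAt.div continuousAt_id (by fun_prop)
      have : 0 < 1 - κ := by linarith
      exact this.ne'
    exact h2.tendsto.mono_left nhdsWithin_le_nhds
  apply ge_of_tendsto h1
  have h3 : Ioo κ 1 ∈ 𝓝[>] κ := Ioo_mem_nhdsGT hκ1
  filter_upwards [h3] with a ha
  refine le_trans (dimH_mono ?_) (wander_dim_lt (P := P) hmeas β (hκ.trans_lt ha.1) ha.2)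
  rintro v ⟨h, hv⟩
  exact ⟨h, hv.trans_lt ha.1⟩

end Pool.Agent.H97.NS
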