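import Pool.Agent.H97.NS.DimGen
import Pool.Graph.R_pool_sql_team_seeded_63374d34.N662.SE.Main
import Pool.Graph.R_pool_sql_team_seeded_63374d34.N413.SE.ZOD
import Pool.Graph.R_pool_sql_team_seeded_63374d34.N692.SD.AC

/-!
Independent environments: Hausdorff dimension of the slopes with a small wandering exponent.
-/

open MeasureTheory ProbabilityTheory TH967.DP Filter Set
open scoped Topology NNReal ENNReal
open Pool.Agent.N662.SD (pow_dom gap inter_ge ev_large)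

set_option linter.unusedSectionVars false
set_option autoImplicit false

namespace Pool.Agent.H97.NS

variable {d : ℕ} {Ω : Type} [MeasurableSpace Ω] {P : Measure Ω} [IsProbabilityMeasure P]
  {ω : ℕ → (Fin d → ℤ) → Ω → ℝ}

/-- pairs of a drift and a slope which are confined from time `N` on -/
def SI (P : Measure Ω) (ω : ℕ → (Fin d → ℤ) → Ω → ℝ) (β θ a c : ℝ) (N : ℕ) :
    Set ((Fin d → ℝ) × (Fin d → ℝ)) :=
  {z | ∀ n : ℕ, N ≤ n → 3 / 4 ≤ P.real (Pool.Agent.N662.SE.ev ω β θ a c z.2 z.1 n)}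

lemma sep_time2 {a δ : ℝ} (ha : 0 < a) (ha1 : a < 1) (hδ : 0 < δ) {N : ℕ} (hN : 1 ≤ N)
    (hδN : δ ≤ 4 / N) : ∃ n : ℕ, N ≤ n ∧ 4 * (n : ℝ) ^ a < n * δ ∧ n * δ ≤ 8 * (n : ℝ) ^ a ∧
      (n : ℝ) ^ a ≤ 2 * (4 / δ) ^ (a / (1 - a)) := by
  have hN0 : (0 : ℝ) < N := by exact_mod_cast hN
  obtain ⟨n, h1, h2, h3, h4, -⟩ := sep_time ha ha1 (half_pos hδ) hN (by
    rw [le_div_iff₀ hN0] at hδN ⊢; linarith)
  refine ⟨n, h1, by linarith, by linarith, ?_⟩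
  have : 2 / (δ / 2) = 4 / δ := by field_simp; norm_num
  rwa [this] at h4

/-- two confined pairs at a time at which their tubes are disjoint -/
lemma iid_pair (hd : 1 ≤ d) (he : Pool.Agent.N662.SE.IsEnv P ω)
    {a₀ b₀ : ℝ} (hab : a₀ < b₀)
    (hp : 0 < (P.map (ω 1 0)).real (Set.Ici b₀)) (hm : 0 < (P.map (ω 1 0)).real (Set.Iic a₀))
    {β : ℝ} (hβ : 0 < β) {θ a c : ℝ} (hθ1 : 1 / 2 ≤ θ) (hθ2 : θ < 1) (ha0 : 0 ≤ a)
    {z z' : (Fin d → ℝ) × (Fin d → ℝ)} (hmono : 0 ≤ ip (z'.1 - z.1) (z'.2 - z.2))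
    {n : ℕ} (hn : 1 ≤ n) (hz : 3 / 4 ≤ P.real (Pool.Agent.N662.SE.ev ω β θ a c z.2 z.1 n))
    (hz' : 3 / 4 ≤ P.real (Pool.Agent.N662.SE.ev ω β θ a c z'.2 z'.1 n))
    {k : Fin d} (hk : 4 * (n : ℝ) ^ a < n * |z'.2 k - z.2 k|) :
    (1 - θ) * ((1 - Real.exp (-(β * (b₀ - a₀)))) ^ 2 / 4) * n ≤
      3 ^ d * (1 / (P.map (ω 1 0)).real (Set.Ici b₀) + 1 / (P.map (ω 1 0)).real (Set.Iic a₀)) *
      (n * ip (z'.1 - z.1) (z'.2 - z.2) + 2 * l1 (z'.1 - z.1) * (n : ℝ) ^ a +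
        2 * (n : ℝ) ^ c + 2) ^ 2 * (n : ℝ) ^ (d * a) := by
  set K0 := 1 / (P.map (ω 1 0)).real (Set.Ici b₀) + 1 / (P.map (ω 1 0)).real (Set.Iic a₀) with hK0
  have hK0pos : 0 < K0 := by positivity
  set q := 1 - Real.exp (-(β * (b₀ - a₀))) with hq
  have hqpos : 0 < q := by
    rw [hq]
    have : Real.exp (-(β * (b₀ - a₀))) < 1 := by
      rw [← Real.exp_zero]
      apply Real.exp_lt_exp.2
      have := mul_pos hβ (sub_pos.2 hab)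
      linarith
    linarith
  have hn2 : (1 : ℝ) ≤ n := by exact_mod_cast hn
  have hn3 : (0 : ℝ) < n := by linarith
  have hna : 0 < (n : ℝ) ^ a := Real.rpow_pos_of_pos hn3 _
  have hnc : 0 < (n : ℝ) ^ c := Real.rpow_pos_of_pos hn3 _
  have hl := l1_nonneg (z'.1 - z.1)
  set R : ℝ := n * ip (z'.1 - z.1) (z'.2 - z.2) + 2 * l1 (z'.1 - z.1) * (n : ℝ) ^ a +
    2 * (n : ℝ) ^ c with hR
  have hR0 : 0 ≤ R := by
    have h1 : 0 ≤ n * ip (z'.1 - z.1) (z'.2 - z.2) := mul_nonneg hn3.le hmono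
    have h2 : 0 ≤ 2 * l1 (z'.1 - z.1) * (n : ℝ) ^ a := by positivity
    rw [hR]; linarith
  have hvv : ∀ i : ℕ, θ * n ≤ i → 1 ≤ i → i ≤ n →
      ∃ k, 2 * (n : ℝ) ^ a < i * |z'.2 k - z.2 k| := by
    intro i hi _ _
    refine ⟨k, ?_⟩
    have h1 : (n : ℝ) / 2 ≤ i := by nlinarith
    calc 2 * (n : ℝ) ^ a < n / 2 * |z'.2 k - z.2 k| := by linarith
      _ ≤ i * |z'.2 k - z.2 k| := mul_le_mul_of_nonneg_right h1 (abs_nonneg _)
  have hR2 : n * (∑ k, (z'.1 k - z.1 k) * (z'.2 k - z.2 k)) +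
      2 * (∑ k, |z'.1 k - z.1 k|) * (n : ℝ) ^ a + 2 * (n : ℝ) ^ c ≤ R := le_rfl
  have key := Pool.Agent.N662.SE.pair_bound hd Pool.Agent.N692.SD.AC.main he hab hp hm hβ hθ2.le
    hvv hR0 hR2
  have hhalf : 1 / 2 ≤ P.real {x | Real.exp (-(n : ℝ) ^ c) <
      Pool.Agent.N662.SE.prob β z.1 (fun i y => ω i y x) n
        (Pool.Agent.N662.SE.tube θ z.2 ((n : ℝ) ^ a) n) ∧
      Real.exp (-(n : ℝ) ^ c) <
      Pool.Agent.N662.SE.prob β z'.1 (fun i y => ω i y x) n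
        (Pool.Agent.N662.SE.tube θ z'.2 ((n : ℝ) ^ a) n)} :=
    inter_ge (Pool.Agent.N662.SE.measurableSet_ev he.meas β θ a c z'.2 z'.1 n) hz hz'
  set ρ : ℝ := ((Pool.Agent.N662.SE.rows θ n).card : ℝ) with hρ
  have hρ1 : (1 - θ) * n ≤ ρ := Pool.Agent.N662.SE.rows_card_ge (by linarith) n
  have hρ0 : 0 < ρ := lt_of_lt_of_le (mul_pos (by linarith) hn3) hρ1
  set W : ℝ := (3 * (n : ℝ) ^ a) ^ d with hW
  have hW0 : 0 < W := by positivity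
  have hwin : ((Pool.Agent.N662.SE.win θ z.2 ((n : ℝ) ^ a) n).card : ℝ) ≤ ρ * W := by
    refine (Pool.Agent.N662.SE.card_win_le hna.le).trans ?_
    apply mul_le_mul_of_nonneg_left _ hρ0.le
    have : 1 ≤ (n : ℝ) ^ a := Real.one_le_rpow hn2 ha0
    exact pow_le_pow_left₀ (by positivity) (by linarith) d
  have k1 : ρ * q * (1 / 2) ≤ (R + 2) * Real.sqrt (ρ * W * K0) := by
    calc ρ * q * (1 / 2) ≤ _ := mul_le_mul_of_nonneg_left hhalf (by positivity)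
      _ ≤ _ := key
      _ ≤ (R + 2) * Real.sqrt (ρ * W * K0) := by
        apply mul_le_mul_of_nonneg_left _ (by linarith)
        apply Real.sqrt_le_sqrt
        exact mul_le_mul_of_nonneg_right hwin hK0pos.le
  have k2 : (ρ * q * (1 / 2)) ^ 2 ≤ (R + 2) ^ 2 * (ρ * W * K0) := by
    have h1 : (0 : ℝ) ≤ ρ * W * K0 := by positivity
    calc (ρ * q * (1 / 2)) ^ 2 ≤ ((R + 2) * Real.sqrt (ρ * W * K0)) ^ 2 :=
          pow_le_pow_left₀ (by positivity) k1 2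
      _ = _ := by rw [mul_pow, Real.sq_sqrt h1]
  have k3 : ρ * (q ^ 2 / 4) ≤ K0 * (R + 2) ^ 2 * W := by
    have h1 : ρ * (ρ * (q ^ 2 / 4)) ≤ ρ * (K0 * (R + 2) ^ 2 * W) := by
      calc ρ * (ρ * (q ^ 2 / 4)) = (ρ * q * (1 / 2)) ^ 2 := by ring
        _ ≤ _ := k2
        _ = _ := by ring
    exact le_of_mul_le_mul_left h1 hρ0
  have k4 : W = 3 ^ d * (n : ℝ) ^ (d * a) := by
    rw [hW, mul_pow, ← Real.rpow_natCast ((n : ℝ) ^ a) d, ← Real.rpow_mul hn3.le]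
    congr 2
    ring
  calc (1 - θ) * (q ^ 2 / 4) * n = (1 - θ) * n * (q ^ 2 / 4) := by ring
    _ ≤ ρ * (q ^ 2 / 4) := mul_le_mul_of_nonneg_right hρ1 (by positivity)
    _ ≤ K0 * (R + 2) ^ 2 * W := k3
    _ = _ := by rw [k4]; ring

/-- confined pairs: the drift varies at least like a power of the slope -/
lemma si_lower (hd : 1 ≤ d) (he : Pool.Agent.N662.SE.IsEnv P ω)
    (hnc : ¬ ∃ c : ℝ, ∀ᵐ x ∂P, ω 1 0 x = c) {β : ℝ} (hβ : 0 < β) {θ a c : ℝ}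
    (hθ1 : 1 / 2 ≤ θ) (hθ2 : θ < 1) (ha0 : 0 < a) (ha1 : a < 1) (hc0 : 0 < c)
    (hc : c < (1 - d * a) / 2) (hγ : 0 < ((d + 2) * a - 1) / 2) :
    ∃ c₂ : ℝ, 0 < c₂ ∧ ∃ N₁ : ℕ, 1 ≤ N₁ ∧ ∀ N : ℕ, N₁ ≤ N → ∀ z ∈ SI P ω β θ a c N,
      ∀ z' ∈ SI P ω β θ a c N, 0 ≤ ip (z'.1 - z.1) (z'.2 - z.2) → z.2 ≠ z'.2 →
      ‖z'.2 - z.2‖ ≤ 4 / N →
      c₂ * ‖z'.2 - z.2‖ ^ (((d + 2) * a - 1) / 2 / (1 - a)) ≤ ‖z'.1 - z.1‖ := by
  have : NeZero d := ⟨by omega⟩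
  have hd0 : (0 : ℝ) < d := by exact_mod_cast hd
  obtain ⟨a₀, b₀, hab, hp, hm⟩ := gap (he.meas 1 0) hnc
  have h1a : 0 < 1 - a := by linarith
  set K0 := 1 / (P.map (ω 1 0)).real (Set.Ici b₀) + 1 / (P.map (ω 1 0)).real (Set.Iic a₀) with hK0
  have hK0pos : 0 < K0 := by positivity
  set q := 1 - Real.exp (-(β * (b₀ - a₀))) with hq
  have hqpos : 0 < q := by
    rw [hq]
    have : Real.exp (-(β * (b₀ - a₀))) < 1 := by
      rw [← Real.exp_zero]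
      apply Real.exp_lt_exp.2
      have := mul_pos hβ (sub_pos.2 hab)
      linarith
    linarith
  set s : ℝ := (1 - d * a) / 2 with hs
  have hs0 : 0 < s := by linarith
  set c₁ : ℝ := Real.sqrt ((1 - θ) * (q ^ 2 / 4) / (3 ^ d * K0)) with hc₁
  have h1θ : 0 < 1 - θ := by linarith
  have hc₁pos : 0 < c₁ := by rw [hc₁]; positivity
  have hc₁sq : c₁ ^ 2 * (3 ^ d * K0) = (1 - θ) * (q ^ 2 / 4) := by
    rw [hc₁, Real.sq_sqrt (by positivity)]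
    field_simp
  set γ : ℝ := ((d + 2) * a - 1) / 2 with hγdef
  have hγs : s - a = -γ := by rw [hs, hγdef]; ring
  set A : ℝ := (2 : ℝ) ^ (-(γ / a)) * 4 ^ (-(γ / (1 - a))) with hA
  have hA0 : 0 < A := by rw [hA]; positivity
  obtain ⟨N₁, hN₁⟩ := eventually_atTop.1 (pow_dom hc (8 / c₁))
  refine ⟨c₁ / 20 * A / d, by positivity, max N₁ 1, le_max_right _ _, ?_⟩
  intro N hN z hz z' hz' hmono hne hρ
  have hN1 : 1 ≤ N := (le_max_right _ _).trans hN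
  set δ : ℝ := ‖z'.2 - z.2‖ with hδdef
  have hδ : 0 < δ := by
    rw [hδdef, norm_pos_iff, sub_ne_zero]; exact hne.symm
  obtain ⟨k, hk⟩ := exists_coord (v := z.2) (v' := z'.2)
  obtain ⟨n, hn, hn1, hn2, hn3⟩ := sep_time2 ha0 ha1 hδ hN1 hρ
  have hn1' : 1 ≤ n := hN1.trans hn
  have hnR : (1 : ℝ) ≤ n := by exact_mod_cast hn1'
  have hn0 : (0 : ℝ) < n := by linarith
  have hB := iid_pair hd he hab hp hm hβ (c := c) hθ1 hθ2 ha0.le hmono hn1' (hz n hn) (hz' n hn)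
    (k := k) (by rw [hk]; exact hn1)
  rw [← hK0, ← hq] at hB
  set l := l1 (z'.1 - z.1) with hl
  have hl0 : 0 ≤ l := l1_nonneg _
  set X : ℝ := n * ip (z'.1 - z.1) (z'.2 - z.2) + 2 * l * (n : ℝ) ^ a + 2 * (n : ℝ) ^ c + 2 with hX
  have hna : 0 < (n : ℝ) ^ a := Real.rpow_pos_of_pos hn0 _
  have hX0 : 0 ≤ X := by
    have h1 : 0 ≤ n * ip (z'.1 - z.1) (z'.2 - z.2) := mul_nonneg hn0.le hmono
    positivity
  -- X is large
  have h1 : c₁ * (n : ℝ) ^ s ≤ X := by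
    apply le_of_sq_le_sq _ hX0
    have e1 : ((n : ℝ) ^ s) ^ 2 * (n : ℝ) ^ (d * a) = n := by
      rw [← Real.rpow_natCast ((n : ℝ) ^ s) 2, ← Real.rpow_mul hn0.le, ← Real.rpow_add hn0]
      have : s * ((2 : ℕ) : ℝ) + d * a = 1 := by rw [hs]; push_cast; ring
      rw [this, Real.rpow_one]
    have h2 : 3 ^ d * K0 * (n : ℝ) ^ (d * a) * (c₁ * (n : ℝ) ^ s) ^ 2 ≤
        3 ^ d * K0 * (n : ℝ) ^ (d * a) * X ^ 2 := by
      calc 3 ^ d * K0 * (n : ℝ) ^ (d * a) * (c₁ * (n : ℝ) ^ s) ^ 2 =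
          (c₁ ^ 2 * (3 ^ d * K0)) * (((n : ℝ) ^ s) ^ 2 * (n : ℝ) ^ (d * a)) := by ring
        _ = (1 - θ) * (q ^ 2 / 4) * n := by rw [hc₁sq, e1]
        _ ≤ _ := hB
        _ = _ := by ring
    exact le_of_mul_le_mul_left h2 (by positivity)
  have h2 : 2 * (n : ℝ) ^ c + 2 ≤ c₁ / 2 * (n : ℝ) ^ s := by
    have h3 := hN₁ n (((le_max_left _ _).trans hN).trans hn)
    have h4 : 1 ≤ (n : ℝ) ^ c := Real.one_le_rpow hnR hc0.le
    rw [div_mul_eq_mul_div, div_le_iff₀ hc₁pos] at h3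
    linarith
  have h3 : n * ip (z'.1 - z.1) (z'.2 - z.2) ≤ l * (8 * (n : ℝ) ^ a) := by
    calc n * ip (z'.1 - z.1) (z'.2 - z.2) ≤ n * (l * δ) :=
          mul_le_mul_of_nonneg_left (ip_le_l1 _ _) hn0.le
      _ = l * (n * δ) := by ring
      _ ≤ l * (8 * (n : ℝ) ^ a) := mul_le_mul_of_nonneg_left hn2 hl0
  have h4 : c₁ / 2 * (n : ℝ) ^ s ≤ 10 * l * (n : ℝ) ^ a := by
    rw [hX] at h1
    linarith
  have h5 : c₁ / 20 * (n : ℝ) ^ (-γ) ≤ l := by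
    have e1 : (n : ℝ) ^ s = (n : ℝ) ^ (-γ) * (n : ℝ) ^ a := by
      rw [← Real.rpow_add hn0]; congr 1; linarith
    rw [e1] at h4
    have h6 : (c₁ / 2 * (n : ℝ) ^ (-γ)) * (n : ℝ) ^ a ≤ (10 * l) * (n : ℝ) ^ a := by linarith
    have h7 := le_of_mul_le_mul_right h6 hna
    linarith
  have h6 : A * δ ^ (γ / (1 - a)) ≤ (n : ℝ) ^ (-γ) := by
    have hγa : 0 ≤ γ / a := by positivity
    have e1 : (n : ℝ) ^ (-γ) = ((n : ℝ) ^ a) ^ (-(γ / a)) := by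
      rw [← Real.rpow_mul hn0.le]; congr 1; field_simp
    have h7 : (2 * (4 / δ) ^ (a / (1 - a))) ^ (-(γ / a)) ≤ ((n : ℝ) ^ a) ^ (-(γ / a)) := by
      rw [Real.rpow_neg (by positivity), Real.rpow_neg (by positivity)]
      apply inv_anti₀ (by positivity)
      exact Real.rpow_le_rpow hna.le hn3 hγa
    have e2 : (2 * (4 / δ) ^ (a / (1 - a))) ^ (-(γ / a)) = A * δ ^ (γ / (1 - a)) := by
      rw [Real.mul_rpow (by norm_num) (by positivity), ← Real.rpow_mul (by positivity)]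
      have e3 : a / (1 - a) * -(γ / a) = -(γ / (1 - a)) := by field_simp
      rw [e3, Real.div_rpow (by norm_num) hδ.le, Real.rpow_neg hδ.le (γ / (1 - a)), hA]
      field_simp
    rw [e1, ← e2]
    exact h7
  have h7 := l1_le_norm (z'.1 - z.1)
  rw [← hl] at h7
  calc c₁ / 20 * A / d * δ ^ (γ / (1 - a)) = c₁ / 20 * (A * δ ^ (γ / (1 - a))) / d := by ring
    _ ≤ c₁ / 20 * (n : ℝ) ^ (-γ) / d := by gcongr
    _ ≤ l / d := by gcongr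
    _ ≤ ‖z'.1 - z.1‖ := by rw [div_le_iff₀ hd0]; linarith

/-- dimension of the exceptional slopes, one choice of the parameters -/
lemma bad_dim (hd : 1 ≤ d) (he : Pool.Agent.N662.SE.IsEnv P ω)
    (hnc : ¬ ∃ c : ℝ, ∀ᵐ x ∂P, ω 1 0 x = c) {β : ℝ} (hβ : 0 < β) {θ a c : ℝ}
    (hθ1 : 1 / 2 ≤ θ) (hθ2 : θ < 1) (hc0 : 0 < c)
    (hc : c < (1 - d * a) / 2) (hγ : 1 / ((d : ℝ) + 2) < a) :
    dimH (Pool.Agent.N662.SE.bad P ω β θ a c) ≤
      ENNReal.ofReal (d * (((d + 2) * a - 1) / 2 / (1 - a))) := by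
  have : NeZero d := ⟨by omega⟩
  have hdR : (1 : ℝ) ≤ d := by exact_mod_cast hd
  have ha0 : 0 < a := lt_trans (by positivity) hγ
  have ha1 : a < 1 := by nlinarith
  have hc1 : c < 1 := by nlinarith
  have hγ' : 0 < ((d + 2) * a - 1) / 2 := by
    rw [div_lt_iff₀ (by linarith)] at hγ
    linarith
  obtain ⟨c₂, hc₂, N₁, hN₁, H⟩ := si_lower hd he hnc hβ hθ1 hθ2 ha0 ha1 hc0 hc hγ'
  have hsub : Pool.Agent.N662.SE.bad P ω β θ a c ⊆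
      ⋃ N : ℕ, Prod.snd '' SI P ω β θ a c (max N N₁) := by
    rintro v ⟨h, hv⟩
    obtain ⟨N, hN⟩ := eventually_atTop.1 hv
    exact mem_iUnion.2 ⟨N, (h, v), fun n hn => hN n ((le_max_left _ _).trans hn), rfl⟩
  refine (dimH_mono hsub).trans ?_
  rw [dimH_iUnion]
  refine iSup_le fun N => ?_
  have hM1 : 1 ≤ max N N₁ := hN₁.trans (le_max_right _ _)
  have hM0 : (0 : ℝ) < ((max N N₁ : ℕ) : ℝ) := by exact_mod_cast hM1
  have hmono : ∀ z ∈ SI P ω β θ a c (max N N₁), ∀ z' ∈ SI P ω β θ a c (max N N₁),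
      0 ≤ ip (z'.1 - z.1) (z'.2 - z.2) := fun z hz z' hz' =>
    Pool.Agent.N662.SE.mono_of hd he (θ := θ) hθ2.le ha1 hc1
      (eventually_atTop.2 ⟨_, hz⟩) (eventually_atTop.2 ⟨_, hz'⟩)
  refine dim_mono (SI P ω β θ a c (max N N₁)) hd (c := c₂)
    (α := ((d + 2) * a - 1) / 2 / (1 - a)) (ρ := 4 / ((max N N₁ : ℕ) : ℝ))
    hc₂ (div_pos hγ' (by linarith)) (by positivity) hmono ?_
  intro z hz z' hz' hne hρ
  exact H _ (le_max_right _ _) z hz z' hz' (hmono z hz z' hz') hne hρ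

end Pool.Agent.H97.NS
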