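import Pool.Agent.H97.NS.Gen
import Mathlib.Topology.MetricSpace.HausdorffDimension

/-!
Hausdorff dimension of the slopes of a Hölder monotone relation.
-/

open MeasureTheory Filter Set
open scoped Topology NNReal ENNReal

set_option linter.unusedSectionVars false
set_option autoImplicit false

namespace Pool.Agent.H97.NS

variable {d : ℕ}

/-- a relation whose second coordinate is a Hölder function of the sum of both -/
lemma dim_rel (S : Set ((Fin d → ℝ) × (Fin d → ℝ))) {C r : ℝ} (hC : 0 ≤ C) (hr : 0 < r)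
    (H : ∀ z ∈ S, ∀ z' ∈ S, ‖z'.2 - z.2‖ ≤ C * ‖(z'.1 + z'.2) - (z.1 + z.2)‖ ^ r) :
    dimH (Prod.snd '' S) ≤ ENNReal.ofReal (d / r) := by
  classical
  set T : Set (Fin d → ℝ) := (fun z : (Fin d → ℝ) × (Fin d → ℝ) => z.1 + z.2) '' S with hT
  have hch : ∀ z : Fin d → ℝ, ∃ w : (Fin d → ℝ) × (Fin d → ℝ), z ∈ T → w ∈ S ∧ w.1 + w.2 = z := by
    intro z
    by_cases hz : z ∈ T
    · obtain ⟨w, hw, hwz⟩ := hz
      exact ⟨w, fun _ => ⟨hw, hwz⟩⟩
    · exact ⟨0, fun h => absurd h hz⟩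
  choose g hg using hch
  set f : (Fin d → ℝ) → (Fin d → ℝ) := fun z => (g z).2 with hf
  have hsub : Prod.snd '' S ⊆ f '' T := by
    rintro v ⟨w, hw, rfl⟩
    refine ⟨w.1 + w.2, ⟨w, hw, rfl⟩, ?_⟩
    obtain ⟨h1, h2⟩ := hg (w.1 + w.2) ⟨w, hw, rfl⟩
    have h3 := H w hw _ h1
    rw [h2, sub_self, norm_zero, Real.zero_rpow hr.ne', mul_zero] at h3
    have h4 : (g (w.1 + w.2)).2 - w.2 = 0 := norm_le_zero_iff.1 h3
    exact sub_eq_zero.1 h4
  have hH : HolderOnWith C.toNNReal r.toNNReal f T := by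
    intro x hx y hy
    obtain ⟨h1, h2⟩ := hg x hx
    obtain ⟨h3, h4⟩ := hg y hy
    have h5 := H _ h3 _ h1
    rw [h2, h4] at h5
    rw [edist_dist, edist_dist, dist_eq_norm, dist_eq_norm, ENNReal.ofReal_rpow_of_nonneg
      (norm_nonneg _) (NNReal.coe_nonneg _), Real.coe_toNNReal r hr.le,
      ← ENNReal.ofReal_coe_nnreal, Real.coe_toNNReal C hC, ← ENNReal.ofReal_mul hC]
    exact ENNReal.ofReal_le_ofReal h5
  have hr' : 0 < r.toNNReal := Real.toNNReal_pos.2 hr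
  calc dimH (Prod.snd '' S) ≤ dimH (f '' T) := dimH_mono hsub
    _ ≤ dimH T / (r.toNNReal : ℝ≥0∞) := hH.dimH_image_le hr'
    _ ≤ (d : ℝ≥0∞) / (r.toNNReal : ℝ≥0∞) := by
        apply ENNReal.div_le_div_right
        exact (dimH_mono (subset_univ T)).trans (Real.dimH_univ_pi_fin d).le
    _ = ENNReal.ofReal (d / r) := by
        rw [ENNReal.ofReal_div_of_pos hr, ENNReal.ofReal_natCast]
        rfl

/-- Euclidean estimate behind the Minty map -/
lemma minty {h h' v v' : Fin d → ℝ} (hm : 0 ≤ ip (h' - h) (v' - v)) (k : Fin d) :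
    |h' k - h k| ≤ d * ‖(h' + v') - (h + v)‖ := by
  have hd : (1 : ℝ) ≤ d := by
    have : 0 < d := k.pos
    exact_mod_cast this
  apply abs_le_of_sq_le_sq _ (by positivity)
  have h1 : (h' k - h k) ^ 2 ≤ ∑ j, (h' j - h j) ^ 2 :=
    Finset.single_le_sum (f := fun j => (h' j - h j) ^ 2) (fun _ _ => sq_nonneg _)
      (Finset.mem_univ k)
  have h2 : ∑ j, (h' j - h j) ^ 2 ≤ ∑ j, ((h' + v') j - (h + v) j) ^ 2 := by
    have e : ∑ j, ((h' + v') j - (h + v) j) ^ 2 = ∑ j, (h' j - h j) ^ 2 +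
        2 * ip (h' - h) (v' - v) + ∑ j, (v' j - v j) ^ 2 := by
      unfold ip
      rw [Finset.mul_sum, ← Finset.sum_add_distrib, ← Finset.sum_add_distrib]
      refine Finset.sum_congr rfl fun j _ => ?_
      simp only [Pi.add_apply, Pi.sub_apply]
      ring
    have h3 : 0 ≤ ∑ j, (v' j - v j) ^ 2 := Finset.sum_nonneg fun _ _ => sq_nonneg _
    linarith
  have h4 : ∑ j, ((h' + v') j - (h + v) j) ^ 2 ≤ d * ‖(h' + v') - (h + v)‖ ^ 2 := by
    calc ∑ j, ((h' + v') j - (h + v) j) ^ 2 ≤ ∑ _j : Fin d, ‖(h' + v') - (h + v)‖ ^ 2 := by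
          refine Finset.sum_le_sum fun j _ => ?_
          rw [← sq_abs]
          exact pow_le_pow_left₀ (abs_nonneg _) (norm_le_pi_norm ((h' + v') - (h + v)) j) 2
      _ = _ := by simp
  have h5 : (d : ℝ) * ‖(h' + v') - (h + v)‖ ^ 2 ≤ (d * ‖(h' + v') - (h + v)‖) ^ 2 := by
    rw [mul_pow]
    apply mul_le_mul_of_nonneg_right _ (sq_nonneg _)
    nlinarith
  linarith

/-- dimension of the slopes of a monotone relation with `‖Δh‖ ≥ c ‖Δv‖^α` locally -/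
lemma dim_mono (S : Set ((Fin d → ℝ) × (Fin d → ℝ))) {c α ρ : ℝ} (hd : 1 ≤ d) (hc : 0 < c)
    (hα : 0 < α) (hρ : 0 < ρ)
    (hm : ∀ z ∈ S, ∀ z' ∈ S, 0 ≤ ip (z'.1 - z.1) (z'.2 - z.2))
    (H : ∀ z ∈ S, ∀ z' ∈ S, z.2 ≠ z'.2 → ‖z'.2 - z.2‖ ≤ ρ →
      c * ‖z'.2 - z.2‖ ^ α ≤ ‖z'.1 - z.1‖) :
    dimH (Prod.snd '' S) ≤ ENNReal.ofReal (d * α) := by
  have hd0 : (0 : ℝ) < d := by exact_mod_cast hd
  -- local pieces
  set q : ℕ → (Fin d → ℝ) := TopologicalSpace.denseSeq (Fin d → ℝ) with hq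
  set T : ℕ → Set ((Fin d → ℝ) × (Fin d → ℝ)) := fun i =>
    {z ∈ S | dist z.2 (q i) < ρ / 2} with hT
  have hcov : Prod.snd '' S ⊆ ⋃ i, Prod.snd '' T i := by
    rintro v ⟨z, hz, rfl⟩
    obtain ⟨i, hi⟩ := (TopologicalSpace.denseRange_denseSeq (Fin d → ℝ)).exists_dist_lt z.2
      (half_pos hρ)
    exact mem_iUnion.2 ⟨i, z, ⟨hz, hi⟩, rfl⟩
  refine (dimH_mono hcov).trans ?_
  rw [dimH_iUnion]
  refine iSup_le fun i => ?_
  have e : (d : ℝ) * α = d / (1 / α) := by field_simp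
  rw [e]
  refine dim_rel (T i) (C := (d / c) ^ (1 / α)) (by positivity) (by positivity) ?_
  intro z hz z' hz'
  by_cases hne : z.2 = z'.2
  · rw [hne, sub_self, norm_zero]
    positivity
  have hdist : ‖z'.2 - z.2‖ ≤ ρ := by
    rw [← dist_eq_norm]
    have h1 := dist_triangle_right z'.2 z.2 (q i)
    linarith [hz.2, hz'.2]
  have h1 := H z hz.1 z' hz'.1 hne hdist
  have h2 := hm z hz.1 z' hz'.1
  have h3 : ‖z'.1 - z.1‖ ≤ d * ‖(z'.1 + z'.2) - (z.1 + z.2)‖ := by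
    rw [pi_norm_le_iff_of_nonneg (by positivity)]
    intro k
    rw [Real.norm_eq_abs]
    exact minty h2 k
  have h4 : ‖z'.2 - z.2‖ ^ α ≤ d / c * ‖(z'.1 + z'.2) - (z.1 + z.2)‖ := by
    rw [div_mul_eq_mul_div, le_div_iff₀ hc]
    linarith
  calc ‖z'.2 - z.2‖ = (‖z'.2 - z.2‖ ^ α) ^ (1 / α) := by
        rw [← Real.rpow_mul (norm_nonneg _)]
        have : α * (1 / α) = 1 := by field_simp
        rw [this, Real.rpow_one]
    _ ≤ (d / c * ‖(z'.1 + z'.2) - (z.1 + z.2)‖) ^ (1 / α) :=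
        Real.rpow_le_rpow (by positivity) h4 (by positivity)
    _ = (d / c) ^ (1 / α) * ‖(z'.1 + z'.2) - (z.1 + z.2)‖ ^ (1 / α) :=
        Real.mul_rpow (by positivity) (norm_nonneg _)

end Pool.Agent.H97.NS
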