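import Pool.Agent.H97.NS.Iid
import Pool.Graph.R_pool_sql_team_seeded_efc1946e.K1H65.AL.Fin

/-!
Almost every drift at which a convex function has a nonzero Hessian.
-/

open MeasureTheory ProbabilityTheory TH967.DP Filter Set Matrix
open scoped Topology
open Pool.Agent.K1H38.DP

set_option linter.unusedSectionVars false
set_option autoImplicit false

namespace Pool.Agent.H97.NS

variable {d : ℕ}

/-- second order expansion of `p` at `h` with gradient `v` and Hessian `Q` -/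
def Exp2 (p : (Fin d → ℝ) → ℝ) (h v : Fin d → ℝ) (Q : Matrix (Fin d) (Fin d) ℝ) : Prop :=
  ∀ ε : ℝ, 0 < ε → ∃ δ : ℝ, 0 < δ ∧ ∀ t : Fin d → ℝ, ∑ k, t k ^ 2 ≤ δ ^ 2 →
    |p (h + t) - (p h + ∑ k, v k * t k + 1 / 2 * (t ⬝ᵥ Q.mulVec t))| ≤ ε * ∑ k, t k ^ 2

lemma ip_comm (t v : Fin d → ℝ) : ip t v = ∑ k, v k * t k := by
  unfold ip; exact Finset.sum_congr rfl fun k _ => mul_comm _ _

lemma sumsq_le (t : Fin d → ℝ) : ∑ k, t k ^ 2 ≤ d * ‖t‖ ^ 2 := by
  calc ∑ k, t k ^ 2 ≤ ∑ _k : Fin d, ‖t‖ ^ 2 := Finset.sum_le_sum fun k _ => by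
        rw [← sq_abs]; exact pow_le_pow_left₀ (abs_nonneg _) (norm_le_pi_norm t k) 2
    _ = d * ‖t‖ ^ 2 := by simp

lemma mulVec_le {Q : Matrix (Fin d) (Fin d) ℝ} {C : ℝ} (hQ : ∀ i j, |Q i j| ≤ C) (hC : 0 ≤ C)
    (t : Fin d → ℝ) (i : Fin d) : |Q.mulVec t i| ≤ d * C * ‖t‖ := by
  unfold Matrix.mulVec dotProduct
  refine (Finset.abs_sum_le_sum_abs _ _).trans ?_
  calc ∑ j, |Q i j * t j| ≤ ∑ _j : Fin d, C * ‖t‖ := Finset.sum_le_sum fun j _ => by
        rw [abs_mul]
        exact mul_le_mul (hQ i j) (norm_le_pi_norm t j) (abs_nonneg _) hC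
    _ = d * C * ‖t‖ := by simp; ring

lemma quad_le {Q : Matrix (Fin d) (Fin d) ℝ} {C : ℝ} (hQ : ∀ i j, |Q i j| ≤ C) (hC : 0 ≤ C)
    (t : Fin d → ℝ) : t ⬝ᵥ Q.mulVec t ≤ d ^ 2 * C * ‖t‖ ^ 2 := by
  unfold dotProduct
  calc ∑ i, t i * Q.mulVec t i ≤ ∑ _i : Fin d, ‖t‖ * (d * C * ‖t‖) := Finset.sum_le_sum fun i _ => by
        refine (le_abs_self _).trans ?_
        rw [abs_mul]
        exact mul_le_mul (norm_le_pi_norm t i) (mulVec_le hQ hC t i) (abs_nonneg _) (norm_nonneg _)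
    _ = d ^ 2 * C * ‖t‖ ^ 2 := by simp; ring

/-- the gradient of a convex function is a subgradient -/
lemma exp2_sub {p : (Fin d → ℝ) → ℝ} (hp : ConvexOn ℝ univ p) {h v : Fin d → ℝ}
    {Q : Matrix (Fin d) (Fin d) ℝ} (hE : Exp2 p h v Q) : Sub p h v := by
  intro h'
  set y := h' - h with hy
  obtain ⟨δ, hδ, hb⟩ := hE 1 one_pos
  set S : ℝ := ∑ k, y k ^ 2 with hS
  have hS0 : 0 ≤ S := Finset.sum_nonneg fun _ _ => sq_nonneg _
  set q : ℝ := y ⬝ᵥ Q.mulVec y with hq
  have key : ∀ l : ℝ, 0 < l → l ≤ 1 → l ^ 2 * S ≤ δ ^ 2 →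
      ip y v - l * (S + |q|) ≤ p h' - p h := by
    intro l hl0 hl1 hl
    have e1 : ∑ k, (l • y) k ^ 2 = l ^ 2 * S := by
      rw [hS, Finset.mul_sum]
      exact Finset.sum_congr rfl fun k _ => by simp; ring
    have h1 := (abs_le.1 (hb (l • y) (by rw [e1]; exact hl))).1
    rw [e1] at h1
    have e2 : ∑ k, v k * (l • y) k = l * ip y v := by
      rw [ip_comm, Finset.mul_sum]
      exact Finset.sum_congr rfl fun k _ => by simp; ring
    have e3 : (l • y) ⬝ᵥ Q.mulVec (l • y) = l ^ 2 * q := by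
      rw [Matrix.mulVec_smul, smul_dotProduct, dotProduct_smul, smul_eq_mul, smul_eq_mul, hq]
      ring
    rw [e2, e3] at h1
    have h2 := hp.2 (mem_univ h) (mem_univ h') (by linarith : (0 : ℝ) ≤ 1 - l) hl0.le (by ring)
    have e4 : (1 - l) • h + l • h' = h + l • y := by
      rw [hy]; module
    rw [e4] at h2
    simp only [smul_eq_mul] at h2
    have h3 : -(|q|) ≤ q := neg_abs_le q
    have h4 : l * (ip y v - l * (S + |q|)) ≤ l * (p h' - p h) := by
      nlinarith [mul_nonneg (sq_nonneg l) (abs_nonneg q),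
        mul_le_mul_of_nonneg_left h3 (sq_nonneg l)]
    exact le_of_mul_le_mul_left h4 hl0
  have hlim : ip y v ≤ p h' - p h := by
    apply le_of_forall_pos_le_add
    intro e he
    set l := min 1 (min (e / (S + |q| + 1)) (δ ^ 2 / (S + 1))) with hl
    have hq0 := abs_nonneg q
    have hl0 : 0 < l := lt_min one_pos (lt_min (by positivity) (by positivity))
    have hl1 : l ≤ 1 := min_le_left _ _
    have hl2 : l ≤ e / (S + |q| + 1) := (min_le_right _ _).trans (min_le_left _ _)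
    have hl3 : l ≤ δ ^ 2 / (S + 1) := (min_le_right _ _).trans (min_le_right _ _)
    rw [le_div_iff₀ (by positivity)] at hl2 hl3
    have h5 : l ^ 2 * S ≤ δ ^ 2 := by
      have : l ^ 2 ≤ l := by nlinarith
      nlinarith
    have h6 := key l hl0 hl1 h5
    nlinarith
  linarith

/-- subgradients near a point with a second order expansion -/
lemma grad_exp [NeZero d] {p : (Fin d → ℝ) → ℝ} {h v : Fin d → ℝ}
    {Q : Matrix (Fin d) (Fin d) ℝ} (hE : Exp2 p h v Q) (hQs : Q.IsSymm)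
    {C : ℝ} (hC : 1 ≤ C) (hQ : ∀ i j, |Q i j| ≤ C) {η : ℝ} (hη : 0 < η) (hη1 : η ≤ 1) :
    ∃ r : ℝ, 0 < r ∧ ∀ h' v' : Fin d → ℝ, Sub p h' v' → ‖h' - h‖ ≤ r → ∀ k,
      |v' k - v k - Q.mulVec (h' - h) k| ≤ η * ‖h' - h‖ := by
  have hdn : 0 < d := Nat.pos_of_ne_zero (NeZero.ne d)
  have hd : (1 : ℝ) ≤ d := by exact_mod_cast hdn
  set s : ℝ := η / (d ^ 2 * C) with hs
  have hs0 : 0 < s := by positivity
  have hs1 : s ≤ 1 := by
    rw [hs, div_le_one (by positivity)]
    have : (1 : ℝ) ≤ d ^ 2 * C := by nlinarith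
    linarith
  obtain ⟨δ, hδ, hb⟩ := hE (η * s / (10 * d)) (by positivity)
  refine ⟨δ / (2 * d), by positivity, fun h' v' hsub hr k => ?_⟩
  set x := h' - h with hx
  set ρ := ‖x‖ with hρ
  have hρ0 : 0 ≤ ρ := norm_nonneg _
  -- second differences
  have key : ∀ z : Fin d → ℝ, ‖z‖ ≤ s * ρ →
      ip z v' - ip z v - ip z (Q.mulVec x) ≤ 1 / 2 * (d ^ 2 * C * (s * ρ) ^ 2) +
        η * s / (10 * d) * (d * (5 * ρ ^ 2)) := by
    intro z hz
    have hz1 : ‖z‖ ≤ ρ := hz.trans (by nlinarith)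
    have hxz : ‖x + z‖ ≤ 2 * ρ := (norm_add_le _ _).trans (by linarith)
    have hrρ : 2 * d * ρ ≤ δ := by
      rw [le_div_iff₀ (by positivity)] at hr; linarith
    have n1 : ∑ k, x k ^ 2 ≤ d * ρ ^ 2 := sumsq_le x
    have n2 : ∑ k, (x + z) k ^ 2 ≤ d * (4 * ρ ^ 2) := by
      refine (sumsq_le (x + z)).trans (mul_le_mul_of_nonneg_left ?_ (by positivity))
      nlinarith [norm_nonneg (x + z)]
    have hdρ : d * (4 * ρ ^ 2) ≤ δ ^ 2 := by
      have h1 : (2 * d * ρ) ^ 2 ≤ δ ^ 2 := pow_le_pow_left₀ (by positivity) hrρ 2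
      have h2 : d * (4 * ρ ^ 2) ≤ (2 * d * ρ) ^ 2 := by nlinarith [sq_nonneg ρ, mul_nonneg (by linarith : (0:ℝ) ≤ d - 1) (by positivity : 0 ≤ 4 * d * ρ ^ 2)]
      linarith
    have h1 := (abs_le.1 (hb x (by nlinarith [sq_nonneg ρ]))).1
    have h2 := (abs_le.1 (hb (x + z) (n2.trans hdρ))).2
    have h3 := hsub (h' + z)
    have e1 : h' + z - h' = z := by abel
    have e2 : h + x = h' := by rw [hx]; abel
    have e3 : h + (x + z) = h' + z := by rw [← add_assoc, e2]
    rw [e1] at h3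
    rw [e2] at h1
    rw [e3] at h2
    have e4 : ∑ k, v k * (x + z) k = ∑ k, v k * x k + ip z v := by
      rw [ip_comm, ← Finset.sum_add_distrib]
      exact Finset.sum_congr rfl fun k _ => by simp; ring
    have e5 : (x + z) ⬝ᵥ Q.mulVec (x + z) = x ⬝ᵥ Q.mulVec x + 2 * ip z (Q.mulVec x) +
        z ⬝ᵥ Q.mulVec z := by
      rw [Matrix.mulVec_add, dotProduct_add, add_dotProduct, add_dotProduct]
      have e6 : x ⬝ᵥ Q.mulVec z = z ⬝ᵥ Q.mulVec x := by
        rw [Matrix.dotProduct_mulVec, ← Matrix.mulVec_transpose, hQs.eq, dotProduct_comm]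
      have e7 : z ⬝ᵥ Q.mulVec x = ip z (Q.mulVec x) := rfl
      rw [e6, e7]; ring
    have h4 := quad_le hQ (by linarith) z
    have h5 : ‖z‖ ^ 2 ≤ (s * ρ) ^ 2 := pow_le_pow_left₀ (norm_nonneg _) hz 2
    have h6 := mul_le_mul_of_nonneg_left h5 (by positivity : 0 ≤ (d : ℝ) ^ 2 * C)
    have h7 : η * s / (10 * d) * (∑ k, x k ^ 2 + ∑ k, (x + z) k ^ 2) ≤
        η * s / (10 * d) * (d * (5 * ρ ^ 2)) := by
      apply mul_le_mul_of_nonneg_left _ (by positivity)
      linarith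
    rw [e4, e5] at h2
    linarith
  have hev : ∀ σ : ℝ, |σ| = 1 → σ * (s * ρ) * (v' k - v k - Q.mulVec x k) ≤ s * ρ * (η * ρ) := by
    intro σ hσ
    have h1 := key ((σ * (s * ρ)) • (Pi.single k (1 : ℝ) : Fin d → ℝ)) (by
      rw [norm_smul, Real.norm_eq_abs, abs_mul, hσ, one_mul, abs_of_nonneg (by positivity)]
      have : ‖(Pi.single k (1 : ℝ) : Fin d → ℝ)‖ ≤ 1 := by
        rw [pi_norm_le_iff_of_nonneg zero_le_one]
        intro i
        by_cases hik : i = k
        · subst hik; simp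
        · rw [Pi.single_eq_of_ne hik]; simp
      calc s * ρ * ‖(Pi.single k (1 : ℝ) : Fin d → ℝ)‖ ≤ s * ρ * 1 :=
            mul_le_mul_of_nonneg_left this (by positivity)
        _ = s * ρ := mul_one _)
    have e : ∀ a : Fin d → ℝ, ip ((σ * (s * ρ)) • (Pi.single k (1 : ℝ) : Fin d → ℝ)) a =
        σ * (s * ρ) * a k := by
      intro a
      rw [ip_comm]
      have := ip_single a k (σ * (s * ρ))
      unfold ip at this
      rw [← this]
    rw [e, e, e] at h1
    have e1 : 1 / 2 * (d ^ 2 * C * (s * ρ) ^ 2) + η * s / (10 * d) * (d * (5 * ρ ^ 2)) =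
        s * ρ * (η * ρ) := by
      rw [hs]; field_simp; ring
    rw [e1] at h1
    linarith
  rcases hρ0.eq_or_lt with h0 | h0
  · -- `h' = h`
    have hxz : x = 0 := norm_eq_zero.1 h0.symm
    have hhh : h' = h := by rw [hx] at hxz; exact sub_eq_zero.1 hxz
    rw [hxz, Matrix.mulVec_zero, ← h0, mul_zero]
    apply le_of_eq
    rw [abs_eq_zero, Pi.zero_apply, sub_zero]
    -- both are subgradients at `h`, and `p` is differentiable there
    subst hhh
    have hk : ∀ τ : ℝ, 0 < |τ| → |τ| ≤ δ → τ * (v' k - v k) ≤ (C + 1) * τ ^ 2 := by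
      intro τ hτ0 hτ
      have h3 := hsub (h' + τ • (Pi.single k (1 : ℝ) : Fin d → ℝ))
      have es : ∑ j, (τ • (Pi.single k (1 : ℝ) : Fin d → ℝ)) j ^ 2 = τ ^ 2 := by
        rw [Finset.sum_eq_single k]
        · simp
        · intro j _ hj; simp [Pi.single_eq_of_ne hj]
        · intro hh; exact absurd (Finset.mem_univ k) hh
      have h2 := (abs_le.1 (hb (τ • (Pi.single k (1 : ℝ) : Fin d → ℝ)) (by
        rw [es, ← sq_abs]; exact pow_le_pow_left₀ (abs_nonneg _) hτ 2))).2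
      rw [es] at h2
      rw [add_sub_cancel_left] at h3
      have e : ∀ a : Fin d → ℝ, ip (τ • (Pi.single k (1 : ℝ) : Fin d → ℝ)) a = τ * a k := by
        intro a
        rw [ip_comm]
        have := ip_single a k τ
        unfold ip at this
        rw [← this]
      rw [e] at h3
      rw [← ip_comm, e] at h2
      have h4 : (τ • (Pi.single k (1 : ℝ) : Fin d → ℝ)) ⬝ᵥ
          Q.mulVec (τ • (Pi.single k (1 : ℝ) : Fin d → ℝ)) ≤ C * τ ^ 2 := by
        rw [Matrix.mulVec_smul, smul_dotProduct, dotProduct_smul, smul_eq_mul, smul_eq_mul]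
        have e8 : (Pi.single k (1 : ℝ) : Fin d → ℝ) ⬝ᵥ
            Q.mulVec (Pi.single k (1 : ℝ) : Fin d → ℝ) = Q k k := by simp
        rw [e8]
        have := (abs_le.1 (hQ k k)).2
        nlinarith [sq_nonneg τ]
      have h5 : η * s / (10 * d) * τ ^ 2 ≤ 1 / 2 * τ ^ 2 := by
        apply mul_le_mul_of_nonneg_right _ (sq_nonneg τ)
        rw [div_le_iff₀ (by positivity)]
        nlinarith
      nlinarith [sq_nonneg τ]
    have key2 : ∀ a : ℝ, (∀ t : ℝ, 0 < t → t ≤ δ → t * a ≤ (C + 1) * t ^ 2) → a ≤ 0 := by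
      intro a ha
      by_contra hcon
      push Not at hcon
      set t := min δ (a / (2 * (C + 1))) with ht
      have ht0 : 0 < t := lt_min hδ (by positivity)
      have h4 := ha t ht0 (min_le_left _ _)
      have h5 : a ≤ (C + 1) * t := by
        have : t * a ≤ t * ((C + 1) * t) := by
          linarith [h4, (by ring : t * ((C + 1) * t) = (C + 1) * t ^ 2)]
        exact le_of_mul_le_mul_left this ht0
      have h6 : t ≤ a / (2 * (C + 1)) := min_le_right _ _
      rw [le_div_iff₀ (by positivity)] at h6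
      nlinarith
    have h7 := key2 (v' k - v k) (fun t ht htr => hk t (by rwa [abs_of_pos ht])
      (by rwa [abs_of_pos ht]))
    have h8 := key2 (-(v' k - v k)) (fun t ht htr => by
      have := hk (-t) (by rw [abs_neg]; rwa [abs_of_pos ht]) (by rwa [abs_neg, abs_of_pos ht])
      nlinarith)
    linarith
  · have h1 := hev 1 (by simp)
    have h2 := hev (-1) (by simp)
    have hsρ : 0 < s * ρ := by positivity
    rw [one_mul] at h1
    have h2' : s * ρ * (-(v' k - v k - Q.mulVec x k)) ≤ s * ρ * (η * ρ) := by linarith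
    rw [abs_le]
    constructor
    · have := le_of_mul_le_mul_left h2' hsρ
      linarith
    · exact le_of_mul_le_mul_left h1 hsρ

end Pool.Agent.H97.NS
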