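import Pool.Agent.H97.NS.DNull
import Pool.Graph.R_pool_sql_team_seeded_efc1946e.K1H38.DP.Seq1

/-!
Directed polymers are not subdiffusive: assembly.
-/

open MeasureTheory ProbabilityTheory TH967.DP Filter Set Matrix
open scoped Topology
open Pool.Agent.K1H38.DP

set_option linter.unusedSectionVars false
set_option autoImplicit false

namespace Pool.Agent.H97.NS

variable {d : ℕ} {Ω : Type*} [MeasurableSpace Ω] {P : Measure Ω} [IsProbabilityMeasure P]
  {ω : ℕ → (Fin d → ℤ) → Ω → ℝ}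

/-- the limit of the mean free energies along all `n` -/
lemma lim_all [NeZero d] (he : IsEnv P ω) (hexp : HasExp P ω) (β : ℝ) {p : (Fin d → ℝ) → ℝ}
    (hp : ∀ h, Tendsto (fun k : ℕ => Lm P ω β h (2 ^ k) / 2 ^ k) atTop (𝓝 (p h)))
    (h : Fin d → ℝ) :
    Tendsto (fun n : ℕ => (∫ x, Real.log (Zn β h (fun i y => ω i y x) n) ∂P) / n) atTop
      (𝓝 (p h - Real.log (2 * d))) := by
  obtain ⟨s, C, hs, -, ht⟩ := tail_half he hexp β (c := 3 / 4) (by norm_num) (by norm_num)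
  obtain ⟨N₀, hN₀⟩ := additive he hexp β (c := 3 / 4) (by norm_num) hs (S := Set.univ)
    (fun n hn h _ => ht n hn h)
  have h0 : Lm P ω β h 0 = 0 := by
    unfold Lm
    simp [Zd_zero]
  obtain ⟨A, hA, h1⟩ := seq_add1 (D := fun n => Lm P ω β h n) (K := 3) (N₀ := N₀)
    (c := 3 / 4) (by norm_num) (by norm_num) (by norm_num) (hN₀ h (mem_univ h)) h0 (hp h)
  have e1 : Tendsto (fun n : ℕ => A * (n : ℝ) ^ (-(1 / 4) : ℝ)) atTop (𝓝 0) := by
    have h2 : Tendsto (fun n : ℕ => (n : ℝ) ^ (-(1 / 4) : ℝ)) atTop (𝓝 0) :=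
      (tendsto_rpow_neg_atTop (by norm_num)).comp tendsto_natCast_atTop_atTop
    have h3 := h2.const_mul A
    rwa [mul_zero] at h3
  have e2 : Tendsto (fun n : ℕ => Lm P ω β h n / n - p h) atTop (𝓝 0) := by
    apply squeeze_zero_norm' _ e1
    filter_upwards [eventually_ge_atTop 1] with n hn
    have hn0 : (0 : ℝ) < n := by exact_mod_cast hn
    have h2 : Lm P ω β h n / n - p h = (Lm P ω β h n - n * p h) / n := by field_simp
    rw [h2, Real.norm_eq_abs, abs_div, abs_of_pos hn0, div_le_iff₀ hn0]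
    refine (h1 n).trans (le_of_eq ?_)
    have h3 : (n : ℝ) ^ (3 / 4 : ℝ) = (n : ℝ) ^ (-(1 / 4) : ℝ) * n := by
      rw [← Real.rpow_add_one hn0.ne']
      norm_num
    rw [h3]; ring
  have e3 : Tendsto (fun n : ℕ => Lm P ω β h n / n - p h + (p h - Real.log (2 * d))) atTop
      (𝓝 (0 + (p h - Real.log (2 * d)))) := e2.add_const _
  rw [zero_add] at e3
  refine e3.congr' ?_
  filter_upwards [eventually_ge_atTop 1] with n hn
  have hn0 : (0 : ℝ) < n := by exact_mod_cast hn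
  rw [mean_Zn he hexp, Real.log_pow]
  field_simp
  ring

/-- the wandering exponent is at least `1/2` if windows of size `ε √n` do not keep mass `1/2` -/
lemma wander_of_freq [NeZero d] (hmeas : ∀ i y, Measurable (ω i y)) {β : ℝ} {h v : Fin d → ℝ}
    (H : ∃ ε : ℝ, 0 < ε ∧ ∃ᶠ n : ℕ in atTop,
        ∫ x, frProb β h (fun i y => ω i y x) (win n v (ε * Real.sqrt n)) ∂P < 1 / 2) :
    1 / 2 ≤ Pool.Agent.K1H38.DP.wanderingExp P ω β h v := by
  refine wander_ge fun b _ hb hw => ?_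
  obtain ⟨ε, hε, hfr⟩ := H
  have h1 := conf_of_wander hmeas hb hw hε
  have h2 := h1.eventually (lt_mem_nhds (by norm_num : (1 / 2 : ℝ) < 1))
  obtain ⟨n, hn1, hn2⟩ := (hfr.and_eventually h2).exists
  linarith

/-- the walks of `n` steps with `‖S_n - n v‖ ≤ R` -/
def near (n : ℕ) (v : Fin d → ℝ) (R : ℝ) : Set (Fin n → Step d) :=
  {w | Real.sqrt (∑ k, ((pos w n k : ℝ) - n * v k) ^ 2) ≤ R}

lemma near_win (n : ℕ) (v : Fin d → ℝ) (R : ℝ) : near n v R ⊆ win n v R := by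
  intro w hw k
  refine le_trans ?_ hw
  apply Real.le_sqrt_of_sq_le
  rw [sq_abs]
  exact Finset.single_le_sum (f := fun k => ((pos w n k : ℝ) - n * v k) ^ 2)
    (fun _ _ => sq_nonneg _) (Finset.mem_univ k)

lemma int_near_le [NeZero d] (hmeas : ∀ i y, Measurable (ω i y)) (β : ℝ) (h v : Fin d → ℝ) (n : ℕ)
    (R : ℝ) : ∫ x, frProb β h (fun i y => ω i y x) (near n v R) ∂P ≤
      ∫ x, frProb β h (fun i y => ω i y x) (win n v R) ∂P :=
  integral_mono (integrable_frProb hmeas β h _) (integrable_frProb hmeas β h _)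
    fun _ => frProb_mono _ _ _ (near_win n v R)

lemma int_le_one [NeZero d] (hmeas : ∀ i y, Measurable (ω i y)) (β : ℝ) (h : Fin d → ℝ) {n : ℕ}
    (A : Set (Fin n → Step d)) : ∫ x, frProb β h (fun i y => ω i y x) A ∂P ≤ 1 := by
  calc ∫ x, frProb β h (fun i y => ω i y x) A ∂P ≤ ∫ _x, (1 : ℝ) ∂P :=
        integral_mono (integrable_frProb hmeas β h _) (integrable_const _)
          fun _ => frProb_le_one' _ _ _ _
    _ = 1 := by simp

theorem part_A [NeZero d] (hmeas : ∀ i y, Measurable (ω i y)) (β : ℝ) :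
    ∃ N : Set (Fin d → ℝ), volume N = 0 ∧ ∀ v : Fin d → ℝ, v ∉ N → ∀ h : Fin d → ℝ,
      1 / 2 ≤ Pool.Agent.K1H38.DP.wanderingExp P ω β h v ∧
      ∃ ε : ℝ, 0 < ε ∧ ¬ Tendsto (fun n : ℕ => ∫ x, frProb β h (fun i y => ω i y x)
        (near n v (ε * Real.sqrt n)) ∂P) atTop (𝓝 1) := by
  obtain ⟨N, hN, H⟩ := gen_main (P := P) (ω := ω) hmeas β
  refine ⟨N, hN, fun v hv h => ?_⟩
  obtain ⟨⟨ε, hε, hne⟩, hw⟩ := H v hv h
  refine ⟨hw, ε, hε, fun hcon => hne ?_⟩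
  exact tendsto_of_tendsto_of_tendsto_of_le_of_le hcon tendsto_const_nhds
    (fun n => int_near_le hmeas β h v n _) (fun n => int_le_one hmeas β h _)

theorem part_B [NeZero d] (he : IsEnv P ω) (hexp : HasExp P ω) (β : ℝ) :
    ∃ N : Set (Fin d → ℝ), volume N = 0 ∧ ∀ v : Fin d → ℝ, v ∉ N → ∀ h : Fin d → ℝ,
      ∀ δ : ℝ, 0 < δ → ∃ ε : ℝ, 0 < ε ∧ ∃ᶠ n : ℕ in atTop,
        ∫ x, frProb β h (fun i y => ω i y x) (near n v (ε * Real.sqrt n)) ∂P < δ := by
  refine ⟨_, iid_null he hexp β, fun v hv h δ hδ => ?_⟩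
  by_contra hcon
  push Not at hcon
  apply hv
  refine ⟨h, δ, hδ, fun ε hε => ?_⟩
  filter_upwards [hcon ε hε] with n hn
  exact hn.trans (int_near_le he.meas β h v n _)

lemma exp2_slopes {p : (Fin d → ℝ) → ℝ} {h v : Fin d → ℝ}
    {Q : Matrix (Fin d) (Fin d) ℝ} (hE : Exp2 p h v Q) :
    ∃ Cq r' : ℝ, 0 < r' ∧ ∀ j, ∀ t : ℝ, |t| ≤ r' →
      p (h + t • (Pi.single j (1 : ℝ) : Fin d → ℝ)) ≤ p h + t * v j + Cq * t ^ 2 := by
  obtain ⟨δ, hδ, hb⟩ := hE 1 one_pos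
  refine ⟨1 + ∑ j, |Q j j|, δ, hδ, fun j t ht => ?_⟩
  have es : ∑ i, (t • (Pi.single j (1 : ℝ) : Fin d → ℝ)) i ^ 2 = t ^ 2 := by
    rw [Finset.sum_eq_single j]
    · simp
    · intro i _ hi; simp [Pi.single_eq_of_ne hi]
    · intro hh; exact absurd (Finset.mem_univ j) hh
  have h2 := (abs_le.1 (hb (t • (Pi.single j (1 : ℝ) : Fin d → ℝ)) (by
    rw [es, ← sq_abs]; exact pow_le_pow_left₀ (abs_nonneg _) ht 2))).2
  have e1 : ∑ i, v i * (t • (Pi.single j (1 : ℝ) : Fin d → ℝ)) i = t * v j := by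
    rw [Finset.sum_eq_single j]
    · simp; ring
    · intro i _ hi; simp [Pi.single_eq_of_ne hi]
    · intro hh; exact absurd (Finset.mem_univ j) hh
  have e2 : (t • (Pi.single j (1 : ℝ) : Fin d → ℝ)) ⬝ᵥ
      Q.mulVec (t • (Pi.single j (1 : ℝ) : Fin d → ℝ)) = t ^ 2 * Q j j := by
    rw [Matrix.mulVec_smul, smul_dotProduct, dotProduct_smul, smul_eq_mul, smul_eq_mul]
    simp; ring
  rw [es, e1, e2] at h2
  have h3 : Q j j ≤ ∑ j, |Q j j| := (le_abs_self _).trans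
    (Finset.single_le_sum (f := fun j => |Q j j|) (fun _ _ => abs_nonneg _) (Finset.mem_univ j))
  have h4 : 0 ≤ ∑ j, |Q j j| := Finset.sum_nonneg fun _ _ => abs_nonneg _
  nlinarith [sq_nonneg t, mul_le_mul_of_nonneg_left h3 (sq_nonneg t)]

theorem part_C [NeZero d] (he : IsEnv P ω) (hexp : HasExp P ω) (β : ℝ) :
    ∃ p : (Fin d → ℝ) → ℝ, ConvexOn ℝ univ p ∧
      (∀ h : Fin d → ℝ, Tendsto (fun n : ℕ =>
        (∫ x, Real.log (Zn β h (fun i y => ω i y x) n) ∂P) / n) atTop (𝓝 (p h))) ∧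
      ∀ᵐ h : Fin d → ℝ, ∃ (v : Fin d → ℝ) (Q : Matrix (Fin d) (Fin d) ℝ), Q.PosSemidef ∧
        (∀ ε : ℝ, 0 < ε → ∃ δ : ℝ, 0 < δ ∧ ∀ t : Fin d → ℝ, ∑ k, t k ^ 2 ≤ δ ^ 2 →
          |p (h + t) - (p h + ∑ k, v k * t k + 1 / 2 * (t ⬝ᵥ Q.mulVec t))| ≤ ε * ∑ k, t k ^ 2) ∧
        Pool.Agent.K1H38.DP.wanderingExp P ω β h v ≤ 3 / 4 ∧
        (Q ≠ 0 → 1 / 2 ≤ Pool.Agent.K1H38.DP.wanderingExp P ω β h v ∧
          ∀ δ : ℝ, 0 < δ → ∃ ε : ℝ, 0 < ε ∧ ∃ᶠ n : ℕ in atTop,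
            ∫ x, frProb β h (fun i y => ω i y x) (near n v (ε * Real.sqrt n)) ∂P < δ) := by
  obtain ⟨p, hp, hconv, hcont⟩ := exists_p he hexp β
  refine ⟨fun h => p h - Real.log (2 * d), ?_, lim_all he hexp β hp, ?_⟩
  · refine ⟨convex_univ, fun x hx y hy a b ha hb hab => ?_⟩
    have h1 := hconv.2 hx hy ha hb hab
    simp only [smul_eq_mul] at h1 ⊢
    have h2 : Real.log (2 * d) = a * Real.log (2 * d) + b * Real.log (2 * d) := by
      rw [← add_mul, hab, one_mul]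
    linarith
  · filter_upwards [drift_ae (P := P) he.meas β hconv, Pool.Agent.K1H65.AL.alex p hconv]
      with h hh ha
    obtain ⟨v, Q, hQ, hE⟩ := ha
    refine ⟨v, Q, hQ, ?_, ?_, fun hQ0 => ?_⟩
    · intro ε hε
      obtain ⟨δ, hδ, hb⟩ := hE ε hε
      refine ⟨δ, hδ, fun t ht => ?_⟩
      have e : p (h + t) - Real.log (2 * d) - (p h - Real.log (2 * d) + ∑ k, v k * t k +
          1 / 2 * (t ⬝ᵥ Q.mulVec t)) =
          p (h + t) - (p h + ∑ k, v k * t k + 1 / 2 * (t ⬝ᵥ Q.mulVec t)) := by ring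
      rw [e]
      exact hb t ht
    · obtain ⟨Cq, r', hr', hv⟩ := exp2_slopes (p := p) hE
      have ht0 := tailExp_nonneg (P := P) (ω := ω) β h
      have ht1 := tailExp_le_half he hexp β h
      apply le_of_forall_gt_imp_ge_of_dense
      intro a ha
      obtain ⟨κ, hκ, B, hB, H⟩ := tube_of_slopes he hexp β hp hr' hv (a := a) (by linarith)
      refine wandering_le (by linarith) hκ ?_
      filter_upwards [ae_of_summable hB] with x hx
      filter_upwards [hx, H] with n hn1 hn2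
      exact hn2 x hn1
    · have hs : Q.IsSymm := by
        have := hQ.isHermitian
        rwa [Matrix.IsHermitian, Matrix.conjTranspose_eq_transpose_of_trivial] at this
      have H := hh v Q hE hs hQ0
      refine ⟨wander_of_freq he.meas (H (1 / 2) (by norm_num)), fun δ hδ => ?_⟩
      obtain ⟨ε, hε, hfr⟩ := H δ hδ
      exact ⟨ε, hε, hfr.mono fun n hn => (int_near_le he.meas β h v n _).trans_lt hn⟩

end Pool.Agent.H97.NS
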