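import Pool.Agent.H97.NS.Conj

/-!
Arbitrary environments: confined pairs of a drift and a slope consist of subgradients.
-/

open MeasureTheory ProbabilityTheory TH967.DP Filter Set
open scoped Topology
open Pool.Agent.K1H38.DP

set_option linter.unusedSectionVars false
set_option autoImplicit false

namespace Pool.Agent.H97.NS

variable {d : ℕ}

/-- change of the free energy, for one environment -/
lemma log_diff [NeZero d] {n : ℕ} (β : ℝ) (η : ℕ → (Fin d → ℤ) → ℝ) (h h' v : Fin d → ℝ) {R : ℝ}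
    (hR : 0 ≤ R) :
    n * ip (h' - h) v - l1 (h' - h) * R - Real.log 2 -
      2 * (n * (|ip (h' - h) v| + ‖h' - h‖)) * (1 - frProb β h η (win n v R)) ≤
      Real.log (Zd β h' η n) - Real.log (Zd β h η n) := by
  have hZ := Zd_pos β h η n
  have hZ' := Zd_pos β h' η n
  have hn : (0 : ℝ) ≤ n := Nat.cast_nonneg n
  have hl2 : 0 < Real.log 2 := Real.log_pos (by norm_num)
  have hl := l1_nonneg (h' - h)
  have hp1 := frProb_le_one' β h η (win n v R)
  rcases le_or_gt (1 / 2) (frProb β h η (win n v R)) with hp | hp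
  · have h1 : 1 / 2 * Zd β h η n ≤ mass β h η (win n v R) := by
      rw [frProb_eq, le_div_iff₀ hZ] at hp
      exact hp
    have h2 : Real.exp (n * ip (h' - h) v - l1 (h' - h) * R) * mass β h η (win n v R) ≤
        Zd β h' η n := by
      refine le_trans ?_ (mass_le β h' η (win n v R))
      have := mass_tilt_ge β h (h' - h) v η R (n := n)
      rwa [add_sub_cancel] at this
    have h3 : Real.exp (n * ip (h' - h) v - l1 (h' - h) * R) * (1 / 2 * Zd β h η n) ≤
        Zd β h' η n := le_trans (mul_le_mul_of_nonneg_left h1 (Real.exp_pos _).le) h2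
    have h4 := Real.log_le_log (by positivity) h3
    rw [Real.log_mul (Real.exp_pos _).ne' (by positivity), Real.log_exp,
      Real.log_mul (by norm_num) hZ.ne', one_div, Real.log_inv] at h4
    have h5 : 0 ≤ 2 * (n * (|ip (h' - h) v| + ‖h' - h‖)) * (1 - frProb β h η (win n v R)) :=
      mul_nonneg (by positivity) (by linarith)
    linarith
  · have h1 := log_Zd_lip β (h := h') (g := h) (r := ‖h' - h‖)
      (fun k => norm_le_pi_norm (h' - h) k) η n
    have h2 := (abs_le.1 h1).1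
    have h3 : n * (|ip (h' - h) v| + ‖h' - h‖) ≤
        2 * (n * (|ip (h' - h) v| + ‖h' - h‖)) * (1 - frProb β h η (win n v R)) := by
      have h4 : 0 ≤ n * (|ip (h' - h) v| + ‖h' - h‖) := by positivity
      have h8 : 1 ≤ 2 * (1 - frProb β h η (win n v R)) := by linarith
      calc n * (|ip (h' - h) v| + ‖h' - h‖) = n * (|ip (h' - h) v| + ‖h' - h‖) * 1 := by ring
        _ ≤ n * (|ip (h' - h) v| + ‖h' - h‖) * (2 * (1 - frProb β h η (win n v R))) :=
          mul_le_mul_of_nonneg_left h8 h4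
        _ = _ := by ring
    have h5 : n * ip (h' - h) v ≤ n * |ip (h' - h) v| :=
      mul_le_mul_of_nonneg_left (le_abs_self _) hn
    have h6 : 0 ≤ l1 (h' - h) * R := mul_nonneg hl hR
    have e : (n : ℝ) * (|ip (h' - h) v| + ‖h' - h‖) =
      n * |ip (h' - h) v| + n * ‖h' - h‖ := by ring
    rw [e] at h3
    rw [e]
    linarith

variable {Ω : Type*} [MeasurableSpace Ω] {P : Measure Ω} [IsProbabilityMeasure P]
  {ω : ℕ → (Fin d → ℤ) → Ω → ℝ}

/-- difference of the free energies for two drifts -/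
noncomputable def dif (ω : ℕ → (Fin d → ℤ) → Ω → ℝ) (β : ℝ) (h g : Fin d → ℝ) (n : ℕ) (x : Ω) : ℝ :=
  Real.log (Zd β h (fun i y => ω i y x) n) - Real.log (Zd β g (fun i y => ω i y x) n)

lemma dif_abs [NeZero d] (β : ℝ) (h g : Fin d → ℝ) (n : ℕ) (x : Ω) :
    |dif ω β h g n x| ≤ n * ‖h - g‖ :=
  log_Zd_lip β (fun k => norm_le_pi_norm (h - g) k) _ n

lemma dif_int [NeZero d] (hmeas : ∀ i y, Measurable (ω i y)) (β : ℝ) (h g : Fin d → ℝ) (n : ℕ) :
    Integrable (dif ω β h g n) P := by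
  refine Integrable.of_bound (Measurable.aestronglyMeasurable ?_) (n * ‖h - g‖)
    (Eventually.of_forall fun x => ?_)
  · exact (Real.measurable_log.comp (measurable_Zd' hmeas β h n)).sub
      (Real.measurable_log.comp (measurable_Zd' hmeas β g n))
  · rw [Real.norm_eq_abs]; exact dif_abs β h g n x

lemma int_aff {g : Ω → ℝ} (hi : Integrable g P) (a b : ℝ) :
    ∫ x, (a - b * (1 - g x)) ∂P = a - b * (1 - ∫ x, g x ∂P) := by
  have e : (fun x => a - b * (1 - g x)) = fun x => (a - b) + b * g x := by funext x; ring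
  rw [e, integral_add (integrable_const _) (hi.const_mul _), integral_const_mul]
  simp
  ring

lemma dif_mean [NeZero d] (hmeas : ∀ i y, Measurable (ω i y)) (β : ℝ) (h h' v : Fin d → ℝ)
    (n : ℕ) {R : ℝ} (hR : 0 ≤ R) :
    n * ip (h' - h) v - l1 (h' - h) * R - Real.log 2 -
      2 * (n * (|ip (h' - h) v| + ‖h' - h‖)) *
        (1 - ∫ x, frProb β h (fun i y => ω i y x) (win n v R) ∂P) ≤
      ∫ x, dif ω β h' h n x ∂P := by
  have hi := integrable_frProb (P := P) hmeas β h (win n v R)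
  have h1 : ∫ x, (n * ip (h' - h) v - l1 (h' - h) * R - Real.log 2 -
      2 * (n * (|ip (h' - h) v| + ‖h' - h‖)) *
        (1 - frProb β h (fun i y => ω i y x) (win n v R))) ∂P ≤
      ∫ x, dif ω β h' h n x ∂P := by
    refine integral_mono ?_ (dif_int hmeas β h' h n) (fun x => ?_)
    · exact (integrable_const _).sub (((integrable_const _).sub hi).const_mul _)
    · exact log_diff β _ h h' v hR
  exact le_trans (le_of_eq (int_aff hi _ _).symm) h1

/-- a limit of the normalised free energies along an ultrafilter -/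
lemma exists_phi [NeZero d] (hmeas : ∀ i y, Measurable (ω i y)) (β : ℝ) :
    ∃ φ : (Fin d → ℝ) → ℝ, (∀ h, |φ h| ≤ ‖h‖) ∧
      ∀ h, Tendsto (fun n : ℕ => (∫ x, dif ω β h 0 n x ∂P) / n) (hyperfilter ℕ) (𝓝 (φ h)) := by
  have h1 : ∀ (h : Fin d → ℝ) (n : ℕ), (∫ x, dif ω β h 0 n x ∂P) / n ∈ Icc (-‖h‖) ‖h‖ := by
    intro h n
    rcases Nat.eq_zero_or_pos n with hn | hn
    · subst hn; simp
    have hn' : (0 : ℝ) < n := by exact_mod_cast hn
    have h2 : |∫ x, dif ω β h 0 n x ∂P| ≤ n * ‖h‖ := by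
      refine abs_integral_le_integral_abs.trans ?_
      calc ∫ x, |dif ω β h 0 n x| ∂P ≤ ∫ _x, (n : ℝ) * ‖h‖ ∂P := by
            refine integral_mono (dif_int hmeas β h 0 n).abs (integrable_const _) fun x => ?_
            have := dif_abs (ω := ω) β h 0 n x
            rwa [sub_zero] at this
        _ = n * ‖h‖ := by simp
    have h3 : |(∫ x, dif ω β h 0 n x ∂P) / n| ≤ ‖h‖ := by
      rw [abs_div, abs_of_pos hn', div_le_iff₀ hn', mul_comm]
      exact h2
    exact ⟨(abs_le.1 h3).1, (abs_le.1 h3).2⟩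
  have h2 : ∀ h : Fin d → ℝ, ∃ y ∈ Icc (-‖h‖) ‖h‖,
      Tendsto (fun n : ℕ => (∫ x, dif ω β h 0 n x ∂P) / n) (hyperfilter ℕ) (𝓝 y) := by
    intro h
    have := (isCompact_Icc (a := -‖h‖) (b := ‖h‖)).ultrafilter_le_nhds
      ((hyperfilter ℕ).map (fun n : ℕ => (∫ x, dif ω β h 0 n x ∂P) / n)) (by
        rw [le_principal_iff, Ultrafilter.coe_map, mem_map]
        exact Eventually.of_forall fun n => h1 h n)
    obtain ⟨y, hy, hle⟩ := this
    exact ⟨y, hy, hle⟩
  choose φ hφ ht using h2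
  exact ⟨φ, fun h => abs_le.2 ⟨(hφ h).1, (hφ h).2⟩, ht⟩

/-- confinement makes the slope a subgradient -/
lemma sub_of_conf [NeZero d] (hmeas : ∀ i y, Measurable (ω i y)) (β : ℝ)
    {φ : (Fin d → ℝ) → ℝ}
    (hφ : ∀ h, Tendsto (fun n : ℕ => (∫ x, dif ω β h 0 n x ∂P) / n) (hyperfilter ℕ) (𝓝 (φ h)))
    {h v : Fin d → ℝ}
    (hc : Tendsto (fun n : ℕ => ∫ x, frProb β h (fun i y => ω i y x)
      (win n v (1 * Real.sqrt n)) ∂P) atTop (𝓝 1)) : Sub φ h v := by
  intro h'
  have h1 := (hφ h').sub (hφ h)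
  have hs : Tendsto (fun n : ℕ => 1 / Real.sqrt n) atTop (𝓝 0) :=
    (Real.tendsto_sqrt_atTop.comp tendsto_natCast_atTop_atTop).const_div_atTop 1
  have hn : Tendsto (fun n : ℕ => Real.log 2 / (n : ℝ)) atTop (𝓝 0) :=
    tendsto_natCast_atTop_atTop.const_div_atTop _
  have h2 : Tendsto (fun n : ℕ => ip (h' - h) v - l1 (h' - h) * (1 / Real.sqrt n) -
      Real.log 2 / n - 2 * (|ip (h' - h) v| + ‖h' - h‖) *
        (1 - ∫ x, frProb β h (fun i y => ω i y x) (win n v (1 * Real.sqrt n)) ∂P)) atTop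
      (𝓝 (ip (h' - h) v - l1 (h' - h) * 0 - 0 -
        2 * (|ip (h' - h) v| + ‖h' - h‖) * (1 - 1))) :=
    (((tendsto_const_nhds.sub (hs.const_mul _)).sub hn).sub
      ((tendsto_const_nhds.sub hc).const_mul _))
  have h3 : ∀ᶠ n : ℕ in (hyperfilter ℕ : Filter ℕ), ip (h' - h) v -
      l1 (h' - h) * (1 / Real.sqrt n) - Real.log 2 / n - 2 * (|ip (h' - h) v| + ‖h' - h‖) *
        (1 - ∫ x, frProb β h (fun i y => ω i y x) (win n v (1 * Real.sqrt n)) ∂P) ≤
      (∫ x, dif ω β h' 0 n x ∂P) / n - (∫ x, dif ω β h 0 n x ∂P) / n := by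
    have : ∀ᶠ n : ℕ in atTop, ip (h' - h) v -
      l1 (h' - h) * (1 / Real.sqrt n) - Real.log 2 / n - 2 * (|ip (h' - h) v| + ‖h' - h‖) *
        (1 - ∫ x, frProb β h (fun i y => ω i y x) (win n v (1 * Real.sqrt n)) ∂P) ≤
      (∫ x, dif ω β h' 0 n x ∂P) / n - (∫ x, dif ω β h 0 n x ∂P) / n := by
      filter_upwards [eventually_ge_atTop 1] with n hn
      have hn' : (0 : ℝ) < n := by exact_mod_cast hn
      have h4 := dif_mean (P := P) hmeas β h h' v n (R := 1 * Real.sqrt n) (by positivity)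
      have h5 : ∫ x, dif ω β h' h n x ∂P = ∫ x, dif ω β h' 0 n x ∂P - ∫ x, dif ω β h 0 n x ∂P := by
        rw [← integral_sub (dif_int hmeas β h' 0 n) (dif_int hmeas β h 0 n)]
        congr 1; funext x; unfold dif; ring
      rw [h5] at h4
      rw [← sub_div, le_div_iff₀ hn']
      refine le_trans (le_of_eq ?_) h4
      have h6 : (n : ℝ) = Real.sqrt n * Real.sqrt n := (Real.mul_self_sqrt hn'.le).symm
      have h7 : Real.sqrt n ≠ 0 := (Real.sqrt_pos.2 hn').ne'
      have h8 : 1 / Real.sqrt n * n = 1 * Real.sqrt n := by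
        nth_rewrite 2 [h6]; field_simp
      have h9 : Real.log 2 / n * n = Real.log 2 := by field_simp
      calc (ip (h' - h) v - l1 (h' - h) * (1 / Real.sqrt n) - Real.log 2 / n -
          2 * (|ip (h' - h) v| + ‖h' - h‖) *
          (1 - ∫ x, frProb β h (fun i y => ω i y x) (win n v (1 * Real.sqrt n)) ∂P)) * n =
          n * ip (h' - h) v - l1 (h' - h) * (1 / Real.sqrt n * n) - Real.log 2 / n * n -
          2 * (n * (|ip (h' - h) v| + ‖h' - h‖)) *
          (1 - ∫ x, frProb β h (fun i y => ω i y x) (win n v (1 * Real.sqrt n)) ∂P) := by ring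
        _ = _ := by rw [h8, h9]
    exact Nat.hyperfilter_le_atTop this
  have h4 := le_of_tendsto_of_tendsto (h2.mono_left Nat.hyperfilter_le_atTop) h1 h3
  simp only [mul_zero, sub_self, sub_zero] at h4
  linarith

/-- confined pairs have slopes in a null set -/
theorem gen_null [NeZero d] (hmeas : ∀ i y, Measurable (ω i y)) (β : ℝ) :
    volume {v : Fin d → ℝ | ∃ h, ∀ ε : ℝ, 0 < ε → Tendsto (fun n : ℕ =>
      ∫ x, frProb β h (fun i y => ω i y x) (win n v (ε * Real.sqrt n)) ∂P) atTop (𝓝 1)} = 0 := by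
  obtain ⟨φ, hφ1, hφ⟩ := exists_phi (P := P) hmeas β
  have hB : ∀ K : ℕ, ∀ h : Fin d → ℝ, ‖h‖ ≤ K → -(K : ℝ) ≤ φ h := by
    intro K h hh
    have := (abs_le.1 (hφ1 h)).1
    linarith
  have hlip := fun K : ℕ => lip_ae φ (K := K) (B := K) (Nat.cast_nonneg K) (hB K)
  have hlip' := ae_all_iff.2 hlip
  have hnull : ∀ K C : ℕ, 1 ≤ C → ∃ ε : ℝ, 0 < ε ∧ ∀ N : ℕ,
      volume {v : Fin d → ℝ | LipAt (SK φ K) C v ∧ ∃ h, (h, v) ∈ SK φ K ∧
      ∀ n : ℕ, N ≤ n → 1 / 2 ≤ ∫ x, frProb β h (fun i y => ω i y x)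
        (win n v (ε * Real.sqrt n)) ∂P} = 0 := by
    intro K C hC
    exact null_core hmeas β (SK φ K) (by exact_mod_cast hC) (by norm_num)
  choose! ε hε hnull using hnull
  have hsub : {v : Fin d → ℝ | ∃ h, ∀ ε : ℝ, 0 < ε → Tendsto (fun n : ℕ =>
      ∫ x, frProb β h (fun i y => ω i y x) (win n v (ε * Real.sqrt n)) ∂P) atTop (𝓝 1)} ⊆
      {v | ¬ ∀ K : ℕ, ∃ C : ℕ, 1 ≤ C ∧ LipAt (SK φ K) C v} ∪
      ⋃ K : ℕ, ⋃ C : ℕ, ⋃ (_ : 1 ≤ C), ⋃ N : ℕ, {v : Fin d → ℝ | LipAt (SK φ K) C v ∧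
        ∃ h, (h, v) ∈ SK φ K ∧ ∀ n : ℕ, N ≤ n → 1 / 2 ≤
          ∫ x, frProb β h (fun i y => ω i y x) (win n v (ε K C * Real.sqrt n)) ∂P} := by
    rintro v ⟨h, hc⟩
    by_cases hv : ∀ K : ℕ, ∃ C : ℕ, 1 ≤ C ∧ LipAt (SK φ K) C v
    · right
      obtain ⟨K, hK⟩ := exists_nat_ge ‖h‖
      obtain ⟨C, hC, hL⟩ := hv K
      have hev := (hc (ε K C) (hε K C hC)).eventually (lt_mem_nhds (by norm_num : (1 / 2 : ℝ) < 1))
      obtain ⟨N, hN⟩ := eventually_atTop.1 hev
      simp only [mem_iUnion]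
      exact ⟨K, C, hC, N, hL, h, ⟨hK, sub_of_conf hmeas β hφ (hc 1 one_pos)⟩,
        fun n hn => (hN n hn).le⟩
    · left; exact hv
  refine measure_mono_null hsub (measure_union_null (ae_iff.1 hlip') ?_)
  rw [measure_iUnion_null_iff]; intro K
  rw [measure_iUnion_null_iff]; intro C
  rw [measure_iUnion_null_iff]; intro hC
  rw [measure_iUnion_null_iff]; intro N
  exact hnull K C hC N

/-- membership in the set defining the wandering exponent gives confinement -/
lemma conf_of_wander [NeZero d] (hmeas : ∀ i y, Measurable (ω i y)) {β : ℝ} {h v : Fin d → ℝ}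
    {b : ℝ} (hb : b < 1 / 2)
    (hw : ∫⁻ x, liminf (fun n : ℕ => ENNReal.ofReal (frProb β h
      (fun i y => ω i y x) (tube n v ((n : ℝ) ^ b)))) atTop ∂P = 1) {ε : ℝ} (hε : 0 < ε) :
    Tendsto (fun n : ℕ => ∫ x, frProb β h (fun i y => ω i y x)
      (win n v (ε * Real.sqrt n)) ∂P) atTop (𝓝 1) := by
  have hle1 : ∀ (A : (n : ℕ) → Set (Fin n → Step d)) (n : ℕ),
      ∫⁻ x, ENNReal.ofReal (frProb β h (fun i y => ω i y x) (A n)) ∂P ≤ 1 := by
    intro A n
    calc ∫⁻ x, ENNReal.ofReal (frProb β h (fun i y => ω i y x) (A n)) ∂P ≤ ∫⁻ _x, 1 ∂P := by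
          refine lintegral_mono fun x => ?_
          rw [← ENNReal.ofReal_one]
          exact ENNReal.ofReal_le_ofReal (frProb_le_one' _ _ _ _)
      _ = 1 := by simp
  have h1 : (1 : ENNReal) ≤ liminf (fun n : ℕ => ∫⁻ x, ENNReal.ofReal (frProb β h
      (fun i y => ω i y x) (tube n v ((n : ℝ) ^ b))) ∂P) atTop := by
    rw [← hw]
    exact lintegral_liminf_le fun n => (measurable_frProb hmeas β h _).ennreal_ofReal
  have h2 : Tendsto (fun n : ℕ => ∫⁻ x, ENNReal.ofReal (frProb β h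
      (fun i y => ω i y x) (tube n v ((n : ℝ) ^ b))) ∂P) atTop (𝓝 1) := by
    apply tendsto_of_le_liminf_of_limsup_le h1
    · exact limsup_le_of_le (h := Eventually.of_forall fun n =>
        hle1 (fun n => tube n v ((n : ℝ) ^ b)) n)
  have hev : ∀ᶠ n : ℕ in atTop, (n : ℝ) ^ b ≤ ε * Real.sqrt n := by
    have h3 : Tendsto (fun n : ℕ => (n : ℝ) ^ (1 / 2 - b)) atTop atTop :=
      (tendsto_rpow_atTop (by linarith)).comp tendsto_natCast_atTop_atTop
    filter_upwards [h3.eventually_ge_atTop (1 / ε), eventually_ge_atTop 1] with n hn hn1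
    have hn0 : (0 : ℝ) < n := by exact_mod_cast hn1
    rw [Real.rpow_sub hn0, div_le_div_iff₀ hε (by positivity), one_mul] at hn
    rw [Real.sqrt_eq_rpow]
    linarith
  have h4 : Tendsto (fun n : ℕ => ∫⁻ x, ENNReal.ofReal (frProb β h
      (fun i y => ω i y x) (win n v (ε * Real.sqrt n))) ∂P) atTop (𝓝 1) := by
    refine tendsto_of_tendsto_of_tendsto_of_le_of_le' h2 tendsto_const_nhds ?_
      (Eventually.of_forall fun n => hle1 (fun n => win n v (ε * Real.sqrt n)) n)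
    filter_upwards [hev] with n hn
    refine lintegral_mono fun x => ENNReal.ofReal_le_ofReal (frProb_mono _ _ _ ?_)
    intro w hw' k
    refine le_trans ?_ ((hw' n le_rfl).trans hn)
    apply Real.le_sqrt_of_sq_le
    rw [sq_abs]
    exact Finset.single_le_sum (f := fun k => ((pos w n k : ℝ) - n * v k) ^ 2)
      (fun _ _ => sq_nonneg _) (Finset.mem_univ k)
  have h5 : ∀ n : ℕ, ∫ x, frProb β h (fun i y => ω i y x) (win n v (ε * Real.sqrt n)) ∂P =
      (∫⁻ x, ENNReal.ofReal (frProb β h (fun i y => ω i y x)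
        (win n v (ε * Real.sqrt n))) ∂P).toReal := by
    intro n
    rw [integral_eq_lintegral_of_nonneg_ae (Eventually.of_forall fun x => frProb_nonneg' _ _ _ _)
      (measurable_frProb hmeas β h _).aestronglyMeasurable]
  simp_rw [h5]
  have h6 := (ENNReal.tendsto_toReal ENNReal.one_ne_top).comp h4
  rw [ENNReal.toReal_one] at h6
  exact h6

lemma tube_univ (v : Fin d → ℝ) : ∀ᶠ n : ℕ in atTop, tube n v ((n : ℝ) ^ (2 : ℝ)) = Set.univ := by
  filter_upwards [tendsto_natCast_atTop_atTop.eventually_ge_atTop (∑ k, (1 + |v k|))] with n hn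
  apply Set.eq_univ_of_forall
  intro w i hi
  have h7 : (n : ℝ) ^ (2 : ℝ) = n * n := by rw [Real.rpow_two, sq]
  rw [h7]
  refine le_trans ?_ (mul_le_mul_of_nonneg_left hn (Nat.cast_nonneg n))
  have h0 : ∀ k, |(pos w i k : ℝ) - i * v k| ≤ n * (1 + |v k|) := by
    intro k
    have h5 : |(pos w i k : ℝ)| ≤ n := by
      have hl := Pool.Agent.K1H38.DP.abs_dot_le (Pi.single k (1 : ℝ) : Fin d → ℝ) (r := 1)
        (fun j => by
          by_cases hj : j = k
          · subst hj; simp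
          · rw [Pi.single_eq_of_ne hj]; simp) w i
      have hds := dot_single (d := d) 1 k (pos w i)
      rw [one_smul, one_mul] at hds
      rw [hds, mul_one] at hl
      exact hl
    have h6 : |(i : ℝ) * v k| ≤ n * |v k| := by
      rw [abs_mul, Nat.abs_cast]
      exact mul_le_mul_of_nonneg_right (by exact_mod_cast hi) (abs_nonneg _)
    calc |(pos w i k : ℝ) - i * v k| ≤ |(pos w i k : ℝ)| + |(i : ℝ) * v k| := abs_sub _ _
      _ ≤ n * (1 + |v k|) := by linarith
  apply Real.sqrt_le_iff.2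
  refine ⟨by positivity, ?_⟩
  have h := Finset.sum_sq_le_sq_sum_of_nonneg (s := Finset.univ)
    (f := fun k => |(pos w i k : ℝ) - i * v k|) (fun _ _ => abs_nonneg _)
  simp only [sq_abs] at h
  refine h.trans ?_
  apply pow_le_pow_left₀ (Finset.sum_nonneg (fun _ _ => abs_nonneg _))
  rw [Finset.mul_sum]
  exact Finset.sum_le_sum fun k _ => h0 k

lemma wander_ge [NeZero d] {β : ℝ} {h v : Fin d → ℝ} {a : ℝ}
    (H : ∀ b : ℝ, 0 < b → b < a → ¬ ∫⁻ x, liminf (fun n : ℕ => ENNReal.ofReal (frProb β h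
      (fun i y => ω i y x) (tube n v ((n : ℝ) ^ b)))) atTop ∂P = 1) :
    a ≤ Pool.Agent.K1H38.DP.wanderingExp P ω β h v := by
  unfold Pool.Agent.K1H38.DP.wanderingExp
  apply le_csInf
  · refine ⟨2, by norm_num, ?_⟩
    have h2 : ∀ x : Ω, liminf (fun n : ℕ => ENNReal.ofReal (frProb β h (fun i y => ω i y x)
        (tube n v ((n : ℝ) ^ (2 : ℝ))))) atTop = 1 := by
      intro x
      have h3 : Tendsto (fun n : ℕ => ENNReal.ofReal (frProb β h (fun i y => ω i y x)
        (tube n v ((n : ℝ) ^ (2 : ℝ))))) atTop (𝓝 1) := by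
        apply tendsto_const_nhds.congr'
        filter_upwards [tube_univ v] with n hn
        rw [hn]
        have : frProb β h (fun i y => ω i y x) (univ : Set (Fin n → Step d)) = 1 := by
          unfold frProb
          rw [div_eq_one_iff_eq (Zd_pos _ _ _ _).ne']
          unfold Zd
          simp
        rw [this, ENNReal.ofReal_one]
      exact h3.liminf_eq
    simp_rw [h2]
    simp
  · rintro b ⟨hb0, hb⟩
    by_contra hcon
    push Not at hcon
    exact H b hb0 hcon hb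

/-- no slope outside a null set has a subdiffusive polymer -/
theorem gen_main [NeZero d] (hmeas : ∀ i y, Measurable (ω i y)) (β : ℝ) :
    ∃ N : Set (Fin d → ℝ), volume N = 0 ∧ ∀ v : Fin d → ℝ, v ∉ N → ∀ h : Fin d → ℝ,
      (∃ ε : ℝ, 0 < ε ∧ ¬ Tendsto (fun n : ℕ => ∫ x, frProb β h (fun i y => ω i y x)
        (win n v (ε * Real.sqrt n)) ∂P) atTop (𝓝 1)) ∧
      1 / 2 ≤ Pool.Agent.K1H38.DP.wanderingExp P ω β h v := by
  refine ⟨_, gen_null (P := P) hmeas β, fun v hv h => ?_⟩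
  have h1 : ∃ ε : ℝ, 0 < ε ∧ ¬ Tendsto (fun n : ℕ => ∫ x, frProb β h (fun i y => ω i y x)
        (win n v (ε * Real.sqrt n)) ∂P) atTop (𝓝 1) := by
    by_contra hcon
    push Not at hcon
    exact hv ⟨h, hcon⟩
  refine ⟨h1, wander_ge fun b _ hb hw => ?_⟩
  obtain ⟨ε, hε, hne⟩ := h1
  exact hne (conf_of_wander hmeas hb hw hε)

end Pool.Agent.H97.NS
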