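import Pool.Agent.H97.NS.Gen

/-!
Independent environments: drifts and slopes for which a window of size `o(n)` has a substantial
mass, and the corresponding null set of slopes.
-/

open MeasureTheory ProbabilityTheory TH967.DP Filter Set
open scoped Topology
open Pool.Agent.K1H38.DP

set_option linter.unusedSectionVars false
set_option autoImplicit false

namespace Pool.Agent.H97.NS

variable {d : ℕ} {Ω : Type*} [MeasurableSpace Ω] {P : Measure Ω} [IsProbabilityMeasure P]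
  {ω : ℕ → (Fin d → ℤ) → Ω → ℝ}

lemma int_comb {g X Y : Ω → ℝ} (hg : Integrable g P) (hX : Integrable (fun a => X a ^ 2) P)
    (hY : Integrable (fun a => Y a ^ 2) P) (c : ℝ) :
    ∫ a, (g a - c * (X a ^ 2 + Y a ^ 2)) ∂P =
      ∫ a, g a ∂P - c * (∫ a, X a ^ 2 ∂P + ∫ a, Y a ^ 2 ∂P) := by
  have h1 : Integrable (fun a => X a ^ 2 + Y a ^ 2) P := hX.add hY
  have h2 : Integrable (fun a => c * (X a ^ 2 + Y a ^ 2)) P := h1.const_mul c
  rw [integral_sub hg h2, integral_const_mul, integral_add hX hY]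

/-- one environment in which the window has mass `≥ δ/2` and the free energies are typical -/
lemma good_env [NeZero d] (he : IsEnv P ω) (hexp : HasExp P ω) {β K : ℝ}
    (hK : ∀ (h : Fin d → ℝ) (n : ℕ), 1 ≤ n → Vr P ω β h n ≤ K * n)
    {h h' v : Fin d → ℝ} {δ γ R : ℝ} (hγ : 0 < γ) {n : ℕ} (hn : 1 ≤ n)
    (hnK : 2 * K / (γ ^ 2 * n) ≤ δ / 2) (hδ : 0 < δ)
    (hE : δ ≤ ∫ x, frProb β h (fun i y => ω i y x) (win n v R) ∂P) :
    n * ip (h' - h) v - l1 (h' - h) * R + Real.log (δ / 2) ≤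
      Lm P ω β h' n - Lm P ω β h n + 2 * (γ * n) := by
  have hn0 : (0 : ℝ) < n := by exact_mod_cast hn
  have hfi := integrable_frProb (P := P) he.meas β h (win n v R)
  have i1 := integrable_sq he hexp β h hn
  have i2 := integrable_sq he hexp β h' hn
  set g : Ω → ℝ := fun x => frProb β h (fun i y => ω i y x) (win n v R) with hg
  set X : Ω → ℝ := fun a => Real.log (Zd β h (fld ω a) n) - Lm P ω β h n with hX
  set X' : Ω → ℝ := fun a => Real.log (Zd β h' (fld ω a) n) - Lm P ω β h' n with hX'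
  have hYi : Integrable (fun a => g a - (1 / (γ * n) ^ 2) * (X a ^ 2 + X' a ^ 2)) P :=
    hfi.sub ((i1.add i2).const_mul _)
  obtain ⟨x, hx⟩ := exists_integral_le hYi
  have hv1 := hK h n hn
  have hv2 := hK h' n hn
  unfold Vr at hv1 hv2
  have hmean : δ / 2 ≤ ∫ a, (g a - (1 / (γ * n) ^ 2) * (X a ^ 2 + X' a ^ 2)) ∂P := by
    rw [int_comb hfi i1 i2]
    have h1 : 1 / (γ * n) ^ 2 * (∫ a, X a ^ 2 ∂P + ∫ a, X' a ^ 2 ∂P) ≤ 2 * K / (γ ^ 2 * n) := by
      calc 1 / (γ * n) ^ 2 * (∫ a, X a ^ 2 ∂P + ∫ a, X' a ^ 2 ∂P) ≤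
          1 / (γ * n) ^ 2 * (2 * (K * n)) := by
            apply mul_le_mul_of_nonneg_left _ (by positivity)
            linarith
        _ = 2 * K / (γ ^ 2 * n) := by field_simp
    have h2 : δ ≤ ∫ a, g a ∂P := hE
    linarith
  have h3 : δ / 2 ≤ g x - (1 / (γ * n) ^ 2) * (X x ^ 2 + X' x ^ 2) := hmean.trans hx
  have hg1 : g x ≤ 1 := frProb_le_one' _ _ _ _
  have hpos : 0 ≤ (1 / (γ * n) ^ 2) * (X x ^ 2 + X' x ^ 2) := by positivity
  have hgx : δ / 2 ≤ g x := by linarith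
  have hsq : X x ^ 2 + X' x ^ 2 ≤ (γ * n) ^ 2 := by
    have h4 : (1 / (γ * n) ^ 2) * (X x ^ 2 + X' x ^ 2) ≤ 1 := by linarith
    rw [one_div, inv_mul_le_iff₀ (by positivity), mul_one] at h4
    exact h4
  have hXx : |X x| ≤ γ * n := abs_le_of_sq_le_sq (by nlinarith [sq_nonneg (X' x)]) (by positivity)
  have hXx' : |X' x| ≤ γ * n := abs_le_of_sq_le_sq (by nlinarith [sq_nonneg (X x)]) (by positivity)
  -- the inequality for the environment `x`
  have hZ := Zd_pos β h (fld ω x) n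
  have hm : δ / 2 * Zd β h (fld ω x) n ≤ mass β h (fld ω x) (win n v R) := by
    have h5 : δ / 2 ≤ mass β h (fld ω x) (win n v R) / Zd β h (fld ω x) n := hgx
    rwa [le_div_iff₀ hZ] at h5
  have h6 : Real.exp (n * ip (h' - h) v - l1 (h' - h) * R) * (δ / 2 * Zd β h (fld ω x) n) ≤
      Zd β h' (fld ω x) n := by
    refine le_trans (mul_le_mul_of_nonneg_left hm (Real.exp_pos _).le) ?_
    refine le_trans ?_ (mass_le β h' (fld ω x) (win n v R))
    have := mass_tilt_ge β h (h' - h) v (fld ω x) R (n := n)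
    rwa [add_sub_cancel] at this
  have h7 := Real.log_le_log (by positivity) h6
  rw [Real.log_mul (Real.exp_pos _).ne' (by positivity), Real.log_exp,
    Real.log_mul (by positivity) hZ.ne'] at h7
  have h8 := (abs_le.1 hXx).1
  have h9 := (abs_le.1 hXx').2
  simp only [hX, hX'] at h8 h9
  linarith

/-- windows of size `o(n)` with substantial mass have subgradient slopes -/
lemma sub_of_mass [NeZero d] (he : IsEnv P ω) (hexp : HasExp P ω) (β : ℝ)
    {p : (Fin d → ℝ) → ℝ}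
    (hp : ∀ h, Tendsto (fun k : ℕ => Lm P ω β h (2 ^ k) / 2 ^ k) atTop (𝓝 (p h)))
    {h v : Fin d → ℝ} {δ : ℝ} (hδ : 0 < δ) {R : ℕ → ℝ}
    (hR : Tendsto (fun n : ℕ => R n / n) atTop (𝓝 0))
    (hE : ∀ᶠ n : ℕ in atTop, δ ≤ ∫ x, frProb β h (fun i y => ω i y x) (win n v (R n)) ∂P) :
    Sub p h v := by
  obtain ⟨K, hK0, hK⟩ := Vr_linear he hexp β
  intro h'
  have key : ∀ γ : ℝ, 0 < γ → ip (h' - h) v ≤ p h' - p h + 2 * γ := by
    intro γ hγ
    have hpow : Tendsto (fun k : ℕ => 2 ^ k : ℕ → ℕ) atTop atTop :=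
      tendsto_pow_atTop_atTop_of_one_lt (by norm_num)
    have h1 : Tendsto (fun n : ℕ => 2 * K / (γ ^ 2 * n)) atTop (𝓝 0) :=
      (Tendsto.const_mul_atTop (by positivity : 0 < γ ^ 2)
        tendsto_natCast_atTop_atTop).const_div_atTop _
    have h2 : ∀ᶠ n : ℕ in atTop, 2 * K / (γ ^ 2 * n) ≤ δ / 2 :=
      (h1.eventually (gt_mem_nhds (by positivity : (0 : ℝ) < δ / 2))).mono fun n hn => le_of_lt hn
    have h3 : ∀ᶠ n : ℕ in atTop, ip (h' - h) v - l1 (h' - h) * (R n / n) +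
        Real.log (δ / 2) / n ≤ Lm P ω β h' n / n - Lm P ω β h n / n + 2 * γ := by
      filter_upwards [h2, hE, eventually_ge_atTop 1] with n hn1 hn2 hn3
      have hn0 : (0 : ℝ) < n := by exact_mod_cast hn3
      have h4 := good_env he hexp hK (h' := h') hγ hn3 hn1 hδ hn2
      have h5 := div_le_div_of_nonneg_right h4 hn0.le
      have e1 : (n * ip (h' - h) v - l1 (h' - h) * R n + Real.log (δ / 2)) / n =
          ip (h' - h) v - l1 (h' - h) * (R n / n) + Real.log (δ / 2) / n := by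
        field_simp
      have e2 : (Lm P ω β h' n - Lm P ω β h n + 2 * (γ * n)) / n =
          Lm P ω β h' n / n - Lm P ω β h n / n + 2 * γ := by
        field_simp
      rwa [e1, e2] at h5
    have h4 : Tendsto (fun n : ℕ => ip (h' - h) v - l1 (h' - h) * (R n / n) +
        Real.log (δ / 2) / n) atTop (𝓝 (ip (h' - h) v - l1 (h' - h) * 0 + 0)) :=
      (tendsto_const_nhds.sub (hR.const_mul _)).add
        (tendsto_natCast_atTop_atTop.const_div_atTop _)
    have h5 : Tendsto (fun k : ℕ => Lm P ω β h' (2 ^ k) / ((2 ^ k : ℕ) : ℝ) -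
        Lm P ω β h (2 ^ k) / ((2 ^ k : ℕ) : ℝ) + 2 * γ) atTop (𝓝 (p h' - p h + 2 * γ)) := by
      have := ((hp h').sub (hp h)).add_const (2 * γ)
      simpa using this
    have h6 := le_of_tendsto_of_tendsto (h4.comp hpow) h5 (hpow.eventually h3)
    simpa using h6
  have : ip (h' - h) v ≤ p h' - p h := by
    apply le_of_forall_pos_le_add
    intro e he'
    have := key (e / 2) (by positivity)
    linarith
  linarith

/-- slopes for which some drift has windows of size `ε √n`, for all `ε`, with substantial mass -/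
theorem iid_null [NeZero d] (he : IsEnv P ω) (hexp : HasExp P ω) (β : ℝ) :
    volume {v : Fin d → ℝ | ∃ h, ∃ δ : ℝ, 0 < δ ∧ ∀ ε : ℝ, 0 < ε → ∀ᶠ n : ℕ in atTop,
      δ ≤ ∫ x, frProb β h (fun i y => ω i y x) (win n v (ε * Real.sqrt n)) ∂P} = 0 := by
  obtain ⟨p, hp, hconv, hcont⟩ := exists_p he hexp β
  have hB : ∀ K : ℕ, ∃ B : ℝ, ∀ h : Fin d → ℝ, ‖h‖ ≤ K → -B ≤ p h := by
    intro K
    obtain ⟨B, hB⟩ := (isCompact_closedBall (0 : Fin d → ℝ) K).exists_bound_of_continuousOn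
      hcont.continuousOn
    refine ⟨B, fun h hh => ?_⟩
    have := hB h (mem_closedBall_zero_iff.2 hh)
    rw [Real.norm_eq_abs] at this
    exact (abs_le.1 this).1
  choose B hB using hB
  have hlip := fun K : ℕ => lip_ae p (K := K) (B := B K) (Nat.cast_nonneg K) (hB K)
  have hlip' := ae_all_iff.2 hlip
  have hnull : ∀ K C q : ℕ, 1 ≤ C → ∃ ε : ℝ, 0 < ε ∧ ∀ N : ℕ,
      volume {v : Fin d → ℝ | LipAt (SK p K) C v ∧ ∃ h, (h, v) ∈ SK p K ∧
      ∀ n : ℕ, N ≤ n → 1 / ((q : ℝ) + 1) ≤ ∫ x, frProb β h (fun i y => ω i y x)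
        (win n v (ε * Real.sqrt n)) ∂P} = 0 := by
    intro K C q hC
    exact null_core he.meas β (SK p K) (by exact_mod_cast hC) (by positivity)
  choose! ε hε hnull using hnull
  have hsub : {v : Fin d → ℝ | ∃ h, ∃ δ : ℝ, 0 < δ ∧ ∀ ε : ℝ, 0 < ε → ∀ᶠ n : ℕ in atTop,
      δ ≤ ∫ x, frProb β h (fun i y => ω i y x) (win n v (ε * Real.sqrt n)) ∂P} ⊆
      {v | ¬ ∀ K : ℕ, ∃ C : ℕ, 1 ≤ C ∧ LipAt (SK p K) C v} ∪
      ⋃ K : ℕ, ⋃ C : ℕ, ⋃ (_ : 1 ≤ C), ⋃ q : ℕ, ⋃ N : ℕ, {v : Fin d → ℝ | LipAt (SK p K) C v ∧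
        ∃ h, (h, v) ∈ SK p K ∧ ∀ n : ℕ, N ≤ n → 1 / ((q : ℝ) + 1) ≤
          ∫ x, frProb β h (fun i y => ω i y x) (win n v (ε K C q * Real.sqrt n)) ∂P} := by
    rintro v ⟨h, δ, hδ, hc⟩
    by_cases hv : ∀ K : ℕ, ∃ C : ℕ, 1 ≤ C ∧ LipAt (SK p K) C v
    · right
      obtain ⟨K, hK⟩ := exists_nat_ge ‖h‖
      obtain ⟨C, hC, hL⟩ := hv K
      obtain ⟨q, hq⟩ := exists_nat_one_div_lt hδ
      obtain ⟨N, hN⟩ := eventually_atTop.1 (hc (ε K C q) (hε K C q hC))
      have hS : Sub p h v := by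
        refine sub_of_mass he hexp β hp hδ (R := fun n => 1 * Real.sqrt n) ?_ (hc 1 one_pos)
        have hs : Tendsto (fun n : ℕ => 1 / Real.sqrt n) atTop (𝓝 0) :=
          (Real.tendsto_sqrt_atTop.comp tendsto_natCast_atTop_atTop).const_div_atTop 1
        refine hs.congr' ?_
        filter_upwards [eventually_ge_atTop 1] with n hn
        have hn' : (0 : ℝ) < n := by exact_mod_cast hn
        have h6 : (n : ℝ) = Real.sqrt n * Real.sqrt n := (Real.mul_self_sqrt hn'.le).symm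
        have h7 : Real.sqrt n ≠ 0 := (Real.sqrt_pos.2 hn').ne'
        nth_rewrite 3 [h6]
        field_simp
      simp only [mem_iUnion]
      exact ⟨K, C, hC, q, N, hL, h, ⟨hK, hS⟩, fun n hn => hq.le.trans (hN n hn)⟩
    · left; exact hv
  refine measure_mono_null hsub (measure_union_null (ae_iff.1 hlip') ?_)
  rw [measure_iUnion_null_iff]; intro K
  rw [measure_iUnion_null_iff]; intro C
  rw [measure_iUnion_null_iff]; intro hC
  rw [measure_iUnion_null_iff]; intro q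
  rw [measure_iUnion_null_iff]; intro N
  exact hnull K C q hC N

end Pool.Agent.H97.NS
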